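import Pool.Agent.H462.CTU.Crit

/-!
# The case `k = 0`: the curves of `D` and of `-D`
-/

set_option autoImplicit false
set_option linter.unusedSectionVars false
set_option linter.unusedVariables false

open scoped Classical

namespace Pool.Agent.H462.CTU.Crit0

open NumberField IsDedekindDomain WeierstrassCurve
open Pool.Agent.Y692.QS (Ei w toC)
open Pool.Agent.Y703.CT
open Pool.Agent.Y715.T.Gi Pool.Agent.Y715.T.Nr Pool.Agent.Y715.T.Df Pool.Agent.Y715.T.Ell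
open Pool.Agent.TH841.NF.D (Sha)
open Pool.Agent.Y696.CTK
open Pool.Agent.Y155.CT (a_mul a_cont AG AG_fg)
open Pool.Agent.Y715.T.Rec (cs)
open Pool.Agent.XL6
open Pool.Agent.H462.CTU.LK (Dk)
open Pool.Agent.H462.CTU.Val (IsHLk)

section
variable {i₀ : QB} {hi : i₀ ^ 2 + i₀ + 1 = 0}
variable {J : Type} [Fintype J] {π : J → Ei} {e : J → ZMod 3} {D : Ei}

lemma dk0 (h : Dk 0 π e D) : D = pD π e ∨ D = -pD π e := by
  unfold Dk at h
  have h0 : (0 : ZMod 3).val = 0 := rfl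
  simpa only [h0, pow_zero, one_mul] using h

/-- the same character -/
lemma tw_neg (h : Dk 0 π e D) {u : QB} {a : GK i₀ → ZMod 3} (hT : Tw hi D u a) :
    ∃ u', Tw hi (pD π e) u' a := by
  rcases dk0 h with h | h
  · exact ⟨u, h ▸ hT⟩
  · refine ⟨-u, ?_, fun σ => ?_⟩
    · rw [Odd.neg_pow (by decide), hT.cube, h, map_neg, neg_neg]
    · rw [map_neg, hT.act σ]
      ring

end

variable {J : Type} [Fintype J] [Nonempty J] {π : J → Ei} {e : J → ZMod 3} {D : Ei}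
variable {K : Type} [Field K] [NumberField K] (j : Ei ≃+* 𝓞 K)

/-- the arithmetic side -/
theorem ari (hD : Dt π e) (hDk : Dk 0 π e D)
    (h9 : ¬ (9 : ℤ) ∣ Pool.Agent.Y692.QS.nr (pD π e) - 1) (hK : Ker π e) :
    Finite (ED (j D : K)).toAffine.Point ∧
    padicValNat 3 (Nat.card (ED (j D : K)).toAffine.Point) = 1 ∧
    ∀ (n : ℕ) (x : Sha (ED (j D : K))), 3 ^ n • x = 0 → x = 0 := by
  have hne := hDk.ne hD
  obtain ⟨h1, h2⟩ := parts.mwt parts.trf K j D hne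
    fun i₀ hi u a hT => by
      obtain ⟨u', hT'⟩ := tw_neg hDk hT
      exact (descK hD hK h9 hT').2
  exact ⟨h1, h2, parts.sht parts.trf K j D hne fun i₀ hi u a hT => by
    obtain ⟨u', hT'⟩ := tw_neg hDk hT
    exact (descK hD hK h9 hT').1⟩

/-- the rank -/
theorem rk (hD : Dt π e) (hDk : Dk 0 π e D)
    (h9 : ¬ (9 : ℤ) ∣ Pool.Agent.Y692.QS.nr (pD π e) - 1) :
    Module.Finite ℤ (ED (j D : K)).toAffine.Point ∧
    (SelK (j D : K)).ncard = (KerV π e).ncard ∧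
    ∀ r : ℕ, (KerV π e).ncard ≤ 3 ^ (r + 1) →
      Module.finrank ℤ (ED (j D : K)).toAffine.Point ≤ 2 * r := by
  have hne := hDk.ne hD
  obtain ⟨e', i₀, hi, u, a, Ψ, g, hdata⟩ := parts.trf K j _ hne
  have hT := hdata.1
  obtain ⟨u', hT'⟩ := tw_neg hDk hT
  have h1 : (SelH hi a).ncard = (KerV π e).ncard := sel_card hD h9 hT'
  refine ⟨Pool.Agent.H462.T1.fg_K hne hdata, (selK_card hne hdata).trans h1, fun r hr => ?_⟩
  have hpos : (KerV π e).ncard ≠ 0 := by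
    have h0 : (0 : J → ZMod 3) ∈ KerV π e := fun j => by simp
    exact Set.ncard_ne_zero_of_mem h0 (Set.toFinite _)
  have hfin : (SelH hi a).Finite := Set.finite_of_ncard_ne_zero (by rw [h1]; exact hpos)
  exact (rk_le hne hdata).trans (rank_le (a_mul hne hT) (a_cont hne hT)
    (Pool.Agent.Y703.CT.a_ne hD hT') hfin (by rw [h1]; exact hr))

/-- the analytic continuation -/
theorem entire (hD : Dt π e) (hDk : Dk 0 π e D)
    (h9 : ¬ (9 : ℤ) ∣ Pool.Agent.Y692.QS.nr (pD π e) - 1) :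
    ∃ Φ : ℂ → ℂ, Differentiable ℂ Φ ∧ (∀ s : ℂ, 3 / 2 < s.re →
      LSeriesSummable ((fun n : ℤ => (n : ℂ)) ∘ (ED (j D : K)).LFunction) s ∧
        Φ s = (ED (j D : K)).LSeries s) ∧ (Ker π e → Φ 1 ≠ 0) := by
  obtain ⟨F, hF, hval⟩ := val_sq hD h9
  have hF' : IsHLk 0 π (fun i => -e i) F := by
    refine ⟨hF.1, fun s hs => (hF.2 s hs).congr_fun fun α => ?_⟩
    rw [zero_mul, neg_zero, ZMod.val_zero, pow_zero, one_mul]
  refine ⟨fun s => F s * (starRingEnd ℂ) (F ((starRingEnd ℂ) s)), diff_conj hF.1,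
      fun s hs => LK.LK Pool.Agent.Y350.CT.rec j hD hDk hF' hs, fun hT => ?_⟩
  obtain ⟨V, hV⟩ := Pool.Agent.Y715.T.Fin.exists_over_three
  obtain ⟨Ω, hΩ, hC⟩ := Pool.Agent.Y696.exists_cur
  obtain ⟨g, -, hg2, -, hg⟩ := hval V.ValueGroup V.valuation hV _ Ω hC
  rw [hg2 hT, mul_one] at hg
  have hl : V.valuation Pool.Agent.Y715.T.Three.lam ≠ 0 := Pool.Agent.Y715.T.Three.lam_ne
  intro h0
  have h0' : F 1 * (starRingEnd ℂ) (F 1) = 0 := by
    have : F 1 * (starRingEnd ℂ) (F ((starRingEnd ℂ) 1)) = 0 := h0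
    rwa [map_one] at this
  rw [h0', zero_div, map_zero, zero_mul] at hg
  exact pow_ne_zero _ (mul_ne_zero hl hl) hg.symm

end Pool.Agent.H462.CTU.Crit0
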