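import Pool.Agent.H462.CTU.Law.Cou
import Pool.Agent.H462.T1.D

/-!
# The curves `y² + D y = x³` over `ℚ(√-3)`, `D` squarefree and prime to three
-/

set_option autoImplicit false
set_option linter.unusedSectionVars false
set_option linter.unusedVariables false

open scoped Classical

namespace Pool.Agent.H462.CTU.K

open NumberField IsDedekindDomain WeierstrassCurve
open Pool.Agent.Y692.QS (Ei w nr)
open Pool.Agent.Y703.CT
open Pool.Agent.Y715.T.Rec (cs nn)
open Pool.Agent.Y715.T.RecG (Pq)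
open Pool.Agent.Y696.CTK
open Pool.Agent.Y699.E (PD mem_PD PS PS_prod eq_of_dvd pq_ne nrm)
open Pool.Agent.XL6 (KerV)
open Pool.Agent.TH841.NF.D (Sha)
open Pool.Agent.H462.CTU.Chr (nq)
open Pool.Agent.H462.CTU.LK (Dk)
open Pool.Agent.H462.CTU.Sel (KW KerC)
open Pool.Agent.H462.CTU.Fam
open Pool.Agent.H462.CTU.Law.Cou

/-! ### for one `D` over the Eisenstein integers -/

section
variable {J : Type} [Fintype J] {π : J → Ei} {k : ZMod 3}

lemma kerC_of (h : (KW k π (fun _ => 1)).ncard = 3) : KerC k π (fun _ => 1) := by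
  have hfin : (KW k π (fun _ => (1 : ZMod 3))).Finite := Set.toFinite _
  have hc : ∀ c : ZMod 3, (fun _ => c : Option J → ZMod 3) ∈ KW k π (fun _ => 1) := by
    intro c j
    simp
  have hcc : Set.range (fun (c : ZMod 3) (_ : Option J) => c) = KW k π (fun _ => 1) := by
    apply Set.eq_of_subset_of_ncard_le _ _ hfin
    · rintro _ ⟨c, rfl⟩
      exact hc c
    · rw [h, Set.ncard_range_of_injective, Nat.card_zmod]
      intro c c' h
      exact congrFun h none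
  intro v hv i
  rw [← hcc] at hv
  obtain ⟨c, rfl⟩ := hv
  rfl

lemma ker_of [Nonempty J] (h : (KerV π (fun _ => 1)).ncard = 3) : Ker π (fun _ => 1) := by
  obtain ⟨j0⟩ := (inferInstance : Nonempty J)
  have hfin : (KerV π (fun _ => (1 : ZMod 3))).Finite := Set.toFinite _
  have hc : ∀ c : ZMod 3, (fun _ => c : J → ZMod 3) ∈ KerV π (fun _ => 1) := by
    intro c j
    simp
  have hcc : Set.range (fun (c : ZMod 3) (_ : J) => c) = KerV π (fun _ => 1) := by
    apply Set.eq_of_subset_of_ncard_le _ _ hfin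
    · rintro _ ⟨c, rfl⟩
      exact hc c
    · rw [h, Set.ncard_range_of_injective, Nat.card_zmod]
      intro c c' h
      exact congrFun h j0
  intro v hv i k
  have hv' : v ∈ KerV π (fun _ => (1 : ZMod 3)) := hv
  rw [← hcc] at hv'
  obtain ⟨c, rfl⟩ := hv'
  rfl

end

/-- the factorization of an element of the class -/
lemma exists_dt {z : Ei} (hz : ClsA z) {r : ℕ} (hr : CorE z r) :
    ∃ (k : ZMod 3) (J : Type) (_ : Fintype J) (_ : Nonempty J) (π : J → Ei),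
      Dt π (fun _ => 1) ∧ Dk k π (fun _ => 1) z ∧ Cr k r (PD (pD π (fun _ => 1))) ∧
      (k = 0 → ¬ (9 : ℤ) ∣ nr (pD π (fun _ => 1)) - 1) := by
  obtain ⟨⟨b, k⟩, n, hn, h1, h2⟩ := hr
  have h3 := (ClsA_el (p := (b, k)) hn).1 (h1 ▸ hz)
  have hne : (PD n).Nonempty := by
    rw [Finset.nonempty_iff_ne_empty]
    intro h4
    apply h3.1
    rw [← hn.prod, h4, Finset.prod_empty]
  have hp : pD (fun x : PD n => (x : Ei)) (fun _ => 1) = n := by
    rw [pD_one']
    conv_rhs => rw [← hn.prod]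
    exact Finset.prod_coe_sort (PD n) (fun x => x)
  refine ⟨k, PD n, inferInstance, hne.to_subtype, fun x => x, ⟨fun x => ?_, fun x y hxy hd => ?_,
    fun _ => one_ne_zero⟩, ?_, ?_, ?_⟩
  · exact ((mem_PD hn.ne).1 x.2).1
  · exact hxy (Subtype.ext (eq_of_dvd ((mem_PD hn.ne).1 y.2).1 ((mem_PD hn.ne).1 x.2).1 hd).symm)
  · unfold Dk
    rw [hp, h1]
    unfold un
    cases b
    · left
      simp
    · right
      simp
  · rw [hp]
    exact h2
  · intro hk
    rw [hp]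
    have h4 : ¬ nq n = 0 := fun h => h3.2 ⟨hk, h⟩
    intro h5
    apply h4
    have h6 := (nine_el (p := (false, 0)) hn).1
    apply h6
    rw [Pool.Agent.Y692.QS.nr_mul, un_nr, one_mul]
    exact h5

section
variable {K : Type} [Field K] [NumberField K] (j : Ei ≃+* 𝓞 K)

/-- **the curve, for one `D`** -/
theorem one {z : Ei} (hz : ClsA z) {r : ℕ} (hr : CorE z r) :
    Module.Finite ℤ (ED (j z : K)).toAffine.Point ∧
    Module.finrank ℤ (ED (j z : K)).toAffine.Point ≤ 2 * r ∧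
    (∃ Φ : ℂ → ℂ, Differentiable ℂ Φ ∧ (∀ s : ℂ, 3 / 2 < s.re →
      LSeriesSummable ((fun n : ℤ => (n : ℂ)) ∘ (ED (j z : K)).LFunction) s ∧
        Φ s = (ED (j z : K)).LSeries s) ∧ (r = 0 → Φ 1 ≠ 0)) ∧
    (r = 0 → Finite (ED (j z : K)).toAffine.Point ∧
      padicValNat 3 (Nat.card (ED (j z : K)).toAffine.Point) = 1 ∧
      ∀ (n : ℕ) (x : Sha (ED (j z : K))), 3 ^ n • x = 0 → x = 0) := by
  obtain ⟨k, J, _, _, π, hdt, hDk, hCr, h9⟩ := exists_dt hz hr
  have hG := (Cr_GW hdt).1 hCr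
  by_cases hk : k = 0
  · subst hk
    rw [if_pos rfl, GW_zero] at hG
    have h9' := h9 rfl
    obtain ⟨a1, a2, a3⟩ := Crit0.rk (K := K) j hdt hDk h9'
    obtain ⟨Φ, b1, b2, b3⟩ := Crit0.entire (K := K) j hdt hDk h9'
    refine ⟨a1, a3 r hG.le, ⟨Φ, b1, b2, fun h0 => b3 (ker_of (by rw [hG, h0]; norm_num))⟩,
      fun h0 => Crit0.ari j hdt hDk h9' (ker_of (by rw [hG, h0]; norm_num))⟩
  · rw [if_neg hk] at hG
    have hKW : (KW k π (fun _ => 1)).ncard = 3 ^ (r + 1) := by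
      rw [KW_ncard, hG, pow_succ]
      ring
    obtain ⟨a1, a2, a3⟩ := Crit.rk (K := K) j hk hdt hDk
    obtain ⟨Φ, b1, b2, b3⟩ := Crit.entire (K := K) j hk hdt hDk
    refine ⟨a1, a3 r hKW.le, ⟨Φ, b1, b2, fun h0 => b3 (kerC_of (by rw [hKW, h0]; norm_num))⟩,
      fun h0 => Crit.ari j hk hdt hDk (kerC_of (by rw [hKW, h0]; norm_num))⟩

lemma cor_ex {z : Ei} (hz : ClsA z) : ∃ r, CorE z r := by
  obtain ⟨⟨b, k⟩, n, hn, h1⟩ := exists_el hz.1
  have h3 := (ClsA_el (p := (b, k)) hn).1 (h1 ▸ hz)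
  have hne : (PD n).Nonempty := by
    rw [Finset.nonempty_iff_ne_empty]
    intro h4
    apply h3.1
    rw [← hn.prod, h4, Finset.prod_empty]
  obtain ⟨r, hr⟩ := Cr_exists (k := k) (S := PD n) (Or.inr hne)
  exact ⟨r, (b, k), n, hn, h1, hr⟩

lemma cor_unique {z : Ei} (hz : A0 z) {r s : ℕ} (h : CorE z r) (h' : CorE z s) : r = s := by
  obtain ⟨⟨b, k⟩, n, hn, h1⟩ := exists_el hz
  rw [h1] at h h'
  exact Cr_unique ((CorE_el hn).1 h) ((CorE_el hn).1 h')

end

/-! ### over `K` -/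

section
variable {K : Type} [Field K] [NumberField K]

/-- squarefree and prime to three -/
def AK (D : 𝓞 K) : Prop := Squarefree D ∧ ¬ (3 : ℤ) ∣ Algebra.norm ℤ D

/-- the class -/
def CK (D : 𝓞 K) : Prop :=
  AK D ∧ ¬ IsUnit D ∧ ¬ ((3 : 𝓞 K) ∣ D ^ 2 - 1 ∧ (9 : ℤ) ∣ Algebra.norm ℤ D - 1)

/-- `D` is the product of the primary primes `π i` and of `± ω ^ k`, and
`(π i / π j)_3 = ω ^ χ j i` -/
def Fac (ω D : 𝓞 K) (k : ZMod 3) (n : ℕ) (π : Fin n → 𝓞 K) (χ : Fin n → Fin n → ZMod 3) : Prop :=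
  (∀ i, Prime (π i) ∧ (3 : 𝓞 K) ∣ π i - 1) ∧
  (D = ω ^ k.val * ∏ i, π i ∨ D = -(ω ^ k.val * ∏ i, π i)) ∧
  ∀ i j, i ≠ j →
    π j ∣ π i ^ (((Algebra.norm ℤ (π j)).natAbs - 1) / 3) - ω ^ (χ j i).val

/-- the number of the solutions of the system -/
noncomputable def sol (k : ZMod 3) {n : ℕ} (π : Fin n → 𝓞 K) (χ : Fin n → Fin n → ZMod 3) : ℕ :=
  Nat.card {v : Fin n → ZMod 3 // ∀ j, ∑ i, χ j i * (v i - v j) =
    k * (((Algebra.norm ℤ (π j) - 1) / 3 : ℤ) : ZMod 3) * v j}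

/-- the corank -/
def CorK (D : 𝓞 K) (r : ℕ) : Prop :=
  ∃ (ω : 𝓞 K) (k : ZMod 3) (n : ℕ) (π : Fin n → 𝓞 K) (χ : Fin n → Fin n → ZMod 3),
    ω ^ 2 + ω + 1 = 0 ∧ Fac ω D k n π χ ∧ sol k π χ = if k = 0 then 3 ^ (r + 1) else 3 ^ r

variable (j : Ei ≃+* 𝓞 K) (hj : ∀ z : Ei, Algebra.norm ℤ (j z) = nr z)

include hj in
lemma AK_iff (z : Ei) : AK (j z) ↔ A0 z := by
  unfold AK A0
  rw [hj]
  refine and_congr_left fun _ => ?_
  constructor
  · intro h x hx
    have h1 := h (j x) (by rw [← map_mul]; exact map_dvd j hx)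
    exact (MulEquiv.isUnit_map j).1 h1
  · intro h x hx
    obtain ⟨y, rfl⟩ := j.surjective x
    rw [← map_mul, map_dvd_iff j] at hx
    exact (h y hx).map j

include hj in
lemma CK_iff (z : Ei) : CK (j z) ↔ ClsA z := by
  unfold CK ClsA
  rw [AK_iff j hj, hj, MulEquiv.isUnit_map j]
  have e1 : (3 : 𝓞 K) ∣ (j z) ^ 2 - 1 ↔ (3 : Ei) ∣ z ^ 2 - 1 := by
    have : (j z) ^ 2 - 1 = j (z ^ 2 - 1) := by rw [map_sub, map_one, map_pow]
    rw [this, ← map_ofNat j 3, map_dvd_iff j]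
  rw [e1]

lemma two_k (k : ZMod 3) : ((w : Ei) ^ 2) ^ k.val = w ^ (-k).val := by
  revert k
  decide

include hj in
/-- the data of a factorization, over the Eisenstein integers -/
lemma fac_data {z : Ei} {ω : 𝓞 K} {k : ZMod 3} {n : ℕ} {π : Fin n → 𝓞 K}
    {χ : Fin n → Fin n → ZMod 3} (hω : ω ^ 2 + ω + 1 = 0) (h : Fac ω (j z) k n π χ) :
    ∃ ε : ZMod 3, ε ≠ 0 ∧ Dk (ε * k) (fun i => j.symm (π i)) (fun _ => 1) z ∧
      ∀ i l, i ≠ l → cs (j.symm (π l)) (j.symm (π i)) = ε * χ l i := by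
  obtain ⟨h1, h2, h3⟩ := h
  have hnn : ∀ k, nn (j.symm (π k)) = ((Algebra.norm ℤ (π k)).natAbs - 1) / 3 := by
    intro k
    unfold nn
    rw [← hj, RingEquiv.apply_symm_apply]
  have hww : (w : Ei) ^ 2 + w + 1 = 0 := by decide
  have hfac : (ω - j w) * (ω - j (w ^ 2)) = 0 := by
    have e1 : (w : Ei) ^ 2 = -w - 1 := by linear_combination hww
    rw [e1, map_sub, map_neg, map_one]
    have e2 : (j w) ^ 2 + j w + 1 = 0 := by
      rw [← map_pow, ← map_one j, ← map_add, ← map_add, hww, map_zero]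
    linear_combination hω - e2
  have hz : ∀ u : Ei, ω = j u → z = u ^ k.val * ∏ i, j.symm (π i) ∨
      z = -(u ^ k.val * ∏ i, j.symm (π i)) := by
    intro u hu
    rcases h2 with h4 | h4
    · left
      apply j.injective
      rw [h4, hu, map_mul, map_pow, map_prod]
      simp only [RingEquiv.apply_symm_apply]
    · right
      apply j.injective
      rw [h4, hu, map_neg, map_mul, map_pow, map_prod]
      simp only [RingEquiv.apply_symm_apply]
  rcases mul_eq_zero.1 hfac with h4 | h4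
  · refine ⟨1, one_ne_zero, ?_, fun i l hil => ?_⟩
    · unfold Dk
      rw [one_mul, pD_one']
      exact hz w (sub_eq_zero.1 h4)
    · rw [one_mul]
      have hpq := pq_symm j (h1 l).1 (h1 l).2
      apply Pool.Agent.Y715.T.RecG.cs_of hpq.prime hpq.norm
      have h5 := map_dvd j.symm (h3 i l hil)
      rw [sub_eq_zero.1 h4, map_sub, map_pow, map_pow, RingEquiv.symm_apply_apply, ← hnn l] at h5
      exact h5
  · refine ⟨-1, by decide, ?_, fun i l hil => ?_⟩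
    · unfold Dk
      rw [neg_one_mul, pD_one', ← two_k]
      exact hz _ (sub_eq_zero.1 h4)
    · rw [neg_one_mul]
      have hpq := pq_symm j (h1 l).1 (h1 l).2
      apply Pool.Agent.Y715.T.RecG.cs_of hpq.prime hpq.norm
      have h5 := map_dvd j.symm (h3 i l hil)
      rw [sub_eq_zero.1 h4, map_sub, map_pow, map_pow, RingEquiv.symm_apply_apply, ← hnn l,
        w_two] at h5
      exact h5

include hj in
lemma sol_eq {n : ℕ} {π : Fin n → 𝓞 K} {χ : Fin n → Fin n → ZMod 3} {k ε : ZMod 3}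
    (hε : ε ≠ 0) (h : ∀ i l, i ≠ l → cs (j.symm (π l)) (j.symm (π i)) = ε * χ l i) :
    (GW (ε * k) (fun i => j.symm (π i))).ncard = sol k π χ := by
  rw [← Nat.card_coe_set_eq]
  unfold sol
  refine Nat.card_congr (Equiv.subtypeEquivRight fun v => ?_)
  refine forall_congr' fun l => ?_
  have h1 : ∑ i, cs (j.symm (π l)) (j.symm (π i)) * (v i - v l) =
      ε * ∑ i, χ l i * (v i - v l) := by
    rw [Finset.mul_sum]
    refine Finset.sum_congr rfl fun i _ => ?_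
    by_cases hil : i = l
    · rw [hil, sub_self, mul_zero, mul_zero, mul_zero]
    · rw [h i l hil]
      ring
  have h2 : nq (j.symm (π l)) = (((Algebra.norm ℤ (π l) - 1) / 3 : ℤ) : ZMod 3) := by
    unfold nq
    rw [← hj, RingEquiv.apply_symm_apply]
  rw [h1, h2]
  constructor
  · intro h3
    apply mul_left_cancel₀ hε
    rw [h3]
    ring
  · intro h3
    rw [h3]
    ring

include hj in
/-- the coranks -/
theorem cor_iff {z : Ei} (hz : A0 z) (r : ℕ) : CorK (j z) r ↔ CorE z r := by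
  constructor
  · rintro ⟨ω, k, n, π, χ, hω, hF, hs⟩
    obtain ⟨ε, hε, hDk, hcs⟩ := fac_data j hj hω hF
    have hpp : ∀ i, Pq (j.symm (π i)) := fun i => pq_symm j (hF.1 i).1 (hF.1 i).2
    have hprod : (∏ i, j.symm (π i)) ∣ z := by
      rcases hDk with h | h
      · rw [h, pD_one']
        exact dvd_mul_left _ _
      · rw [h, pD_one']
        exact (dvd_mul_left _ _).neg_right
    have hdt : Dt (fun i => j.symm (π i)) (fun _ => (1 : ZMod 3)) := by
      refine ⟨hpp, fun i l hil hd => ?_, fun _ => one_ne_zero⟩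
      have h4 : j.symm (π i) * j.symm (π l) ∣ z := by
        refine Dvd.dvd.trans ?_ hprod
        rw [← Finset.mul_prod_erase Finset.univ (fun i => j.symm (π i)) (Finset.mem_univ i)]
        refine mul_dvd_mul_left _ (Finset.dvd_prod_of_mem (fun i => j.symm (π i)) ?_)
        exact Finset.mem_erase.2 ⟨hil.symm, Finset.mem_univ _⟩
      exact (hpp l).prime.not_isUnit (hz.1 _ ((mul_dvd_mul_right hd _).trans h4))
    have hps := (PD_pD hdt).1
    have hcr : Cr (ε * k) r (PD (pD (fun i => j.symm (π i)) (fun _ => 1))) := by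
      rw [Cr_GW hdt, sol_eq j hj hε hcs, hs]
      by_cases hk : k = 0
      · rw [hk, mul_zero]
      · rw [if_neg hk, if_neg (mul_ne_zero hε hk)]
    rcases hDk with h | h
    · refine ⟨(false, ε * k), _, hps, ?_, hcr⟩
      rw [h]
      unfold un
      simp
    · refine ⟨(true, ε * k), _, hps, ?_, hcr⟩
      rw [h]
      unfold un
      simp
  · rintro ⟨⟨b, k⟩, m, hm, h1, h2⟩
    obtain ⟨n, ⟨e⟩⟩ : ∃ n, Nonempty (Fin n ≃ PD m) := ⟨_, ⟨(PD m).equivFin.symm⟩⟩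
    have hpq : ∀ i, Pq (e i : Ei) := fun i => ((mem_PD hm.ne).1 (e i).2).1
    have hdt : Dt (fun i => (e i : Ei)) (fun _ => (1 : ZMod 3)) := by
      refine ⟨hpq, fun i l hil hd => hil ?_, fun _ => one_ne_zero⟩
      exact e.injective (Subtype.ext (eq_of_dvd (hpq l) (hpq i) hd).symm)
    have hp : ∏ i, (e i : Ei) = m := by
      rw [Equiv.prod_comp e (fun x : PD m => (x : Ei))]
      conv_rhs => rw [← hm.prod]
      exact Finset.prod_coe_sort (PD m) (fun x => x)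
    have hww : (w : Ei) ^ 2 + w + 1 = 0 := by decide
    have hcs : ∀ i l, i ≠ l → cs (j.symm (j (e l : Ei))) (j.symm (j (e i : Ei))) =
        1 * cs (e l : Ei) (e i : Ei) := by
      intro i l _
      rw [one_mul, RingEquiv.symm_apply_apply, RingEquiv.symm_apply_apply]
    refine ⟨j w, k, n, fun i => j (e i : Ei), fun l i => cs (e l : Ei) (e i : Ei), ?_,
      ⟨fun i => ⟨?_, ?_⟩, ?_, fun i l hil => ?_⟩, ?_⟩
    · rw [← map_pow, ← map_one j, ← map_add, ← map_add, hww, map_zero]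
    · exact (MulEquiv.prime_iff (j : Ei ≃* 𝓞 K)).2 (hpq i).prime
    · have h3 := map_dvd j (hpq i).three
      rwa [map_sub, map_one, map_ofNat] at h3
    · rw [← map_prod, hp, h1, ← map_pow, ← map_mul, ← map_neg]
      unfold un
      cases b
      · left
        simp
      · right
        simp
    · have h3 := map_dvd j (Pool.Agent.Y715.T.RecG.cs_spec (hpq l).prime (hpq l).norm
        (hdt.nd i l hil))
      rw [map_sub, map_pow, map_pow] at h3
      rw [hj]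
      exact h3
    · rw [← sol_eq j hj one_ne_zero hcs, one_mul]
      have h3 : (fun i => j.symm (j (e i : Ei))) = fun i => (e i : Ei) :=
        funext fun i => RingEquiv.symm_apply_apply j _
      rw [h3]
      refine (Cr_GW hdt).1 ?_
      rw [pD_one', hp]
      exact h2

end

/-- the elements of norm at most `X` -/
def upA (K : Type) [Field K] [NumberField K] (X : ℕ) : Set (𝓞 K) :=
  {D : 𝓞 K | Algebra.norm ℤ D ≤ X ∧ AK D}

/-- the elements of the class of norm at most `X` -/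
def upC (K : Type) [Field K] [NumberField K] (X : ℕ) : Set (𝓞 K) :=
  {D : 𝓞 K | Algebra.norm ℤ D ≤ X ∧ CK D}

/-- the law in the residue classes of the units modulo three -/
theorem law_u (K : Type) [Field K] [NumberField K] [IsCyclotomicExtension {3} ℚ K]
    (u : (𝓞 K)ˣ) (r : ℕ) : Filter.Tendsto (fun X : ℕ =>
      (({D ∈ upC K X | (3 : 𝓞 K) ∣ D - u ∧ CorK D r}.ncard : ℕ) : ℝ) /
        (({D ∈ upC K X | (3 : 𝓞 K) ∣ D - u}.ncard : ℕ) : ℝ)) Filter.atTop
      (nhds (Pool.Agent.Y703.XL.cr r)) := by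
  obtain ⟨⟨j, hj⟩, -⟩ := Pool.Agent.Y455.CTK.jex K
  have hu : IsUnit (j.symm (u : 𝓞 K)) := u.isUnit.map j.symm
  obtain ⟨p, hp⟩ := exists_un (Pool.Agent.Y692.QS.isUnit_iff.1 hu)
  have hdv : ∀ z : Ei, (3 : 𝓞 K) ∣ j z - u ↔ (3 : Ei) ∣ z - un p := by
    intro z
    have h1 : j z - u = j (z - un p) := by
      rw [map_sub, ← hp, RingEquiv.apply_symm_apply]
    rw [h1, ← map_ofNat j 3, map_dvd_iff j]
  have e1 : ∀ X : ℕ, ({D ∈ upC K X | (3 : 𝓞 K) ∣ D - u}).ncard =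
      {D : Ei | nr D ≤ X ∧ ClsA D ∧ (3 : Ei) ∣ D - un p}.ncard := by
    intro X
    rw [← Pool.Agent.Y696.XK.img_ncard j hj X (fun D => ClsA D ∧ (3 : Ei) ∣ D - un p)
      (fun D => CK D ∧ (3 : 𝓞 K) ∣ D - u) fun D => by rw [CK_iff j hj D, hdv]]
    congr 1
    ext D
    exact ⟨fun h => ⟨h.1.1, h.1.2, h.2⟩, fun h => ⟨⟨h.1, h.2.1⟩, h.2.2⟩⟩
  have e2 : ∀ X : ℕ, ({D ∈ upC K X | (3 : 𝓞 K) ∣ D - u ∧ CorK D r}).ncard =
      {D : Ei | nr D ≤ X ∧ ClsA D ∧ CorE D r ∧ (3 : Ei) ∣ D - un p}.ncard := by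
    intro X
    rw [← Pool.Agent.Y696.XK.img_ncard j hj X (fun D => ClsA D ∧ CorE D r ∧ (3 : Ei) ∣ D - un p)
      (fun D => CK D ∧ CorK D r ∧ (3 : 𝓞 K) ∣ D - u) fun D => by
        rw [CK_iff j hj D, hdv]
        refine and_congr_right fun hD => ?_
        rw [cor_iff j hj hD.1]]
    congr 1
    ext D
    exact ⟨fun h => ⟨h.1.1, h.1.2, h.2.2, h.2.1⟩, fun h => ⟨⟨h.1, h.2.1⟩, h.2.2.2, h.2.2.1⟩⟩
  simp only [e1, e2]
  exact law_res p r

/-- **The final statement.** -/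
theorem final (K : Type) [Field K] [NumberField K] [IsCyclotomicExtension {3} ℚ K] :
    (∀ X, (upA K X).Finite) ∧
    (∃ c : ℝ, 0 < c ∧ ∃ X₀ : ℕ, ∀ X : ℕ, X₀ ≤ X → c * X ≤ ((upA K X).ncard : ℝ)) ∧
    Filter.Tendsto (fun X : ℕ => ((upC K X).ncard : ℝ) / ((upA K X).ncard : ℝ)) Filter.atTop
      (nhds (8 / 9)) ∧
    (∀ r : ℕ, Filter.Tendsto (fun X : ℕ =>
      (({D ∈ upC K X | CorK D r}.ncard : ℕ) : ℝ) / ((upC K X).ncard : ℝ)) Filter.atTop
      (nhds (Pool.Agent.Y703.XL.cr r))) ∧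
    ∀ D : 𝓞 K, CK D → (∃! r, CorK D r) ∧ ∀ r, CorK D r →
      Module.Finite ℤ (ED (D : K)).toAffine.Point ∧
      Module.finrank ℤ (ED (D : K)).toAffine.Point ≤ 2 * r ∧
      (∃ Φ : ℂ → ℂ, Differentiable ℂ Φ ∧ (∀ s : ℂ, 3 / 2 < s.re →
        LSeriesSummable ((fun n : ℤ => (n : ℂ)) ∘ (ED (D : K)).LFunction) s ∧
          Φ s = (ED (D : K)).LSeries s) ∧ (r = 0 → Φ 1 ≠ 0)) ∧
      (r = 0 → Finite (ED (D : K)).toAffine.Point ∧
        padicValNat 3 (Nat.card (ED (D : K)).toAffine.Point) = 1 ∧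
        ∀ (n : ℕ) (x : Sha (ED (D : K))), 3 ^ n • x = 0 → x = 0) := by
  obtain ⟨⟨j, hj⟩, -⟩ := Pool.Agent.Y455.CTK.jex K
  have eA : ∀ X : ℕ, (upA K X).ncard = {D : Ei | nr D ≤ X ∧ A0 D}.ncard := fun X =>
    Pool.Agent.Y696.XK.img_ncard j hj X A0 AK fun D => (AK_iff j hj D).symm
  have eC : ∀ X : ℕ, (upC K X).ncard = {D : Ei | nr D ≤ X ∧ ClsA D}.ncard := fun X =>
    Pool.Agent.Y696.XK.img_ncard j hj X ClsA CK fun D => (CK_iff j hj D).symm
  have eR : ∀ (X r : ℕ), ({D ∈ upC K X | CorK D r}).ncard =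
      {D : Ei | nr D ≤ X ∧ ClsA D ∧ CorE D r}.ncard := by
    intro X r
    rw [← Pool.Agent.Y696.XK.img_ncard j hj X (fun D => ClsA D ∧ CorE D r)
      (fun D => CK D ∧ CorK D r) fun D => by
        rw [CK_iff j hj D]
        refine and_congr_right fun hD => ?_
        rw [cor_iff j hj hD.1]]
    congr 1
    ext D
    exact ⟨fun h => ⟨h.1.1, h.1.2, h.2⟩, fun h => ⟨⟨h.1, h.2.1⟩, h.2.2⟩⟩
  refine ⟨fun X => ?_, ?_, ?_, fun r => ?_, fun D hD => ?_⟩
  · have h1 : {D : Ei | nr D ≤ X}.Finite :=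
      (Pool.Agent.Y699.E.fin_norm_le X).subset fun D hD => Pool.Agent.Y699.E.nr_le.1 hD
    refine (h1.image j).subset ?_
    rintro D ⟨h2, -⟩
    obtain ⟨z, rfl⟩ := j.surjective D
    rw [hj] at h2
    exact ⟨z, h2, rfl⟩
  · obtain ⟨c, hc, X₀, h⟩ := a0_low
    exact ⟨c, hc, X₀, fun X hX => by rw [eA]; exact h X hX⟩
  · simp only [eA, eC]
    exact share
  · simp only [eR, eC]
    exact law r
  · obtain ⟨z, rfl⟩ := j.surjective D
    have hz := (CK_iff j hj z).1 hD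
    obtain ⟨r, hr⟩ := cor_ex hz
    refine ⟨⟨r, (cor_iff j hj hz.1 r).2 hr, fun s hs =>
      cor_unique hz.1 ((cor_iff j hj hz.1 s).1 hs) hr⟩, fun s hs => ?_⟩
    exact one j hz ((cor_iff j hj hz.1 s).1 hs)

/-- the share of the small coranks -/
theorem share' (K : Type) [Field K] [NumberField K] [IsCyclotomicExtension {3} ℚ K] (r : ℕ) :
    Filter.Tendsto (fun X : ℕ =>
    (({D ∈ upC K X | ∃ s ≤ r, CorK D s}.ncard : ℕ) : ℝ) /
      ((upC K X).ncard : ℝ)) Filter.atTop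
      (nhds (∑ s ∈ Finset.range (r + 1), Pool.Agent.Y703.XL.cr s)) := by
  obtain ⟨hfin, -, -, h3, h4⟩ := final K
  have h := tendsto_finsetSum (Finset.range (r + 1)) fun s _ => h3 s
  refine h.congr fun X => ?_
  rw [← Finset.sum_div]
  congr 1
  have hfin' : (upC K X).Finite := (hfin X).subset fun D hD => ⟨hD.1, hD.2.1⟩
  have e : {D ∈ upC K X | ∃ s ≤ r, CorK D s} =
      ⋃ s ∈ Finset.range (r + 1), {D ∈ upC K X | CorK D s} := by
    ext D
    simp only [Set.mem_iUnion, Finset.mem_range, exists_prop]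
    constructor
    · rintro ⟨h1, s, hs, h3⟩
      exact ⟨s, by omega, h1, h3⟩
    · rintro ⟨s, hs, h1, h3⟩
      exact ⟨h1, s, by omega, h3⟩
  rw [e, Pool.Agent.H462.T1.ncard_union (fun s => {D ∈ upC K X | CorK D s})
    (fun s => hfin'.subset fun D hD => hD.1) ?_]
  · push_cast
    rfl
  · intro s t hst
    rw [Set.disjoint_left]
    rintro D ⟨h1, h2⟩ ⟨-, h5⟩
    exact hst ((h4 D h1.2).1.unique h2 h5)

end Pool.Agent.H462.CTU.K
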