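import Pool.Agent.H462.CTU.Phi2

/-!
# The characters modulo `3√-3`
-/

set_option autoImplicit false
set_option linter.unusedSectionVars false

open Filter
open scoped Topology PeriodPair

namespace Pool.Agent.H462.CTU.Chr

open Pool.Agent.Y692.QS (Ei w nr toC)
open H667R3 Pool.Agent.W192.HK Pool.Agent.TH936.CM
open Pool.Agent.TH936.PU hiding v_int
open Pool.Agent.Y715.Dist Pool.Agent.Y715.Idn Pool.Agent.Y715.T.Lat Pool.Agent.Y696
open Pool.Agent.Y715.T.Rs (eq0)
open Pool.Agent.Y715.T.LF (rd rd_ez rd_eq_zero)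
open Pool.Agent.Y715.T.Three Pool.Agent.Y715.T.Cg
open Pool.Agent.Y703.CT.Ana (ej eo_j ej_u ej_ncop ej_prim)
open Pool.Agent.Y703.CT (toC_w_add)
open Pool.Agent.H462.CTU.Phi

variable {L : PeriodPair} {Ω : ℂ}

/-! ### the norm residue -/

/-- `(N x - 1) / 3` modulo three -/
def nq (x : Ei) : ZMod 3 := (((nr x - 1) / 3 : ℤ) : ZMod 3)

lemma nq_of {x : Ei} {a : ℤ} (h : nr x = 1 + 3 * a) : nq x = (a : ZMod 3) := by
  unfold nq
  have e : (nr x - 1) / 3 = a := by omega
  rw [e]

lemma nq_mul {x y : Ei} (hx : (3 : ℤ) ∣ nr x - 1) (hy : (3 : ℤ) ∣ nr y - 1) :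
    nq (x * y) = nq x + nq y := by
  obtain ⟨a, ha⟩ := hx
  obtain ⟨b, hb⟩ := hy
  have ha' : nr x = 1 + 3 * a := by linarith
  have hb' : nr y = 1 + 3 * b := by linarith
  have hab : nr (x * y) = 1 + 3 * (a + b + 3 * (a * b)) := by
    rw [Pool.Agent.Y692.QS.nr_mul, ha', hb']
    ring
  rw [nq_of ha', nq_of hb', nq_of hab]
  push_cast
  have h3 : (3 : ZMod 3) = 0 := by decide
  rw [h3]
  ring

lemma nq_congr {x y : Ei} (hx : (3 : ℤ) ∣ nr x - 1) (h : (9 : ℤ) ∣ nr x - nr y) : nq x = nq y := by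
  obtain ⟨a, ha⟩ := hx
  obtain ⟨b, hb⟩ := h
  have ha' : nr x = 1 + 3 * a := by linarith
  have hb' : nr y = 1 + 3 * (a - 3 * b) := by linarith
  rw [nq_of ha', nq_of hb']
  push_cast
  have h3 : (3 : ZMod 3) = 0 := by decide
  rw [h3]
  ring

lemma nq_unit {x : Ei} (h : nr x = 1) : nq x = 0 := by
  rw [nq_of (a := 0) (by rw [h]; norm_num)]
  rfl

/-- on primary elements the norm residue is the opposite of the linear term -/
lemma nq_rq {α : Ei} (h : (3 : Ei) ∣ α - 1) : nq α = -Pool.Agent.Y703.CT.rq α := by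
  obtain ⟨x, y, h1, hr⟩ := Pool.Agent.Y703.CT.ex_q h
  rw [hr]
  have h2 := Pool.Agent.Y703.CT.nr_form x y
  rw [← h1] at h2
  rw [nq_of (a := 2 * x - y + 3 * nr (⟨x, y⟩ : Ei)) (by linarith)]
  rw [← sub_eq_zero, ← Int.cast_neg, ← Int.cast_sub, ZMod.intCast_zmod_eq_zero_iff_dvd]
  push_cast
  exact ⟨x + nr (⟨x, y⟩ : Ei), by ring⟩

lemma eq0_ez (a b : ℤ) : eq0 (⟨a, b⟩ : Ei) = ez a b := by
  apply Subtype.ext
  show ((eq0 (⟨a, b⟩ : Ei) : eis) : ℂ) = ((ez a b : eis) : ℂ)
  rw [Pool.Agent.Y715.T.Rs.eq0_coe, ez_coe]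
  exact Pool.Agent.Y703.CT.toC_eq' a b

lemma symm_ez (a b : ℤ) : eq0.symm (ez a b) = (⟨a, b⟩ : Ei) := by
  rw [← eq0_ez, RingEquiv.symm_apply_apply]

/-- the norm of an element of `eis` -/
noncomputable def ne (x : eis) : ℤ := nr (eq0.symm x)

lemma ne_ez (a b : ℤ) : ne (ez a b) = a ^ 2 - a * b + b ^ 2 := by
  unfold ne
  rw [symm_ez]
  rfl

lemma ne_mul (x y : eis) : ne (x * y) = ne x * ne y := by
  unfold ne
  rw [map_mul, Pool.Agent.Y692.QS.nr_mul]

lemma ne_cop {x : eis} (h : IsCoprime x 3) : (3 : ℤ) ∣ ne x - 1 := by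
  have h1 : rd x ≠ 0 := by
    obtain ⟨a, b, hab⟩ := h
    intro h0
    have h2 := congrArg rd hab
    have h3 : rd 3 = 0 := by
      rw [map_ofNat]
      decide
    rw [map_add, map_mul, map_mul, h0, h3, mul_zero, mul_zero, add_zero, map_one] at h2
    exact zero_ne_one h2
  obtain ⟨a, b, rfl⟩ := ez_ex x
  rw [rd_ez] at h1
  rw [ne_ez]
  have h2 : ((a + b : ℤ) : ZMod 3) ≠ 0 := h1
  have h3 : ((a ^ 2 - a * b + b ^ 2 - 1 : ℤ) : ZMod 3) = 0 → (3 : ℤ) ∣ a ^ 2 - a * b + b ^ 2 - 1 :=
    fun h => (ZMod.intCast_zmod_eq_zero_iff_dvd _ 3).1 h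
  refine h3 ?_
  clear h3 h1 h
  push_cast at h2 ⊢
  generalize (a : ZMod 3) = s at *
  generalize (b : ZMod 3) = t at *
  revert s t
  decide

lemma ne_per {x y : eis} (h : x - y ∈ (sp f3 : Ideal eis)) : (9 : ℤ) ∣ ne x - ne y := by
  obtain ⟨t, ht⟩ := Ideal.mem_span_singleton'.1 h
  obtain ⟨a, b, rfl⟩ := ez_ex y
  obtain ⟨p, q, rfl⟩ := ez_ex t
  have h1 : x = ez (a + 3 * (p - 2 * q)) (b + 3 * (2 * p - q)) := by
    have h3 : (3 : eis) = ez 3 0 := by
      rw [ez_int]
      norm_num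
    have e : x = ez p q * (ez 1 2 * ez 3 0) + ez a b := by
      have : f3 = ez 1 2 * ez 3 0 := by
        unfold f3 la
        rw [h3]
      rw [← this]
      linear_combination -ht
    rw [e, ez_mul, ez_mul, ez_add]
    congr 1 <;> ring
  rw [h1, ne_ez, ne_ez]
  exact ⟨b * p - a * q + 3 * (p ^ 2 - p * q + q ^ 2), by ring⟩

/-! ### the characters -/

/-- the cubic character modulo `3√-3` -/
noncomputable def ck (k : ZMod 3) (x : eis) : ℂ := toC w ^ (k * nq (eq0.symm x)).val

/-- the odd characters -/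
noncomputable def ek (k : ZMod 3) (j : Fin 3) (x : eis) : ℂ := ej j x * ck k x

lemma ck_norm (k : ZMod 3) (x : eis) : ‖ck k x‖ = 1 := by
  unfold ck
  rw [norm_pow]
  have h1 : ‖toC w‖ = 1 :=
    Complex.norm_eq_one_of_pow_eq_one Pool.Agent.Y715.T.Fin.toC_w_cube (by norm_num)
  rw [h1, one_pow]

lemma ck_cop_mul (k : ZMod 3) {x y : eis} (hx : IsCoprime x 3) (hy : IsCoprime y 3) :
    ck k (x * y) = ck k x * ck k y := by
  unfold ck
  rw [← toC_w_add, map_mul, nq_mul (ne_cop hx) (ne_cop hy)]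
  congr 2
  ring

lemma ck_per (k : ZMod 3) {x y : eis} (hx : IsCoprime x 3) (h : x - y ∈ (sp f3 : Ideal eis)) :
    ck k x = ck k y := by
  unfold ck
  rw [nq_congr (ne_cop hx) (ne_per h)]

lemma ck_neg (k : ZMod 3) (x : eis) : ck k (-x) = ck k x := by
  unfold ck nq
  rw [map_neg, Pool.Agent.Y692.QS.nr_neg]

lemma ck_unit (k : ZMod 3) {u : eis} (hu : IsUnit u) : ck k u = 1 := by
  unfold ck
  have h1 : nr (eq0.symm u) = 1 := Pool.Agent.Y692.QS.isUnit_iff.1 (hu.map eq0.symm)
  rw [nq_unit h1, mul_zero, ZMod.val_zero, pow_zero]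

lemma sp_f3_three {x : eis} (h : x ∈ (sp f3 : Ideal eis)) : x ∈ (sp 3 : Ideal eis) := sp_mul_le h

lemma cop_of_sub {x y : eis} (h : x - y ∈ (sp 3 : Ideal eis)) (hx : IsCoprime x 3) :
    IsCoprime y 3 := by
  obtain ⟨t, ht⟩ := Ideal.mem_span_singleton'.1 h
  obtain ⟨a, b, hab⟩ := hx
  exact ⟨a, b + a * t, by linear_combination hab + a * ht⟩

lemma eo_k (k : ZMod 3) (j : Fin 3) : Eo f3 (ek k j) := by
  refine ⟨fun x y hxy => ?_, fun x y => ?_, fun x => ?_, fun x => ?_⟩
  · have h3 := sp_f3_three hxy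
    unfold ek
    rw [(eo_j j).per x y h3]
    by_cases hx : IsCoprime x 3
    · rw [ck_per k hx hxy]
    · rw [ej_ncop j (fun hy => hx (cop_of_sub (by rw [← neg_mem_iff, neg_sub]; exact h3) hy)),
        zero_mul, zero_mul]
  · unfold ek
    rw [(eo_j j).mul]
    by_cases hx : IsCoprime x 3
    · by_cases hy : IsCoprime y 3
      · rw [ck_cop_mul k hx hy]
        ring
      · rw [ej_ncop j hy]
        ring
    · rw [ej_ncop j hx]
      ring
  · unfold ek
    rw [(eo_j j).neg, ck_neg]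
    ring
  · unfold ek
    rw [norm_mul, ck_norm, mul_one]
    exact (eo_j j).bd x

lemma ek_ncop (k : ZMod 3) (j : Fin 3) {x : eis} (hx : ¬ IsCoprime x 3) : ek k j x = 0 := by
  unfold ek
  rw [ej_ncop j hx, zero_mul]

lemma ek_prim (k : ZMod 3) (j : Fin 3) {x : eis} (h : x - 1 ∈ (sp 3 : Ideal eis)) :
    ek k j x = ck k x := by
  unfold ek
  rw [ej_prim j h, one_mul]

/-! ### the sum over the eighteen residues -/

lemma three_sum [Fintype (eis ⧸ (sp la : Ideal eis))] {H : eis → ℂ}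
    (hH : ∀ x y : eis, x - y ∈ (sp la : Ideal eis) → H x = H y) :
    ∑ y : eis ⧸ (sp la : Ideal eis), H y.out = H 0 + H 1 + H (-1) := by
  classical
  have hmem : ∀ x : eis, x ∈ (sp la : Ideal eis) ↔ rd x = 0 := by
    intro x
    constructor
    · intro h
      obtain ⟨t, ht⟩ := Ideal.mem_span_singleton'.1 h
      rw [← ht, map_mul, Pool.Agent.Y715.CT.Hec.rd_la, mul_zero]
    · intro h
      obtain ⟨t, ht⟩ := rd_eq_zero h
      exact Ideal.mem_span_singleton'.2 ⟨t, by rw [ht, mul_comm]⟩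
  set U : Finset eis := {0, 1, -1} with hU
  have h01 : (0 : eis) ≠ 1 := zero_ne_one
  have h2 : (2 : eis) ≠ 0 := by
    intro h
    have := congrArg rd h
    rw [map_ofNat, map_zero] at this
    exact absurd this (by decide)
  have h0m : (0 : eis) ≠ -1 := by
    intro h
    apply h01
    linear_combination -h
  have h1m : (1 : eis) ≠ -1 := by
    intro h
    apply h2
    linear_combination h
  have hsum : ∑ u ∈ U, H u = H 0 + H 1 + H (-1) := by
    rw [hU, Finset.sum_insert, Finset.sum_insert, Finset.sum_singleton]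
    · ring
    · rw [Finset.mem_singleton]
      exact h1m
    · rw [Finset.mem_insert, Finset.mem_singleton]
      rintro (h | h)
      · exact h01 h
      · exact h0m h
  rw [← hsum]
  set g : eis → eis ⧸ (sp la : Ideal eis) := fun x => Ideal.Quotient.mk _ x with hg
  have hginj : Set.InjOn g U := by
    intro u hu v hv huv
    have h3 : u - v ∈ (sp la : Ideal eis) := by
      rw [← Ideal.Quotient.mk_eq_mk_iff_sub_mem]
      exact huv
    rw [hmem, map_sub] at h3
    rw [hU] at hu hv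
    simp only [Finset.coe_insert, Finset.coe_singleton, Set.mem_insert_iff,
      Set.mem_singleton_iff] at hu hv
    rcases hu with rfl | rfl | rfl <;> rcases hv with rfl | rfl | rfl
    · rfl
    · rw [map_zero, map_one] at h3
      exact absurd h3 (by decide)
    · rw [map_zero, map_neg, map_one] at h3
      exact absurd h3 (by decide)
    · rw [map_zero, map_one] at h3
      exact absurd h3 (by decide)
    · rfl
    · rw [map_neg, map_one] at h3
      exact absurd h3 (by decide)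
    · rw [map_zero, map_neg, map_one] at h3
      exact absurd h3 (by decide)
    · rw [map_neg, map_one] at h3
      exact absurd h3 (by decide)
    · rfl
  have h1 : ∑ u ∈ U, H u = ∑ y ∈ U.image g, H y.out := by
    rw [Finset.sum_image hginj]
    exact Finset.sum_congr rfl fun u _ => hH _ _ (out_mk _ u)
  rw [h1]
  symm
  refine Finset.sum_subset (Finset.subset_univ _) fun y _ hy => ?_
  exfalso
  apply hy
  rw [Finset.mem_image]
  have h5 : rd y.out = 0 ∨ rd y.out = 1 ∨ rd y.out = -1 := by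
    generalize rd y.out = s
    revert s
    decide
  have key : ∀ u : eis, u ∈ U → rd y.out = rd u → ∃ a ∈ U, g a = y := by
    intro u hu hr
    refine ⟨u, hu, ?_⟩
    show Ideal.Quotient.mk _ u = y
    rw [← Ideal.Quotient.mk_out y, Ideal.Quotient.mk_eq_mk_iff_sub_mem, hmem, map_sub, hr,
      sub_self]
  rcases h5 with h5 | h5 | h5
  · exact key 0 (by rw [hU]; simp) (by rw [h5, map_zero])
  · exact key 1 (by rw [hU]; simp) (by rw [h5, map_one])
  · exact key (-1) (by rw [hU]; simp) (by rw [h5, map_neg, map_one])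

/-- the values at the three primary residues times a unit -/
noncomputable def tri (F : eis → ℂ) (u : eis) : ℂ := F u + F (u * 4) + F (u * -2)

theorem eighteen [Fintype (eis ⧸ (sp f3 : Ideal eis))] {F : eis → ℂ}
    (hF0 : ∀ x, ¬ IsCoprime x 3 → F x = 0)
    (hper : ∀ x y : eis, x - y ∈ (sp f3 : Ideal eis) → F x = F y) :
    ∑ y : eis ⧸ (sp f3 : Ideal eis), F y.out =
      tri F 1 + tri F (-1) + tri F omr + tri F (-omr) + tri F (omr ^ 2) + tri F (-omr ^ 2) := by
  have hfin := Pool.Agent.Y715.T.LF.fin_quot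
  have hla := Pool.Agent.Y715.CT.Hec.la_ne
  have : Finite (eis ⧸ (sp la : Ideal eis)) := hfin _ hla
  have : Fintype (eis ⧸ (sp la : Ideal eis)) := Fintype.ofFinite _
  have : Finite (eis ⧸ (sp 3 : Ideal eis)) := hfin _ three_ne
  have : Fintype (eis ⧸ (sp 3 : Ideal eis)) := Fintype.ofFinite _
  rw [← Sm_eq]
  have h1 := Sm_mul (a := la) (c := (3 : eis)) three_ne hfin hla (F := F) hper
  have h1' : Sm f3 F = Sm 3 (fun x => Sm la fun t => F (x + 3 * t)) := h1
  rw [h1', Sm_eq, six_sum (fun x => Sm la fun t => F (x + 3 * t))]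
  · have key : ∀ u : eis, IsUnit u → Sm la (fun t => F (u + 3 * t)) = tri F u := by
      intro u hu
      have hcop : IsCoprime la u := by
        obtain ⟨b, hb⟩ := hu.exists_left_inv
        exact ⟨0, b, by rw [hb]; ring⟩
      have hH : ∀ x y : eis, x - y ∈ (sp la : Ideal eis) → F (u + 3 * x) = F (u + 3 * y) := by
        intro x y hxy
        refine hper _ _ ?_
        obtain ⟨t, ht⟩ := Ideal.mem_span_singleton'.1 hxy
        rw [Ideal.mem_span_singleton']
        exact ⟨t, by unfold f3; linear_combination 3 * ht⟩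
      rw [Sm_eq, ← sum_mul_bij hcop (F := fun t => F (u + 3 * t)) hH]
      have h2 := three_sum (H := fun t => F (u + 3 * (u * t))) (by
        intro x y hxy
        refine hH _ _ ?_
        rw [← mul_sub]
        exact Ideal.mul_mem_left _ _ hxy)
      rw [h2]
      unfold tri
      congr 1
      · congr 1
        · congr 1
          ring
        · congr 1
          ring
      · congr 1
        ring
    have hu : ∀ v ∈ ({1, -1, omr, -omr, omr ^ 2, -omr ^ 2} : Set eis), IsUnit v := fun v hv =>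
      (unit_list v).2 hv
    rw [key 1 (hu _ (by simp)), key (-1) (hu _ (by simp)), key omr (hu _ (by simp)),
      key (-omr) (hu _ (by simp)), key (omr ^ 2) (hu _ (by simp)), key (-omr ^ 2) (hu _ (by simp))]
  · intro x hx
    refine Finset.sum_eq_zero fun t _ => hF0 _ fun h => hx ?_
    refine cop_of_sub (x := x + 3 * t) ?_ h
    rw [add_sub_cancel_left]
    exact Ideal.mul_mem_right _ _ (Ideal.mem_span_singleton_self _)
  · intro x y hxy
    obtain ⟨s, hs⟩ := Ideal.mem_span_singleton'.1 hxy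
    have e : (fun t : eis => F (x + 3 * t)) = fun t => F (y + 3 * (s + t)) := by
      funext t
      congr 1
      linear_combination -hs
    rw [e]
    refine Sm_shift (hfin _ hla) s (F := fun t => F (y + 3 * t)) fun a b hab => hper _ _ ?_
    obtain ⟨t, ht⟩ := Ideal.mem_span_singleton'.1 hab
    rw [Ideal.mem_span_singleton']
    exact ⟨t, by unfold f3; linear_combination 3 * ht⟩

end Pool.Agent.H462.CTU.Chr
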