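import Pool.Agent.H462.CTU.Sel
import Pool.Agent.H462.T1.A

/-!
# The curve `y² + D y = x³` over `ℚ(ω)` for `D = ± ω^k ∏ π_i^{e_i}`, `k ≠ 0`
-/

set_option autoImplicit false
set_option linter.unusedSectionVars false
set_option linter.unusedVariables false

open scoped Classical

namespace Pool.Agent.H462.CTU.Crit

open NumberField IsDedekindDomain WeierstrassCurve
open Pool.Agent.Y692.QS (Ei w toC)
open Pool.Agent.Y703.CT
open Pool.Agent.Y715.T.Gi Pool.Agent.Y715.T.Nr Pool.Agent.Y715.T.Df Pool.Agent.Y715.T.Ell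
open Pool.Agent.TH841.NF.D (Sha)
open Pool.Agent.Y696.CTK
open Pool.Agent.Y155.CT (a_mul a_cont AG AG_fg)
open Pool.Agent.Y715.T.Rec (cs)
open Pool.Agent.XL6
open Pool.Agent.H462.CTU.Chr (nq)
open Pool.Agent.H462.CTU.LK (Dk)
open Pool.Agent.H462.CTU.Sel
open Pool.Agent.H462.CTU.Val (IsHLk)
open Pool.Agent.H462.CTU.Main (KerW)

section desc

variable {i₀ : QB} {hi : i₀ ^ 2 + i₀ + 1 = 0}
variable {J : Type} [Fintype J] [Nonempty J] {π : J → Ei} {e : J → ZMod 3} {k : ZMod 3} {D : Ei}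

/-- `D` is not a cube -/
lemma a_ne (hD : Dt π e) (hDk : Dk k π e D)
    {u : QB} {a : GK i₀ → ZMod 3} (hT : Tw hi D u a) : ∃ σ, a σ ≠ 0 := by
  by_contra hcon
  push Not at hcon
  obtain ⟨j⟩ := (inferInstance : Nonempty J)
  have hb := kc_D hD hDk hT
  obtain ⟨p, hp, ι, hl⟩ := exists_emb hi (hD.pq j).prime
  have hp3 := Pool.Agent.Y715.T.Sel.odd_of hi ι (hD.pq j).prime hl
    (Pool.Agent.Y48.CT.SEL.not_assoc_lam (hD.pq j))
  have hcf : CF (el π (fun o => (ex k e o).val)) :=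
    cf_unit (Pool.Agent.Y48.CT.SEL.cf_prod hD e) (Ram.isUnit_w.pow _)
  refine Pool.Agent.Y715.T.Sel.not_dvd_of_unr hcf hb hp3 ι (hD.pq j).prime hl
    (fun τ σ _ _ => by rw [hcon σ, neg_zero]) ?_
  unfold el
  refine Dvd.dvd.mul_left ((dvd_pow_self (π j) ?_).trans
    (Finset.dvd_prod_of_mem (fun i => π i ^ (e i).val) (Finset.mem_univ j))) _
  rw [Ne, ZMod.val_eq_zero]
  exact hD.e0 j

theorem desc (hk : k ≠ 0) (hD : Dt π e) (hDk : Dk k π e D) (hK : KerC k π e)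
    {u : QB} {a : GK i₀ → ZMod 3} (hT : Tw hi D u a) : ShK hi a ∧ MwK hi a := by
  have hne := hDk.ne hD
  have hsel := sel1 hk hD hDk hK hT
  exact ⟨Pool.Agent.Y155.CT.t_SHK _ hne i₀ hi u a hT hsel,
    Pool.Agent.Y155.CT.t_MWK _ hne i₀ hi u a hT (a_ne hD hDk hT) hsel⟩

end desc

variable {J : Type} [Fintype J] [Nonempty J] {π : J → Ei} {e : J → ZMod 3} {k : ZMod 3} {D : Ei}

/-- the two forms of the condition on the kernel -/
lemma kerC_W (hrec : S_REC) (hD : Dt π e) (hK : KerC k π e) : KerW k π e := by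
  intro v hv i
  refine hK v (fun j => ?_) i
  have h1 := hv j
  have h2 : ∑ i, e i * cs (π j) (π i) * (v (some i) - v (some j)) =
      -∑ i, e i * cs (π i) (π j) * (v (some j) - v (some i)) := by
    rw [← Finset.sum_neg_distrib]
    refine Finset.sum_congr rfl fun i _ => ?_
    by_cases hij : i = j
    · rw [hij, sub_self, mul_zero, neg_zero]
    · rw [hrec (π i) (π j) (hD.pq i) (hD.pq j) (hD.nd i j hij)]
      ring
  rw [h2]
  linear_combination -h1

section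
variable {K : Type} [Field K] [NumberField K] (j : Ei ≃+* 𝓞 K)

/-- the arithmetic side -/
theorem ari (hk : k ≠ 0) (hD : Dt π e) (hDk : Dk k π e D) (hK : KerC k π e) :
    Finite (ED (j D : K)).toAffine.Point ∧
    padicValNat 3 (Nat.card (ED (j D : K)).toAffine.Point) = 1 ∧
    ∀ (n : ℕ) (x : Sha (ED (j D : K))), 3 ^ n • x = 0 → x = 0 := by
  have hne := hDk.ne hD
  obtain ⟨h1, h2⟩ := parts.mwt parts.trf K j D hne
    fun i₀ hi u a hT => (desc hk hD hDk hK hT).2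
  exact ⟨h1, h2, parts.sht parts.trf K j D hne fun i₀ hi u a hT => (desc hk hD hDk hK hT).1⟩

/-- the rank -/
theorem rk (hk : k ≠ 0) (hD : Dt π e) (hDk : Dk k π e D) :
    Module.Finite ℤ (ED (j D : K)).toAffine.Point ∧
    (SelK (j D : K)).ncard ≤ (KW k π e).ncard ∧
    ∀ r : ℕ, (KW k π e).ncard ≤ 3 ^ (r + 1) →
      Module.finrank ℤ (ED (j D : K)).toAffine.Point ≤ 2 * r := by
  have hne := hDk.ne hD
  obtain ⟨e', i₀, hi, u, a, Ψ, g, hdata⟩ := parts.trf K j _ hne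
  have hT := hdata.1
  obtain ⟨hfin, hle⟩ := sel_le hk hD hDk hT
  refine ⟨Pool.Agent.H462.T1.fg_K hne hdata, (selK_card hne hdata).trans_le hle, fun r hr => ?_⟩
  exact (rk_le hne hdata).trans (rank_le (a_mul hne hT) (a_cont hne hT) (a_ne hD hDk hT) hfin
    (hle.trans hr))

/-- the analytic continuation -/
theorem entire (hk : k ≠ 0) (hD : Dt π e) (hDk : Dk k π e D) :
    ∃ Φ : ℂ → ℂ, Differentiable ℂ Φ ∧ (∀ s : ℂ, 3 / 2 < s.re →
      LSeriesSummable ((fun n : ℤ => (n : ℂ)) ∘ (ED (j D : K)).LFunction) s ∧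
        Φ s = (ED (j D : K)).LSeries s) ∧ (KerC k π e → Φ 1 ≠ 0) := by
  by_cases hK : KerC k π e
  · obtain ⟨F, hF, h1, -⟩ := Main.an_main Pool.Agent.Y350.CT.rec hk hD
      (kerC_W Pool.Agent.Y350.CT.rec hD hK)
    refine ⟨fun s => F s * (starRingEnd ℂ) (F ((starRingEnd ℂ) s)), diff_conj hF.1,
      fun s hs => LK.LK Pool.Agent.Y350.CT.rec j hD hDk hF hs, fun _ => ?_⟩
    show F 1 * (starRingEnd ℂ) (F ((starRingEnd ℂ) 1)) ≠ 0
    rw [map_one]
    exact mul_ne_zero h1 ((map_ne_zero (starRingEnd ℂ)).2 h1)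
  · have hD' : Dt π (fun i => -e i) := ⟨hD.pq, hD.nd, fun j => neg_ne_zero.2 (hD.e0 j)⟩
    obtain ⟨F, hF, -⟩ := Val.an_val hk hD' (fun _ => 0)
    exact ⟨fun s => F s * (starRingEnd ℂ) (F ((starRingEnd ℂ) s)), diff_conj hF.1,
      fun s hs => LK.LK Pool.Agent.Y350.CT.rec j hD hDk hF hs, fun h => absurd h hK⟩

end

end Pool.Agent.H462.CTU.Crit
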