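import Pool.Agent.H462.CTU.Tot

/-!
# The sums modulo the maximal ideal
-/

set_option autoImplicit false
set_option linter.unusedSectionVars false

open Filter
open scoped Topology PeriodPair

namespace Pool.Agent.H462.CTU.Eng

open Pool.Agent.Y692.QS (Ei w nr toC)
open H667R3 Pool.Agent.W192.HK Pool.Agent.TH936.CM
open Pool.Agent.TH936.PU hiding v_int
open Pool.Agent.Y715.Dist Pool.Agent.Y715.Idn Pool.Agent.Y715.T.Lat Pool.Agent.Y696
open Pool.Agent.Y715.T.Rs (eq0)
open Pool.Agent.Y715.Two (v_nat v_int v_unit v_mul_le_of)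
open Pool.Agent.Y715.T.Three Pool.Agent.Y715.T.Cg
open Pool.Agent.Y715.T.Comb (D D_rec D_one)
open Pool.Agent.Y703.CT.Ana (Fy PX PX_zero PX_le sum_PX om_val)
open Pool.Agent.H462.CTU.Phi Pool.Agent.H462.CTU.Chr Pool.Agent.H462.CTU.Tot

/-! ### combinatorics with a ground node -/

section comb

variable {ι : Type*} [DecidableEq ι] [Fintype ι]

/-- the vector supported on the ground node -/
def gd (ι : Type*) : Option ι → ZMod 3
  | none => 1
  | some _ => 0

/-- the matrix with a ground node; `k` are the labels of the nodes, `l` those of the ground node -/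
def am (a : ι → ι → ZMod 3) (k l : ι → ZMod 3) : Option ι → Option ι → ZMod 3
  | some i, some j => a i j
  | some i, none => k i
  | none, some j => l j
  | none, none => 0

/-- the determinant -/
noncomputable def G (a : ι → ι → ZMod 3) (k l : ι → ZMod 3) (S : Finset ι) : ZMod 3 :=
  D (am a k l) (gd ι) (Finset.insertNone S)

lemma G_empty (a : ι → ι → ZMod 3) (k l : ι → ZMod 3) : G a k l ∅ = 1 := by
  unfold G
  have h : Finset.insertNone (∅ : Finset ι) = {none} := by
    ext x
    cases x <;> simp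
  rw [h, D_one]
  rfl

lemma sum_insertNone {M : Type*} [AddCommMonoid M] (S : Finset ι) (F : Finset (Option ι) → M)
    (hF : ∀ T, none ∉ T → F T = 0) :
    ∑ T ∈ (Finset.insertNone S).powerset, F T = ∑ T ∈ S.powerset, F (Finset.insertNone T) := by
  have h1 : ∑ T ∈ S.powerset, F (Finset.insertNone T) =
      ∑ T ∈ S.powerset.image (fun T => Finset.insertNone T), F T := by
    rw [Finset.sum_image]
    intro T _ U _ h
    exact Finset.insertNone.injective h
  rw [h1]
  symm
  refine Finset.sum_subset ?_ ?_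
  · intro T hT
    obtain ⟨U, hU, rfl⟩ := Finset.mem_image.1 hT
    rw [Finset.mem_powerset] at hU ⊢
    exact Finset.insertNone.monotone hU
  · intro T hT hT'
    apply hF
    intro hn
    apply hT'
    rw [Finset.mem_image]
    refine ⟨Finset.eraseNone T, ?_, ?_⟩
    · rw [Finset.mem_powerset] at hT ⊢
      intro x hx
      rw [Finset.mem_eraseNone] at hx
      exact Finset.some_mem_insertNone.1 (hT hx)
    · show Finset.insertNone (Finset.eraseNone T) = T
      rw [Finset.insertNone_eraseNone, Finset.insert_eq_of_mem hn]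

theorem G_rec (a : ι → ι → ZMod 3) (k l : ι → ZMod 3) {S : Finset ι} (hS : S.Nonempty) :
    ∑ T ∈ S.powerset, (-1) ^ T.card * (G a k l T * ∏ i ∈ S \ T, (k i + ∑ j ∈ T, a i j)) = 0 := by
  have hc : 2 ≤ (Finset.insertNone S).card := by
    rw [Finset.card_insertNone]
    have := Finset.card_pos.2 hS
    omega
  have h1 := D_rec (am a k l) (gd ι) (Finset.insertNone S) hc
  rw [sum_insertNone] at h1
  · rw [← neg_eq_zero, ← h1, ← Finset.sum_neg_distrib]
    refine Finset.sum_congr rfl fun T hT => ?_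
    rw [Finset.card_insertNone, pow_succ]
    have h2 : Finset.insertNone S \ Finset.insertNone T =
        (S \ T).map Function.Embedding.some := by
      ext x
      cases x with
      | none => simp
      | some x => simp
    have h3 : ∏ i ∈ Finset.insertNone S \ Finset.insertNone T,
        ∑ j ∈ Finset.insertNone T, am a k l i j = ∏ i ∈ S \ T, (k i + ∑ j ∈ T, a i j) := by
      rw [h2, Finset.prod_map]
      refine Finset.prod_congr rfl fun i _ => ?_
      rw [Finset.sum_insertNone]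
      rfl
    rw [h3]
    unfold G
    ring
  · intro T hT
    have h2 : D (am a k l) (gd ι) T = 0 := by
      unfold D
      refine Finset.sum_eq_zero fun r hr => ?_
      cases r with
      | none => exact absurd hr hT
      | some r =>
        show (0 : ZMod 3) * _ = 0
        rw [zero_mul]
    rw [h2, zero_mul, mul_zero]

end comb

/-! ### the engine -/

variable {Γ : Type*} [LinearOrderedCommGroupWithZero Γ] {v : Valuation ℂ Γ}
  {L : PeriodPair} {Ω : ℂ} {ι : Type*} [DecidableEq ι]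
variable {π : ι → eis} {X : ι → eis → ℂ} {z : ℂ} {a : ι → ι → ZMod 3} {b kk : ι → ZMod 3}
  {k : ZMod 3}

/-- the sum for the three characters -/
noncomputable def SQ (k : ZMod 3) (L : PeriodPair) (Ω : ℂ) [Fintype (eis ⧸ (sp f3 : Ideal eis))]
    (π : ι → eis) (X : ι → eis → ℂ) (T : Finset ι) : ℂ :=
  ∑ j : Fin 3, SP L Ω f3 (ek k j) (Ek k L Ω j) π X T

section est

variable (h3 : v 3 < 1) (hC : Cur L Ω) (hk : k ≠ 0)
  (hfin : ∀ q : eis, q ≠ 0 → Finite (eis ⧸ sp q)) (h : Fy v π X z a b) (hz : Zt v z)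
  (hzl : v (1 - z) = v lam) (h3π : ∀ i, π i - 1 ∈ (sp 3 : Ideal eis))
  (hε : ∀ i, ∃ n : ℕ, (ck k (π i))⁻¹ = z ^ n ∧ (n : ZMod 3) = -kk i)
  [Fintype (eis ⧸ (sp f3 : Ideal eis))]

lemma SQ_empty (hfin : ∀ q : eis, q ≠ 0 → Finite (eis ⧸ sp q)) :
    SQ k L Ω π X ∅ = kp k L Ω := by
  unfold SQ
  rw [Finset.sum_congr rfl fun j _ => SP_empty hfin, Fin.sum_univ_three]
  unfold Ek
  rw [if_pos rfl, if_neg (by decide), if_neg (by decide)]
  ring

include hC hk hfin h h3π in
/-- the identity -/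
theorem idn (S : Finset ι) :
    Sm (cc π S) (fun x => PX π X S x *
      ∑ j : Fin 3, Ph L Ω f3 (ek k j) (Ek k L Ω j) (cc π S) x) =
      ∑ T ∈ S.powerset, (-1) ^ T.card *
        ((∏ i ∈ S \ T, ((π i : ℂ) / ck k (π i) - XT X T (π i))) * SQ k L Ω π X T) := by
  have hfπ : ∀ i, IsCoprime f3 (π i) := fun i => cop_f3.2 (h.three i)
  have hne : ∀ i, ck k (π i) ≠ 0 := fun i h0 => by
    have := ck_norm k (π i)
    rw [h0, norm_zero] at this
    exact zero_ne_one this
  have h4 : ∑ T ∈ S.powerset, (-1) ^ T.card *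
        ((∏ i ∈ S \ T, ((π i : ℂ) / ck k (π i) - XT X T (π i))) * SQ k L Ω π X T) =
        ∑ j : Fin 3, ∑ T ∈ S.powerset, (-1) ^ T.card *
          ((∏ i ∈ S \ T, ((π i : ℂ) / ck k (π i) - XT X T (π i))) *
            SP L Ω f3 (ek k j) (Ek k L Ω j) π X T) := by
    rw [Finset.sum_comm]
    refine Finset.sum_congr rfl fun T _ => ?_
    unfold SQ
    rw [Finset.mul_sum, Finset.mul_sum]
  have h5 : ∀ j : Fin 3, ∑ T ∈ S.powerset, (-1) ^ T.card *
          ((∏ i ∈ S \ T, ((π i : ℂ) / ck k (π i) - XT X T (π i))) *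
            SP L Ω f3 (ek k j) (Ek k L Ω j) π X T) =
      Sm (cc π S) (fun x => (∏ i ∈ S, (ind (π i) x - X i x)) *
        Ph L Ω f3 (ek k j) (Ek k L Ω j) (cc π S) x) := by
    intro j
    have h6 := Pool.Agent.H462.CTU.Idn.main hC.lat hfin f3_ne h.toFm hfπ (eo_k k j)
      (fun i => by rw [ek_prim k j (h3π i)]; exact hne i) (lim_k hC hk j) S
    rw [h6]
    refine Finset.sum_congr rfl fun T _ => ?_
    congr 2
    exact Finset.prod_congr rfl fun i _ => by rw [ek_prim k j (h3π i)]
  rw [h4, Finset.sum_congr rfl fun j _ => h5 j]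
  unfold Sm
  rw [Finset.sum_comm]
  refine Finset.sum_congr rfl fun x _ => ?_
  beta_reduce
  rw [Finset.mul_sum]
  rfl

include h3 hC hk hfin h hz hzl in
/-- the estimate -/
theorem est {S : Finset ι} (hS : S.Nonempty) :
    v ((Sm (cc π S) (fun x => PX π X S x *
      ∑ j : Fin 3, Ph L Ω f3 (ek k j) (Ek k L Ω j) (cc π S) x)) / kp k L Ω) < v lam ^ S.card := by
  classical
  have hκ := kp_ne h3 hC hk
  have hc := h.cc_ne S
  have hct := h.cc_top hS
  have hl1 := lam_lt h3
  have e1 : (Sm (cc π S) (fun x => PX π X S x *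
      ∑ j : Fin 3, Ph L Ω f3 (ek k j) (Ek k L Ω j) (cc π S) x)) / kp k L Ω =
      Sm (cc π S) (fun x => PX π X S x) + Sm (cc π S) (fun x => PX π X S x *
        ((∑ j : Fin 3, Ph L Ω f3 (ek k j) (Ek k L Ω j) (cc π S) x) / kp k L Ω - 1)) := by
    rw [← Sm_add]
    unfold Sm
    rw [Finset.sum_div]
    exact Finset.sum_congr rfl fun x _ => by ring
  rw [e1]
  refine v.map_add_lt ?_ ?_
  · rw [sum_PX hfin h, map_prod]
    have h4 : ∏ i ∈ S, v ((Nat.card (eis ⧸ sp (π i)) : ℂ) - 1) ≤ (v 3) ^ S.card :=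
      Finset.prod_le_pow_card _ _ _ fun i _ => h.card i
    refine h4.trans_lt ?_
    refine pow_lt_pow_left₀ ?_ zero_le (Finset.card_pos.2 hS).ne'
    rw [← sq_three]
    calc v lam * v lam < v lam * 1 := mul_lt_mul_of_pos_left hl1 lam_pos
      _ = v lam := mul_one _
  · have : Fintype (eis ⧸ sp (cc π S)) := @Fintype.ofFinite _ (hfin _ hc)
    rw [Sm_eq]
    refine v.map_sum_lt (pow_ne_zero _ lam_ne) fun q _ => ?_
    by_cases hq : IsCoprime q.out (cc π S)
    · have h6 := tot h3 hC hk hc (h.three_cc S) hct hfin hq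
      rw [map_mul]
      have h7 := PX_le hz h (S := S) q.out
      rw [hzl] at h7
      calc _ ≤ v lam ^ S.card * _ := mul_le_mul' h7 le_rfl
        _ < v lam ^ S.card * 1 := mul_lt_mul_of_pos_left h6 (pow_pos lam_pos _)
        _ = v lam ^ S.card := mul_one _
    · rw [PX_zero h hq, zero_mul, map_zero]
      exact pow_pos lam_pos _

/-- the normalized sums -/
noncomputable def sT (k : ZMod 3) (L : PeriodPair) (Ω : ℂ)
    (π : ι → eis) (X : ι → eis → ℂ) (z : ℂ) (T : Finset ι) : ℂ :=
  SQ k L Ω π X T / (kp k L Ω * (1 - z) ^ T.card)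

include h3 hC hk hfin h hz hzl h3π hε in
/-- **The sums modulo the maximal ideal.** -/
theorem sT_cg [Fintype ι] (l : ι → ZMod 3) (S : Finset ι) : Cg v (sT k L Ω π X z S) (G a kk l S) := by
  classical
  induction S using Finset.strongInduction with
  | H S ih =>
  have hκ := kp_ne h3 hC hk
  have hz1 := hz.ne
  by_cases hS : S.Nonempty
  swap
  · rw [Finset.not_nonempty_iff_eq_empty.1 hS, G_empty]
    refine Cg.one ?_
    unfold sT
    rw [SQ_empty hfin, Finset.card_empty, pow_zero, mul_one, div_self hκ, sub_self, map_zero]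
    exact zero_lt_one
  have hid := idn hC hk hfin h h3π S
  have hest := est h3 hC hk hfin h hz hzl hS
  set R : ℂ := Sm (cc π S) (fun x => PX π X S x *
      ∑ j : Fin 3, Ph L Ω f3 (ek k j) (Ek k L Ω j) (cc π S) x) with hR
  set m := S.card with hm
  set N : ℂ := kp k L Ω * (1 - z) ^ m with hN
  have hN0 : N ≠ 0 := mul_ne_zero hκ (pow_ne_zero _ hz1)
  set E : Finset ι → ℂ := fun T => (∏ i ∈ S \ T, ((π i : ℂ) / ck k (π i) - XT X T (π i))) *
    SQ k L Ω π X T / N with hE
  have hsum : ∑ T ∈ S.powerset, (-1) ^ T.card * E T = (R / kp k L Ω) / (1 - z) ^ m := by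
    have h4 : ∑ T ∈ S.powerset, (-1) ^ T.card * E T = (∑ T ∈ S.powerset, (-1) ^ T.card *
        ((∏ i ∈ S \ T, ((π i : ℂ) / ck k (π i) - XT X T (π i))) * SQ k L Ω π X T)) / N := by
      rw [Finset.sum_div]
      exact Finset.sum_congr rfl fun T _ => by rw [hE]; ring
    rw [h4, ← hid, hN, div_div]
  have hsmall : v (∑ T ∈ S.powerset, (-1) ^ T.card * E T) < 1 := by
    rw [hsum, map_div₀, map_pow, hzl, div_lt_one₀ (pow_pos lam_pos _)]
    exact hest
  have hES : E S = sT k L Ω π X z S := by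
    rw [hE]
    show (∏ i ∈ S \ S, _) * _ / N = _
    unfold sT
    rw [Finset.sdiff_self, Finset.prod_empty, one_mul]
  have hlz : v (3 : ℂ) < v (1 - z) := hz.three
  have hET : ∀ T ∈ S.powerset.erase S, Cg v (E T)
      (G a kk l T * ∏ i ∈ S \ T, (kk i + ∑ j ∈ T, a i j)) := by
    intro T hT
    rw [Finset.mem_erase, Finset.mem_powerset] at hT
    have hssub : T ⊂ S := Finset.ssubset_iff_subset_ne.2 ⟨hT.2, hT.1⟩
    have h4 := ih T hssub
    have h5 : (S \ T).card + T.card = m := by
      rw [Finset.card_sdiff_of_subset hT.2, hm]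
      have := Finset.card_le_card hT.2
      omega
    have h6 : E T = sT k L Ω π X z T *
        ∏ i ∈ S \ T, (((π i : ℂ) / ck k (π i) - XT X T (π i)) / (1 - z)) := by
      rw [hE]
      show (∏ i ∈ S \ T, _) * _ / N = _
      unfold sT
      rw [Finset.prod_div_distrib, Finset.prod_const, hN, ← h5, pow_add]
      field_simp
    rw [h6]
    refine h4.mul h3 (Cg.prod h3 _ fun i hi => ?_)
    rw [Finset.mem_sdiff] at hi
    have h7 : ∀ j ∈ T, ∃ n : ℕ, X j (π i) = z ^ n ∧ (n : ZMod 3) = a i j := fun j hj =>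
      h.cub i j fun hij => hi.2 (hij ▸ hj)
    choose! n hn1 hn2 using h7
    obtain ⟨p, hp1, hp2⟩ := hε i
    have h8 : XT X T (π i) = z ^ (∑ j ∈ T, n j) := by
      unfold XT
      rw [← Finset.prod_pow_eq_pow_sum]
      exact Finset.prod_congr rfl fun j hj => hn1 j hj
    have h9 : ((π i : ℂ) / ck k (π i) - XT X T (π i)) / (1 - z) =
        ((π i : ℂ) - 1) * z ^ p / (1 - z) + (-((1 - z ^ p) / (1 - z)) +
          (1 - z ^ (∑ j ∈ T, n j)) / (1 - z)) := by
      rw [h8, div_eq_mul_inv (π i : ℂ), hp1]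
      field_simp
      ring
    rw [h9]
    have h10 : kk i + (∑ j ∈ T, a i j) =
        0 + (-(p : ZMod 3) + ((∑ j ∈ T, n j : ℕ) : ZMod 3)) := by
      rw [zero_add, hp2, neg_neg]
      congr 1
      push_cast
      exact Finset.sum_congr rfl fun j hj => (hn2 j hj).symm
    rw [h10]
    refine (Cg.zero ?_).add h3 (((Zt.quot h3 hz _).neg h3).add h3 (Zt.quot h3 hz _))
    rw [map_div₀, map_mul, map_pow, hz.one, one_pow, mul_one]
    have h12 : 0 < v (1 - z) := zero_lt_iff.2 (by rwa [Ne, map_eq_zero])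
    rw [div_lt_one₀ h12]
    exact (h.lin i).trans_lt hlz
  -- conclusion
  have hSmem : S ∈ S.powerset := Finset.mem_powerset_self S
  have hsplit := Finset.add_sum_erase S.powerset (fun T => (-1) ^ T.card * E T) hSmem
  have hrest : Cg v (∑ T ∈ S.powerset.erase S, (-1) ^ T.card * E T)
      (-((-1) ^ S.card * G a kk l S)) := by
    have h4 : -((-1) ^ S.card * G a kk l S) = ∑ T ∈ S.powerset.erase S, (-1) ^ T.card *
        (G a kk l T * ∏ i ∈ S \ T, (kk i + ∑ j ∈ T, a i j)) := by
      have h6 := G_rec a kk l hS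
      rw [← Finset.add_sum_erase _ _ hSmem, Finset.sdiff_self, Finset.prod_empty, mul_one] at h6
      linear_combination -h6
    rw [h4]
    exact Cg.sum h3 _ fun T hT => Cg.sign h3 (hET T hT) _
  have hES2 : Cg v ((-1) ^ S.card * E S) ((-1) ^ S.card * G a kk l S) := by
    have h4 : (-1) ^ S.card * E S = (∑ T ∈ S.powerset, (-1) ^ T.card * E T) -
        ∑ T ∈ S.powerset.erase S, (-1) ^ T.card * E T := by
      rw [← hsplit]
      ring
    rw [h4]
    have h5 := hrest.neg h3
    rw [neg_neg] at h5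
    refine Cg.of_sub (t := -(∑ T ∈ S.powerset.erase S, (-1) ^ T.card * E T)) ?_ h5
    rw [sub_neg_eq_add, sub_add_cancel]
    exact hsmall
  have h4 := hES2.sign h3 S.card
  rw [← mul_assoc, ← mul_pow, neg_one_mul, neg_neg, one_pow, one_mul, hES, ← mul_assoc,
    ← mul_pow, neg_one_mul, neg_neg, one_pow, one_mul] at h4
  exact h4

end est

end Pool.Agent.H462.CTU.Eng
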