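import Pool.Agent.H462.CTU.Crit0
import Pool.Agent.H462.CTU.Law.Equ

/-!
# The elements `D`, the primes and the number of the solutions
-/

set_option autoImplicit false
set_option linter.unusedSectionVars false
set_option linter.unusedVariables false

open scoped Classical

namespace Pool.Agent.H462.CTU.Fam

open Pool.Agent.Y692.QS (Ei w toC nr ns ns_one ns_fix nr_mul isUnit_iff)
open Pool.Agent.Y703.CT
open Pool.Agent.Y715.T.Rec (cs)
open Pool.Agent.Y715.T.RecG (Pq)
open Pool.Agent.Y699.E (nrm PD mem_PD PS PS_prod prm SB mem_SB)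
open Pool.Agent.XL6 (KerV)
open Pool.Agent.Y703.XL (nS)
open Pool.Agent.H462.CTU.Chr (nq)
open Pool.Agent.H462.CTU.LK (Dk)
open Pool.Agent.H462.CTU.Sel (KW KerC)
open Pool.Agent.H462.CTU.Law (nW SS)

section
variable {J : Type} [Fintype J] {π : J → Ei} {k : ZMod 3} {D : Ei}

/-- the solutions of the grounded system -/
def GW (k : ZMod 3) (π : J → Ei) : Set (J → ZMod 3) :=
  {v | ∀ j, ∑ i, cs (π j) (π i) * (v i - v j) = k * nq (π j) * v j}

lemma KW_ncard : (KW k π (fun _ => 1)).ncard = 3 * (GW k π).ncard := by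
  rw [← Nat.card_coe_set_eq, ← Nat.card_coe_set_eq]
  have h : Nat.card (ZMod 3 × GW k π) = 3 * Nat.card (GW k π) := by
    rw [Nat.card_prod, Nat.card_zmod]
  rw [← h]
  refine Nat.card_congr
    { toFun := fun v => (v.1 none, ⟨fun j => v.1 (some j) - v.1 none, fun j => ?_⟩)
      invFun := fun p => ⟨fun o => Option.elim o p.1 (fun j => p.2.1 j + p.1), fun j => ?_⟩
      left_inv := fun v => ?_
      right_inv := fun p => ?_ }
  · have h1 := v.2 j
    show ∑ i, cs (π j) (π i) * ((v.1 (some i) - v.1 none) - (v.1 (some j) - v.1 none)) =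
      k * nq (π j) * (v.1 (some j) - v.1 none)
    have e : ∀ i, cs (π j) (π i) * ((v.1 (some i) - v.1 none) - (v.1 (some j) - v.1 none)) =
        1 * cs (π j) (π i) * (v.1 (some i) - v.1 (some j)) := fun i => by ring
    simp only [e]
    linear_combination h1
  · have h1 := p.2.2 j
    show k * nq (π j) * (p.1 - (p.2.1 j + p.1)) +
      ∑ i, 1 * cs (π j) (π i) * ((p.2.1 i + p.1) - (p.2.1 j + p.1)) = 0
    have e : ∀ i, 1 * cs (π j) (π i) * ((p.2.1 i + p.1) - (p.2.1 j + p.1)) =
        cs (π j) (π i) * (p.2.1 i - p.2.1 j) := fun i => by ring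
    simp only [e]
    linear_combination h1
  · apply Subtype.ext
    funext o
    cases o with
    | none => rfl
    | some j => exact sub_add_cancel _ _
  · refine Prod.ext rfl (Subtype.ext ?_)
    funext j
    exact add_sub_cancel_right _ _

lemma GW_zero : GW 0 π = KerV π (fun _ => 1) := by
  ext v
  refine forall_congr' fun j => ?_
  rw [zero_mul, zero_mul]
  simp only [one_mul]

lemma pD_one' : pD π (fun _ => 1) = ∏ i, π i := by
  have h1 : ((1 : ZMod 3)).val = 1 := rfl
  unfold pD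
  simp only [h1, pow_one]

lemma inj_of (hdt : Dt π (fun _ => 1)) : Function.Injective π := by
  intro i k h
  by_contra hik
  exact hdt.nd i k hik (by rw [h])

lemma pD_image (hdt : Dt π (fun _ => 1)) :
    pD π (fun _ => 1) = ∏ ρ ∈ Finset.univ.image π, ρ := by
  rw [pD_one', Finset.prod_image fun a _ b _ h => inj_of hdt h]

lemma PD_pD (hdt : Dt π (fun _ => 1)) : PS (pD π (fun _ => 1)) ∧
    PD (pD π (fun _ => 1)) = Finset.univ.image π := by
  rw [pD_image hdt]
  refine PS_prod fun ρ hρ => ?_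
  obtain ⟨i, -, rfl⟩ := Finset.mem_image.1 hρ
  exact hdt.pq i

/-- the number of the solutions for the set of the primary primes -/
lemma nW_eq (hdt : Dt π (fun _ => 1)) :
    nW k (PD (pD π (fun _ => 1))) = (KW k π (fun _ => 1)).ncard := by
  have hinj := inj_of hdt
  rw [(PD_pD hdt).2, ← Nat.card_coe_set_eq]
  unfold nW
  let e : J ≃ (Finset.univ.image π : Finset Ei) :=
    Equiv.ofBijective (fun i => ⟨π i, Finset.mem_image_of_mem _ (Finset.mem_univ i)⟩)
      ⟨fun i k h => hinj (congrArg Subtype.val h), fun x => by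
        obtain ⟨i, -, hi⟩ := Finset.mem_image.1 x.2
        exact ⟨i, Subtype.ext hi⟩⟩
  have he : ∀ i, ((e i : (Finset.univ.image π : Finset Ei)) : Ei) = π i := fun i => rfl
  refine Nat.card_congr ((Equiv.arrowCongr (Equiv.optionCongr e).symm
    (Equiv.refl (ZMod 3))).subtypeEquiv fun v => ?_)
  show (∀ x : (Finset.univ.image π : Finset Ei), _) ↔
    ∀ j, k * nq (π j) * (v none - v (some (e j))) +
      ∑ i, (1 : ZMod 3) * cs (π j) (π i) * (v (some (e i)) - v (some (e j))) = 0
  constructor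
  · intro h j
    have h1 := h (e j)
    rw [← Equiv.sum_comp e] at h1
    rw [← h1]
    congr 1
    refine Finset.sum_congr rfl fun i _ => ?_
    rw [one_mul]
    rfl
  · intro h x
    obtain ⟨j, rfl⟩ := e.surjective x
    rw [← Equiv.sum_comp e, ← h j]
    congr 1
    refine Finset.sum_congr rfl fun i _ => ?_
    rw [one_mul]
    rfl

end

/-- without the additional node -/
lemma nW_zero (S : Finset Ei) : nW 0 S = 3 * nS S := by
  unfold nW nS
  have h : Nat.card (ZMod 3 × {v : S → ZMod 3 // ∀ π : S, ∑ ρ : S, cs π ρ * (v ρ - v π) = 0}) =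
      3 * Nat.card {v : S → ZMod 3 // ∀ π : S, ∑ ρ : S, cs π ρ * (v ρ - v π) = 0} := by
    rw [Nat.card_prod, Nat.card_zmod]
  rw [← h]
  refine Nat.card_congr
    { toFun := fun v => (v.1 none, ⟨fun j => v.1 (some j), fun j => ?_⟩)
      invFun := fun p => ⟨fun o => Option.elim o p.1 (fun j => p.2.1 j), fun j => ?_⟩
      left_inv := fun v => ?_
      right_inv := fun p => ?_ }
  · have h1 := v.2 j
    rwa [zero_mul, zero_mul, zero_add] at h1
  · show 0 * nq (j : Ei) * (p.1 - p.2.1 j) + ∑ ρ : S, cs j ρ * (p.2.1 ρ - p.2.1 j) = 0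
    rw [zero_mul, zero_mul, zero_add]
    exact p.2.2 j
  · apply Subtype.ext
    funext o
    cases o with
    | none => rfl
    | some j => rfl
  · rfl

/-- the linear map of the system -/
noncomputable def LW (k : ZMod 3) (S : Finset Ei) :
    (Option S → ZMod 3) →ₗ[ZMod 3] (S → ZMod 3) where
  toFun v := fun π => k * nq (π : Ei) * (v none - v (some π)) +
    ∑ ρ : S, cs π ρ * (v (some ρ) - v (some π))
  map_add' v v' := by
    funext π
    simp only [Pi.add_apply]
    have h : ∑ ρ : S, cs (π : Ei) ρ * (v (some ρ) + v' (some ρ) - (v (some π) + v' (some π))) =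
        ∑ ρ : S, cs (π : Ei) ρ * (v (some ρ) - v (some π)) +
          ∑ ρ : S, cs (π : Ei) ρ * (v' (some ρ) - v' (some π)) := by
      rw [← Finset.sum_add_distrib]
      exact Finset.sum_congr rfl fun ρ _ => by ring
    rw [h]
    ring
  map_smul' a v := by
    funext π
    simp only [Pi.smul_apply, smul_eq_mul, RingHom.id_apply]
    have h : ∑ ρ : S, cs (π : Ei) ρ * (a * v (some ρ) - a * v (some π)) =
        a * ∑ ρ : S, cs (π : Ei) ρ * (v (some ρ) - v (some π)) := by
      rw [Finset.mul_sum]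
      exact Finset.sum_congr rfl fun ρ _ => by ring
    rw [h]
    ring

lemma nW_pow (k : ZMod 3) (S : Finset Ei) :
    nW k S = 3 ^ Module.finrank (ZMod 3) (LinearMap.ker (LW k S)) := by
  have h : nW k S = Nat.card (LinearMap.ker (LW k S)) := by
    unfold nW
    refine Nat.card_congr (Equiv.subtypeEquivRight fun v => ?_)
    rw [LinearMap.mem_ker]
    exact ⟨fun h => funext h, fun h π => congrFun h π⟩
  rw [h, Module.natCard_eq_pow_finrank (K := ZMod 3), Nat.card_zmod]

/-- the number of the solutions is a power of three, at least three -/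
lemma nW_succ (k : ZMod 3) (S : Finset Ei) : ∃ r : ℕ, nW k S = 3 ^ (r + 1) := by
  rw [nW_pow]
  obtain ⟨m, hm⟩ : ∃ m, m = Module.finrank (ZMod 3) (LinearMap.ker (LW k S)) := ⟨_, rfl⟩
  rw [← hm]
  cases m with
  | succ r => exact ⟨r, rfl⟩
  | zero =>
    exfalso
    have h1 : Subsingleton (LinearMap.ker (LW k S)) := Module.finrank_zero_iff.1 hm.symm
    have h2 : (fun _ => 1 : Option S → ZMod 3) ∈ LinearMap.ker (LW k S) := by
      rw [LinearMap.mem_ker]
      funext ρ
      show k * nq (ρ : Ei) * ((1 : ZMod 3) - 1) + ∑ ρ' : S, cs ρ ρ' * ((1 : ZMod 3) - 1) = 0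
      simp
    have h3 := congrArg Subtype.val (Subsingleton.elim
      (⟨_, h2⟩ : LinearMap.ker (LW k S)) 0)
    have h4 := congrFun h3 none
    exact one_ne_zero h4

/-- the corank -/
def Cr (k : ZMod 3) (r : ℕ) (S : Finset Ei) : Prop :=
  nW k S = if k = 0 then 3 ^ (r + 2) else 3 ^ (r + 1)

lemma Cr_zero {r : ℕ} {S : Finset Ei} : Cr 0 r S ↔ nS S = 3 ^ (r + 1) := by
  unfold Cr
  rw [if_pos rfl, nW_zero, pow_succ 3 (r + 1)]
  constructor
  · intro h
    omega
  · intro h
    omega

lemma Cr_ne {k : ZMod 3} (hk : k ≠ 0) {r : ℕ} {S : Finset Ei} :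
    Cr k r S ↔ Pool.Agent.H462.CTU.Law.Gr k r S := by
  unfold Cr Pool.Agent.H462.CTU.Law.Gr
  rw [if_neg hk]

lemma Cr_unique {k : ZMod 3} {r s : ℕ} {S : Finset Ei} (h : Cr k r S) (h' : Cr k s S) :
    r = s := by
  unfold Cr at h h'
  rw [h] at h'
  by_cases hk : k = 0
  · rw [if_pos hk, if_pos hk] at h'
    have := Nat.pow_right_injective (le_refl 2 |>.trans (by norm_num)) h'
    omega
  · rw [if_neg hk, if_neg hk] at h'
    have := Nat.pow_right_injective (le_refl 2 |>.trans (by norm_num)) h'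
    omega

lemma Cr_exists {k : ZMod 3} {S : Finset Ei} (hS : k ≠ 0 ∨ S.Nonempty) : ∃ r, Cr k r S := by
  by_cases hk : k = 0
  · subst hk
    rcases hS with h | h
    · exact absurd rfl h
    · obtain ⟨r, hr⟩ := Pool.Agent.Y703.XL.nS_succ h
      exact ⟨r, Cr_zero.2 hr⟩
  · obtain ⟨r, hr⟩ := nW_succ k S
    exact ⟨r, (Cr_ne hk).2 hr⟩

lemma Cr_GW {J : Type} [Fintype J] {π : J → Ei} {k : ZMod 3} (hdt : Dt π (fun _ => 1)) {r : ℕ} :
    Cr k r (PD (pD π (fun _ => 1))) ↔
      (GW k π).ncard = if k = 0 then 3 ^ (r + 1) else 3 ^ r := by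
  unfold Cr
  rw [nW_eq hdt, KW_ncard]
  by_cases hk : k = 0
  · rw [if_pos hk, if_pos hk, pow_succ 3 (r + 1)]
    omega
  · rw [if_neg hk, if_neg hk, pow_succ 3 r]
    omega

end Pool.Agent.H462.CTU.Fam
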