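import Pool.Graph.R_seed8.Y715.Idn

/-!
# The identity for the sums over subsets of the primes, characters that are not trivial on the primes

Generalization of `Pool.Agent.Y715.Dist.dist_Ph`, `Pool.Agent.Y715.Idn.main` (there `e (π i) = 1`).
-/

set_option autoImplicit false

open Filter
open scoped Topology PeriodPair

namespace Pool.Agent.H462.CTU.Idn

open H667R3 Pool.Agent.W192.HK Pool.Agent.TH936.CM Pool.Agent.TH936.PU
open Pool.Agent.Y715.Dist Pool.Agent.Y715.Idn

variable {L : PeriodPair} {R : Subring ℂ} {Ω : ℂ} {ι : Type*} [DecidableEq ι]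
variable {f : R} [Fintype (R ⧸ sp f)] {e : R → ℂ} {Ef : ℂ}

/-- **The distribution relation.** -/
theorem dist_Ph (hL : IsLat L R Ω) (hfin : ∀ q : R, q ≠ 0 → Finite (R ⧸ sp q)) (hf : f ≠ 0)
    {a c : R} (hc : c ≠ 0) (ha : a ≠ 0) (hfc : IsCoprime f c) (hfa : IsCoprime f a)
    (he : Eo f e) (hea : e a ≠ 0)
    (h0 : Tendsto (fun δ : ℝ => ∑ y : R ⧸ sp f, e y.out *
      EE R Ω δ (Ω * y.out / f)) (𝓝[>] 0) (𝓝 Ef)) (x : R) :
    Sm a (fun t => Ph L Ω f e Ef (a * c) (x + c * t)) = (a / e a) * Ph L Ω f e Ef c x := by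
  have : Fintype (R ⧸ sp a) := @Fintype.ofFinite _ (hfin a ha)
  have hf0 := coe_ne hf
  have ha0 := coe_ne ha
  have hc0 := coe_ne hc
  have hac : a * c ≠ 0 := mul_ne_zero ha hc
  have hfac : IsCoprime f (a * c) := hfa.mul_right hfc
  rw [Sm_eq]
  have l1 : Tendsto (fun δ : ℝ => ∑ q : R ⧸ sp a, ∑ y : R ⧸ sp f, e y.out *
      EE R Ω δ (Ω * y.out / f + Ω * ((x + c * q.out : R) : ℂ) / ((a * c : R) : ℂ))) (𝓝[>] 0)
      (𝓝 (∑ q : R ⧸ sp a, Ph L Ω f e Ef (a * c) (x + c * q.out))) :=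
    tendsto_finsetSum _ fun q _ => lim_Ph hL hf hac hfac he h0 _
  have l2 : Tendsto (fun δ : ℝ => (a / e a) * ∑ y : R ⧸ sp f, e y.out *
      EE R Ω (δ / Complex.normSq a) (Ω * y.out / f + Ω * x / c)) (𝓝[>] 0)
      (𝓝 ((a / e a) * Ph L Ω f e Ef c x)) :=
    ((lim_Ph hL hf hc hfc he h0 x).comp (tendsto_scale ha)).const_mul _
  refine tendsto_nhds_unique l1 (l2.congr' ?_)
  filter_upwards [self_mem_nhdsWithin] with δ (hδ : 0 < δ)
  rw [Finset.sum_comm]
  have key : ∀ y : R ⧸ sp f, ∑ q : R ⧸ sp a, e y.out *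
      EE R Ω δ (Ω * y.out / f + Ω * ((x + c * q.out : R) : ℂ) / ((a * c : R) : ℂ)) =
      (fun r : R => (a / e a) * (e r * EE R Ω (δ / Complex.normSq a) (Ω * r / f + Ω * x / c)))
        (a * y.out) := by
    intro y
    rw [← Finset.mul_sum]
    have h1 := EE_distA hL hδ a ha (Ω * y.out / f + Ω * x / (a * c))
    have h2 : ∀ q : R ⧸ sp a, EE R Ω δ (Ω * y.out / f +
        Ω * ((x + c * q.out : R) : ℂ) / ((a * c : R) : ℂ)) =
        EE R Ω δ (Ω * y.out / f + Ω * x / (a * c) + Ω * q.out / a) := by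
      intro q
      congr 1
      push_cast
      field_simp
      ring
    rw [Finset.sum_congr rfl fun q _ => h2 q, h1]
    have h3 : (a : ℂ) * (Ω * y.out / f + Ω * x / (a * c)) =
        Ω * ((a * y.out : R) : ℂ) / f + Ω * x / c := by
      push_cast
      field_simp
    rw [h3]
    show _ = (a / e a) * (e (a * y.out) * _)
    rw [he.mul]
    field_simp
  rw [Finset.sum_congr rfl fun y _ => key y]
  have h9 := sum_mul_bij hfa
    (F := fun r : R => (a / e a) * (e r * EE R Ω (δ / Complex.normSq a) (Ω * r / f + Ω * x / c))) ?_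
  · rw [h9, ← Finset.mul_sum]
  intro y z hyz
  show (a / e a) * (e y * _) = (a / e a) * (e z * _)
  rw [he.per y z hyz]
  congr 2
  apply EE_per hL
  have := (div_mem_iff hL hf (y - z)).2 hyz
  convert this using 1
  push_cast
  ring

open Classical in
/-- one more prime -/
theorem sum_Ph (hL : IsLat L R Ω) (hfin : ∀ q : R, q ≠ 0 → Finite (R ⧸ sp q)) (hf : f ≠ 0)
    {a c : R} (hc : c ≠ 0) (ha : a ≠ 0) (hfc : IsCoprime f c) (hfa : IsCoprime f a)
    (he : Eo f e) (hea : e a ≠ 0)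
    (h0 : Tendsto (fun δ : ℝ => ∑ y : R ⧸ sp f, e y.out *
      EE R Ω δ (Ω * y.out / f)) (𝓝[>] 0) (𝓝 Ef)) {χ : R → ℂ} {ρ : ℂ}
    (hχ : ∀ x y : R, x - y ∈ sp c → χ x = χ y) (hχa : ∀ x : R, χ (a * x) = ρ * χ x) :
    Sm (a * c) (fun x => (if x ∈ sp a then 0 else χ x) * Ph L Ω f e Ef (a * c) x) =
      (a / e a - ρ) * Sm c (fun x => χ x * Ph L Ω f e Ef c x) := by
  have hac : a * c ≠ 0 := mul_ne_zero ha hc
  have hper : ∀ x y : R, x - y ∈ sp (a * c) → χ x * Ph L Ω f e Ef (a * c) x =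
      χ y * Ph L Ω f e Ef (a * c) y := by
    intro x y h
    rw [Ph_per hL hac h, hχ x y]
    rw [Ideal.mem_span_singleton'] at h ⊢
    obtain ⟨b, hb⟩ := h
    exact ⟨b * a, by linear_combination hb⟩
  have h1 := Sm_mul hc hfin ha hper
  have h2 := Sm_div hc hfin ha hper
  have h3 : Sm (a * c) (fun x => χ x * Ph L Ω f e Ef (a * c) x) =
      Sm (a * c) (fun x => (if x ∈ sp a then 0 else χ x) * Ph L Ω f e Ef (a * c) x) +
      Sm (a * c) (fun x => if x ∈ sp a then χ x * Ph L Ω f e Ef (a * c) x else 0) := by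
    rw [← Sm_add]
    refine Finset.sum_congr rfl fun x _ => ?_
    by_cases hx : x ∈ sp a
    · simp [hx]
    · simp [hx]
  have h4 : Sm c (fun x => Sm a (fun t => χ (x + c * t) * Ph L Ω f e Ef (a * c) (x + c * t))) =
      (a / e a) * Sm c (fun x => χ x * Ph L Ω f e Ef c x) := by
    rw [← Sm_mul_left]
    refine Finset.sum_congr rfl fun x _ => ?_
    have h5 : ∀ t : R, χ (x + c * t) = χ x := by
      intro t
      refine hχ _ _ ?_
      rw [add_sub_cancel_left, Ideal.mem_span_singleton']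
      exact ⟨t, mul_comm _ _⟩
    simp only [h5]
    rw [Sm_mul_left, dist_Ph hL hfin hf hc ha hfc hfa he hea h0]
    ring
  have h6 : Sm c (fun x => χ (a * x) * Ph L Ω f e Ef (a * c) (a * x)) =
      ρ * Sm c (fun x => χ x * Ph L Ω f e Ef c x) := by
    rw [← Sm_mul_left]
    refine Finset.sum_congr rfl fun x _ => ?_
    have h7 : Ph L Ω f e Ef (a * c) (a * x) = Ph L Ω f e Ef c x := by
      have h8 : a * x ∈ sp (a * c) ↔ x ∈ sp c := by
        rw [Ideal.mem_span_singleton', Ideal.mem_span_singleton']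
        constructor
        · rintro ⟨b, hb⟩
          refine ⟨b, ?_⟩
          apply mul_left_cancel₀ ha
          linear_combination hb
        · rintro ⟨b, hb⟩
          exact ⟨b, by linear_combination a * hb⟩
      by_cases hx : x ∈ sp c
      · rw [Ph_of_mem hx, Ph_of_mem (h8.2 hx)]
      · rw [Ph_of_notMem hx, Ph_of_notMem (fun h => hx (h8.1 h))]
        have ha0 := coe_ne ha
        have hc0 := coe_ne hc
        congr 2
        push_cast
        field_simp
    show χ (a * x) * Ph L Ω f e Ef (a * c) (a * x) = ρ * (χ x * Ph L Ω f e Ef c x)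
    rw [h7, hχa]
    ring
  rw [h1, h4] at h3
  rw [h2, h6] at h3
  linear_combination -h3

variable {π : ι → R} {X : ι → R → ℂ}

theorem sum_YY (hL : IsLat L R Ω) (hfin : ∀ q : R, q ≠ 0 → Finite (R ⧸ sp q)) (hf : f ≠ 0)
    (h : Fm π X) (hfπ : ∀ i, IsCoprime f (π i)) (he : Eo f e) (heπ : ∀ i, e (π i) ≠ 0)
    (h0 : Tendsto (fun δ : ℝ => ∑ y : R ⧸ sp f, e y.out *
      EE R Ω δ (Ω * y.out / f)) (𝓝[>] 0) (𝓝 Ef)) (T U : Finset ι) (hTU : Disjoint T U) :
    Sm (cc π (T ∪ U)) (fun x => YY π X T U x * Ph L Ω f e Ef (cc π (T ∪ U)) x) =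
      (∏ i ∈ U, ((π i : ℂ) / e (π i) - XT X T (π i))) * SP L Ω f e Ef π X T := by
  classical
  induction U using Finset.induction_on with
  | empty =>
    rw [Finset.union_empty, Finset.prod_empty, one_mul]
    unfold SP YY
    simp only [Finset.prod_empty, mul_one]
  | insert j U hj ih =>
    have hjT : j ∉ T := fun h1 => Finset.disjoint_left.1 hTU h1 (Finset.mem_insert_self j U)
    have hTU' : Disjoint T U := Finset.disjoint_of_subset_right (Finset.subset_insert _ _) hTU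
    have hjTU : j ∉ T ∪ U := by
      rw [Finset.mem_union]
      tauto
    rw [Finset.union_insert, cc_insert hjTU, Finset.prod_insert hj, mul_assoc, ← ih hTU']
    have h1 := sum_Ph hL hfin hf (h.cc_ne (T ∪ U)) (h.ne j) (Fm.cop_f hfπ (T ∪ U)) (hfπ j) he
      (heπ j) h0 (χ := YY π X T U) (ρ := XT X T (π j)) ?_ ?_
    · rw [← h1]
      refine Finset.sum_congr rfl fun x _ => ?_
      beta_reduce
      congr 1
      unfold YY
      rw [Finset.prod_insert hj]
      by_cases hx : x ∈ sp (π j)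
      · rw [ind_mem hx, if_pos hx]
        ring
      · rw [ind_notMem hx, if_neg hx]
        ring
    · intro x y hxy
      unfold YY
      rw [XT_per h Finset.subset_union_left hxy]
      congr 1
      exact Finset.prod_congr rfl fun i hi =>
        ind_per (cc_mem (Finset.mem_union_right T hi) hxy)
    · intro x
      unfold YY
      rw [XT_mul h]
      have h2 : ∏ i ∈ U, ind (π i) (π j * x) = ∏ i ∈ U, ind (π i) x :=
        Finset.prod_congr rfl fun i hi => ind_mul (h.cop j i fun e => hj (e ▸ hi)) x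
      rw [h2]
      ring

/-- **The identity.** -/
theorem main (hL : IsLat L R Ω) (hfin : ∀ q : R, q ≠ 0 → Finite (R ⧸ sp q)) (hf : f ≠ 0)
    (h : Fm π X) (hfπ : ∀ i, IsCoprime f (π i)) (he : Eo f e) (heπ : ∀ i, e (π i) ≠ 0)
    (h0 : Tendsto (fun δ : ℝ => ∑ y : R ⧸ sp f, e y.out *
      EE R Ω δ (Ω * y.out / f)) (𝓝[>] 0) (𝓝 Ef)) (S : Finset ι) :
    Sm (cc π S) (fun x => (∏ i ∈ S, (ind (π i) x - X i x)) * Ph L Ω f e Ef (cc π S) x) =
      ∑ T ∈ S.powerset, (-1) ^ T.card * ((∏ i ∈ S \ T, ((π i : ℂ) / e (π i) - XT X T (π i))) *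
        SP L Ω f e Ef π X T) := by
  classical
  have h1 : ∀ x : R, ∏ i ∈ S, (ind (π i) x - X i x) =
      ∑ T ∈ S.powerset, (-1) ^ T.card * YY π X T (S \ T) x := by
    intro x
    have h2 : ∀ i ∈ S, ind (π i) x - X i x = -X i x + ind (π i) x := fun i _ => by ring
    rw [Finset.prod_congr rfl h2, Finset.prod_add]
    refine Finset.sum_congr rfl fun T _ => ?_
    unfold YY XT
    rw [Finset.prod_neg]
    ring
  have h3 : Sm (cc π S) (fun x => (∏ i ∈ S, (ind (π i) x - X i x)) *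
      Ph L Ω f e Ef (cc π S) x) =
      ∑ T ∈ S.powerset, (-1) ^ T.card *
        Sm (cc π S) (fun x => YY π X T (S \ T) x * Ph L Ω f e Ef (cc π S) x) := by
    unfold Sm
    simp only [h1, Finset.sum_mul, Finset.mul_sum]
    rw [Finset.sum_comm]
    refine Finset.sum_congr rfl fun T _ => Finset.sum_congr rfl fun x _ => by ring
  rw [h3]
  refine Finset.sum_congr rfl fun T hT => ?_
  rw [Finset.mem_powerset] at hT
  have h4 := sum_YY hL hfin hf h hfπ he heπ h0 T (S \ T) Finset.disjoint_sdiff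
  rw [Finset.union_sdiff_of_subset hT] at h4
  rw [h4]

end Pool.Agent.H462.CTU.Idn
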