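import Pool.Agent.H462.CTU.Main
import Pool.Graph.R_seed8.Y696.CTK.LK

/-!
# The `L`-function of `y² + D y = x³` over `ℚ(ω)`, `D = ± ω^k ∏ π_i^{e_i}`
-/

set_option autoImplicit false
set_option linter.unusedVariables false
set_option linter.unusedSectionVars false

namespace Pool.Agent.H462.CTU.LK

open NumberField IsDedekindDomain WeierstrassCurve
open Pool.Agent.W189.NF (aV eV redMap Ov mem_max_iff finite_res card_res redMap_eq_zero aLoc eLoc)
open Pool.Agent.H921R2.TatePole (nm two_le_nm)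
open Pool.Agent.Y715.T.Rs (eq0 eq0_coe card_quo)
open Pool.Agent.Y703.CT
open Pool.Agent.Y696 (HBd LSeries_hasProd')
open Pool.Agent.Y696.CT Pool.Agent.Y696.CTK
open Pool.Agent.Y692.QS hiding chi
open Pool.Agent.Y715.T.Rec (cs nn)
open Pool.Agent.Y715.T.RecG (Pq cs_spec)
open Pool.Agent.H462.CTU.Chr (nq nq_mul nq_of)
open Pool.Agent.H462.CTU.Val (IsHLk)
open scoped Classical

/-! ### the supplementary law -/

lemma nr_mod {x : Ei} (h : ¬ (3 : ℤ) ∣ nr x) : (3 : ℤ) ∣ nr x - 1 := by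
  obtain ⟨a, b⟩ := x
  have h0 : nr (⟨a, b⟩ : Ei) = a ^ 2 - a * b + b ^ 2 := rfl
  rw [h0] at h ⊢
  have h1 : ∀ u v : ZMod 3, u ^ 2 - u * v + v ^ 2 = 0 ∨ u ^ 2 - u * v + v ^ 2 - 1 = 0 := by decide
  rcases h1 (a : ZMod 3) (b : ZMod 3) with h2 | h2
  · exfalso
    apply h
    refine (ZMod.intCast_zmod_eq_zero_iff_dvd _ 3).1 ?_
    push_cast
    exact h2
  · refine (ZMod.intCast_zmod_eq_zero_iff_dvd _ 3).1 ?_
    push_cast
    exact h2

lemma pq_nr {ρ : Ei} (h : Pq ρ) : (3 : ℤ) ∣ nr ρ - 1 := by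
  obtain ⟨x, y, h1, -⟩ := ex_q h.three
  rw [h1, nr_form]
  exact ⟨2 * x - y + 3 * nr (⟨x, y⟩ : Ei), by ring⟩

lemma nn_nq {ρ : Ei} (h : Pq ρ) : ((nn ρ : ℕ) : ZMod 3) = nq ρ := by
  obtain ⟨a, ha⟩ := pq_nr h
  have ha' : nr ρ = 1 + 3 * a := by linarith
  rw [nq_of ha']
  unfold nn
  have h0 : 0 ≤ nr ρ := nr_nonneg ρ
  have h1 : ((((nr ρ).natAbs - 1) / 3 : ℕ) : ℤ) = a := by omega
  rw [← h1]
  push_cast
  rfl

lemma not_dvd_w {ρ : Ei} (h : Prime ρ) : ¬ ρ ∣ (w : Ei) := fun h1 =>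
  h.not_isUnit (isUnit_of_dvd_unit h1 ⟨⟨w, w ^ 2, by decide, by decide⟩, rfl⟩)

/-- the supplementary law for `ω` -/
lemma cs_ww {ρ : Ei} (h : Pq ρ) : cs ρ w = nq ρ := by
  apply Pool.Agent.Y715.T.RecG.cs_of h.prime h.norm
  have h1 : (w : Ei) ^ nn ρ = w ^ ((nn ρ : ℕ) : ZMod 3).val := by
    rw [ZMod.val_natCast]
    conv_lhs => rw [← Nat.mod_add_div (nn ρ) 3]
    rw [pow_add, pow_mul, w_cube, one_pow, mul_one]
  rw [h1, nn_nq h, sub_self]
  exact dvd_zero _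

section
variable {J : Type} [Fintype J] {π : J → Ei} {e : J → ZMod 3} {k : ZMod 3} {D : Ei}

/-- `D = ± ω^k ∏ π_i^{e_i}` -/
def Dk (k : ZMod 3) (π : J → Ei) (e : J → ZMod 3) (D : Ei) : Prop :=
  D = w ^ k.val * pD π e ∨ D = -(w ^ k.val * pD π e)

lemma Dk.dvd (h : Dk k π e D) {ρ : Ei} : ρ ∣ D ↔ ρ ∣ pD π e := by
  have hu : IsUnit ((w : Ei) ^ k.val) := IsUnit.pow _ ⟨⟨w, w ^ 2, by decide, by decide⟩, rfl⟩
  rcases h with h | h
  · rw [h, hu.dvd_mul_left]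
  · rw [h, dvd_neg, hu.dvd_mul_left]

lemma Dk.cs_eq (h : Dk k π e D) (hdt : Dt π e) {ρ : Ei} (hρ : Pq ρ) (hnd : ¬ ρ ∣ D) :
    cs ρ D = k * nq ρ + ∑ j, e j * cs ρ (π j) := by
  have h0 : ¬ ρ ∣ pD π e := fun h1 => hnd (h.dvd.2 h1)
  have h1 : ∀ j, ¬ ρ ∣ π j := fun j hj => h0 (by
    unfold pD
    exact dvd_trans (dvd_pow hj (e_val (hdt.e0 j))) (Finset.dvd_prod_of_mem _ (Finset.mem_univ j)))
  have hw : ¬ ρ ∣ (w : Ei) ^ k.val := fun h2 => not_dvd_w hρ.prime (hρ.prime.dvd_of_dvd_pow h2)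
  have h4 : cs ρ D = cs ρ (w ^ k.val * pD π e) := by
    rcases h with h | h
    · rw [h]
    · rw [h, Pool.Agent.Y715.T.RecG.cs_neg hρ.prime hρ.norm]
      intro h5
      rcases hρ.prime.dvd_or_dvd h5 with h6 | h6
      · exact hw h6
      · exact h0 h6
  rw [h4, Pool.Agent.Y715.T.RecG.cs_mul hρ.prime hρ.norm hw h0,
    Pool.Agent.Y715.T.RecG.cs_pow hρ.prime hρ.norm (not_dvd_w hρ.prime), ZMod.natCast_zmod_val,
    cs_ww hρ]
  congr 1
  unfold pD
  rw [Pool.Agent.Y715.T.RecG.cs_prod hρ.prime hρ.norm _ _ fun j _ h5 =>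
    h1 j (hρ.prime.dvd_of_dvd_pow h5)]
  refine Finset.sum_congr rfl fun j _ => ?_
  rw [Pool.Agent.Y715.T.RecG.cs_pow hρ.prime hρ.norm (h1 j), ZMod.natCast_zmod_val]

/-- the character at a prime of good reduction -/
lemma chD_prime (hrec : S_REC) (hdt : Dt π e) (hD : Dk k π e D) {ρ : Ei}
    (hρ : Pq ρ) (hnd : ¬ ρ ∣ D) :
    toC w ^ (-(k * nq ρ)).val * chD π (fun j => -e j) ρ = toC w ^ (-cs ρ D).val := by
  have h0 : ¬ ρ ∣ pD π e := fun h1 => hnd (hD.dvd.2 h1)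
  have h1 : ∀ j, ¬ ρ ∣ π j := fun j hj => h0 (by
    unfold pD
    exact dvd_trans (dvd_pow hj (e_val (hdt.e0 j))) (Finset.dvd_prod_of_mem _ (Finset.mem_univ j)))
  have h2 : ∀ j, ¬ π j ∣ ρ := fun j hj => h1 j
    ((hdt.pq j).prime.associated_of_dvd hρ.prime hj).symm.dvd
  unfold chD
  rw [if_neg (fun ⟨j, hj⟩ => h2 j hj), ← tw_add, hD.cs_eq hdt hρ hnd, neg_add,
    ← Finset.sum_neg_distrib]
  congr 3
  refine Finset.sum_congr rfl fun j _ => ?_
  rw [hrec (π j) ρ (hdt.pq j) hρ (h1 j), neg_mul]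

lemma chD_bad {ρ : Ei} (hρ : Prime ρ) (hdt : Dt π e) (hD : Dk k π e D)
    (h : ρ ∣ D) (e' : J → ZMod 3) : chD π e' ρ = 0 := by
  unfold chD
  rw [if_pos (dvd_pD hρ hdt (hD.dvd.1 h))]

/-- the function of the elements -/
noncomputable def gk (k : ZMod 3) (π : J → Ei) (e : J → ZMod 3) (s : ℂ) (α : Ei) : ℂ :=
  (if (3 : ℤ) ∣ nr α then 0 else toC w ^ (-(k * nq α)).val) * gg π e s α

lemma gk_one (hpq : ∀ j, Pq (π j)) (k : ZMod 3) (e : J → ZMod 3) (s : ℂ) : gk k π e s 1 = 1 := by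
  unfold gk
  rw [gg_one hpq, mul_one]
  have h1 : nr (1 : Ei) = 1 := by decide
  rw [if_neg (by rw [h1]; norm_num), nq_of (a := 0) (by rw [h1]; norm_num)]
  simp

lemma gk_mul (hpq : ∀ j, Pq (π j)) (k : ZMod 3) (e : J → ZMod 3) (s : ℂ) (α β : Ei) :
    gk k π e s (α * β) = gk k π e s α * gk k π e s β := by
  unfold gk
  rw [gg_mul hpq, nr_mul]
  have h3 : (3 : ℤ) ∣ nr α * nr β ↔ (3 : ℤ) ∣ nr α ∨ (3 : ℤ) ∣ nr β := Int.prime_three.dvd_mul
  by_cases h1 : (3 : ℤ) ∣ nr α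
  · rw [if_pos (h3.2 (Or.inl h1)), if_pos h1]
    ring
  by_cases h2 : (3 : ℤ) ∣ nr β
  · rw [if_pos (h3.2 (Or.inr h2)), if_pos h2]
    ring
  rw [if_neg (fun h => (h3.1 h).elim h1 h2), if_neg h1, if_neg h2, nq_mul (nr_mod h1) (nr_mod h2)]
  have e1 : -(k * (nq α + nq β)) = -(k * nq α) + -(k * nq β) := by ring
  rw [e1, tw_add]
  ring

lemma gk_prim {α : Ei} (h : (3 : Ei) ∣ α - 1) (k : ZMod 3) (e : J → ZMod 3) (s : ℂ) :
    gk k π e s α = toC α * (toC w ^ (-(k * nq α)).val * chD π e α) *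
      ((nr α : ℤ) : ℂ) ^ (-s) := by
  unfold gk gg
  have h1 : ¬ (3 : ℤ) ∣ nr α := by
    intro h2
    obtain ⟨x, y, h1, -⟩ := ex_q h
    rw [h1, nr_form] at h2
    omega
  rw [if_neg h1]
  ring

end

section
variable {K : Type} [Field K] [NumberField K] (j : Ei ≃+* 𝓞 K)

variable {J : Type} [Fintype J] {π : J → Ei} {e : J → ZMod 3} {k : ZMod 3} {D : Ei}

/-- at the prime above three -/
theorem bad_three {P : HeightOneSpectrum Ei} (h : (3 : ℤ) ∣ nr (gn P.asIdeal)) {D : Ei}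
    (hD : ¬ tht ∣ D) :
    aV (ED (j D : K)) (pK j P) = 0 ∧ eV (ED (j D : K)) (pK j P) = 0 := by
  have hs := three_span h
  refine bad_of (t := j tht) (r := (j D) ^ 4) (m := 6) ?_ (pK_span j hs) (by norm_num) ?_ ?_
  · rw [Ne, map_eq_zero_iff j j.injective]
    exact tht_prime.ne_zero
  · intro h4
    have h5 := (pK j P).isPrime.mem_of_pow_mem 4 h4
    rw [mem_pK, hs, Ideal.mem_span_singleton] at h5
    exact hD h5
  · have h7 : (-27 : 𝓞 K) = (j tht) ^ 6 := by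
      rw [← map_pow]
      have : tht ^ 6 = -27 := by decide
      rw [this, map_neg, map_ofNat]
    rw [h7]

lemma prim_pD (hdt : Dt π e) : (3 : Ei) ∣ pD π e - 1 := by
  unfold pD
  have h1 : ∀ S : Finset J, (3 : Ei) ∣ (∏ i ∈ S, π i ^ (e i).val) - 1 := by
    intro S
    induction S using Finset.induction_on with
    | empty => rw [Finset.prod_empty, sub_self]; exact dvd_zero _
    | insert i S hi ih =>
      rw [Finset.prod_insert hi]
      have e1 : π i ^ (e i).val * ∏ x ∈ S, π x ^ (e x).val - 1 =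
        (π i ^ (e i).val - 1 ^ (e i).val) * ∏ x ∈ S, π x ^ (e x).val +
          (∏ x ∈ S, π x ^ (e x).val - 1) := by ring
      rw [e1]
      exact dvd_add (Dvd.dvd.mul_right (dvd_trans (hdt.pq i).three (sub_dvd_pow_sub_pow _ _ _)) _) ih
  exact h1 _

lemma Dk.nt (hD : Dk k π e D) (hdt : Dt π e) : ¬ tht ∣ D := by
  intro h
  have h1 := hD.dvd.1 h
  have h3 : tht ∣ (3 : Ei) := ⟨-tht, by linear_combination tht_sq⟩
  apply tht_prime.not_isUnit
  apply isUnit_of_dvd_one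
  have h6 := dvd_sub h1 (dvd_trans h3 (prim_pD hdt))
  rwa [sub_sub_cancel] at h6

/-- at the primes dividing `D` -/
theorem bad_D {P : HeightOneSpectrum Ei} (hdt : Dt π e) (hD : Dk k π e D) {i : J}
    (h : P.asIdeal = Ideal.span {π i}) :
    aV (ED (j D : K)) (pK j P) = 0 ∧ eV (ED (j D : K)) (pK j P) = 0 := by
  have hi := hdt.pq i
  have hsp : pD π e = π i ^ (e i).val * ∏ l ∈ Finset.univ.erase i, π l ^ (e l).val := by
    unfold pD
    rw [Finset.mul_prod_erase _ (fun l => π l ^ (e l).val) (Finset.mem_univ i)]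
  have hD4 : D ^ 4 = (w ^ k.val * pD π e) ^ 4 := by
    rcases hD with h1 | h1
    · rw [h1]
    · rw [h1]
      ring
  refine bad_of (t := j (π i)) (r := -27 * (j (w ^ k.val *
    ∏ l ∈ Finset.univ.erase i, π l ^ (e l).val)) ^ 4) (m := 4 * (e i).val) ?_
    (pK_span j h) ?_ ?_ ?_
  · rw [Ne, map_eq_zero_iff j j.injective]
    exact hi.prime.ne_zero
  · have h0 := hdt.e0 i
    revert h0
    generalize e i = c
    revert c
    decide
  · intro h4
    rcases (pK j P).isPrime.mem_or_mem h4 with h5 | h5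
    · have h6 : (-27 : 𝓞 K) = j (-(3 ^ 3)) := by
        rw [map_neg, map_pow, map_ofNat]
        norm_num
      rw [h6, mem_pK, h, Ideal.mem_span_singleton, dvd_neg] at h5
      have h7 := hi.prime.dvd_of_dvd_pow h5
      apply hi.prime.not_isUnit
      apply isUnit_of_dvd_one
      have h8 := dvd_sub (dvd_refl (π i)) (dvd_trans h7 hi.three)
      rwa [sub_sub_cancel] at h8
    · have h6 := (pK j P).isPrime.mem_of_pow_mem 4 h5
      rw [mem_pK, h, Ideal.mem_span_singleton] at h6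
      rcases hi.prime.dvd_or_dvd h6 with h7 | h7
      · exact not_dvd_w hi.prime (hi.prime.dvd_of_dvd_pow h7)
      rw [Prime.dvd_finsetProd_iff hi.prime] at h7
      obtain ⟨l, hl, h7⟩ := h7
      exact hdt.nd l i (Finset.ne_of_mem_erase hl) (hi.prime.dvd_of_dvd_pow h7)
  · rw [← map_pow, hD4, hsp]
    simp only [map_mul, map_pow]
    ring

/-- the factor of the Hecke `L`-function and its conjugate -/
theorem factorK (hrec : S_REC) (hdt : Dt π e) (hD : Dk k π e D) (s : ℂ)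
    (P : HeightOneSpectrum Ei) :
    HBd (aV (ED (j D : K)) (pK j P)) (eV (ED (j D : K)) (pK j P)) (nm (pK j P)) ∧
    (1 - (aV (ED (j D : K)) (pK j P) : ℂ) * (nm (pK j P) : ℂ) ^ (-s) +
      (eV (ED (j D : K)) (pK j P) : ℂ) * ((nm (pK j P) : ℂ) ^ (-s)) ^ 2)⁻¹ =
    (1 - fI (gk k π (fun i => -e i) s) P.asIdeal)⁻¹ *
      (starRingEnd ℂ) ((1 - fI (gk k π (fun i => -e i) ((starRingEnd ℂ) s)) P.asIdeal)⁻¹) := by
  have hbad : aV (ED (j D : K)) (pK j P) = 0 ∧ eV (ED (j D : K)) (pK j P) = 0 →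
      (∀ z, fI (gk k π (fun i => -e i) z) P.asIdeal = 0) →
      HBd (aV (ED (j D : K)) (pK j P)) (eV (ED (j D : K)) (pK j P)) (nm (pK j P)) ∧
    (1 - (aV (ED (j D : K)) (pK j P) : ℂ) * (nm (pK j P) : ℂ) ^ (-s) +
      (eV (ED (j D : K)) (pK j P) : ℂ) * ((nm (pK j P) : ℂ) ^ (-s)) ^ 2)⁻¹ =
    (1 - fI (gk k π (fun i => -e i) s) P.asIdeal)⁻¹ *
      (starRingEnd ℂ) ((1 - fI (gk k π (fun i => -e i) ((starRingEnd ℂ) s)) P.asIdeal)⁻¹) := by
    rintro ⟨h1, h2⟩ h3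
    refine ⟨Or.inl ⟨h1, h2⟩, ?_⟩
    rw [h1, h2, h3, h3]
    simp
  by_cases h3 : (3 : ℤ) ∣ nr (gn P.asIdeal)
  · refine hbad (bad_three j h3 (hD.nt hdt)) fun z => ?_
    unfold fI
    rw [if_pos h3]
  · set α := ns (gn P.asIdeal) with hα
    have hs := span_ns h3
    rw [← hα] at hs
    have hpq := pq_ns h3
    rw [← hα] at hpq
    have hfI : ∀ g : Ei → ℂ, fI g P.asIdeal = g α := fun g => by
      rw [hs, fI_prim g hpq.three]
    by_cases hDα : α ∣ D
    · obtain ⟨i, hi⟩ := dvd_pD hpq.prime hdt (hD.dvd.1 hDα)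
      refine hbad (bad_D j hdt hD (i := i) ?_) fun z => ?_
      · rw [hs]
        exact Ideal.span_singleton_eq_span_singleton.2
          ((hdt.pq i).prime.associated_of_dvd hpq.prime hi).symm
      · rw [hfI]
        unfold gk gg
        rw [chD_bad hpq.prime hdt hD hDα, mul_zero, zero_mul, mul_zero]
    · obtain ⟨v1, v2⟩ := good_val j hpq (pK_span j hs) hDα
      have hnm := nm_nr j (pK_span j hs)
      set x := toC (w ^ (-cs α D).val * α) with hx
      have hxx : x * (starRingEnd ℂ) x = (nm (pK j P) : ℂ) := by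
        rw [Complex.mul_conj, hx, toC_normSq, nr_mul]
        have h5 : nr (w ^ (-cs α D).val) = 1 := by
          generalize -cs α D = c
          revert c
          decide
        rw [h5, one_mul, ← hnm]
        push_cast
        rfl
      have hg : ∀ z, gk k π (fun i => -e i) z α = x * (nm (pK j P) : ℂ) ^ (-z) := by
        intro z
        rw [gk_prim hpq.three]
        have h6 := chD_prime hrec hdt hD hpq hDα
        rw [h6, ← hnm, hx, map_mul, map_pow]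
        push_cast
        ring
      refine ⟨Or.inr ⟨x, v1, ?_, hxx⟩, ?_⟩
      · rw [v2, hxx]
      · rw [hfI, hfI, hg, hg, v1, v2, map_inv₀, map_sub, map_one, map_mul, conj_nat_cpow',
          map_neg, Complex.conj_conj, ← mul_inv]
        congr 1
        linear_combination (-(((nm (pK j P) : ℕ) : ℂ) ^ (-s)) ^ 2) * hxx

end

/-- **The `L`-function.** -/
theorem LK (hrec : S_REC) {K : Type} [Field K] [NumberField K] (j : Ei ≃+* 𝓞 K)
    {J : Type} [Fintype J] {π : J → Ei} {e : J → ZMod 3} {k : ZMod 3} {D : Ei}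
    (hdt : Dt π e) (hD : Dk k π e D) {F : ℂ → ℂ} (hF : IsHLk k π (fun i => -e i) F) {s : ℂ}
    (hs : 3 / 2 < s.re) :
    LSeriesSummable ((fun n : ℤ => (n : ℂ)) ∘ (ED (j D : K)).LFunction) s ∧
      F s * (starRingEnd ℂ) (F ((starRingEnd ℂ) s)) = (ED (j D : K)).LSeries s := by
  have hsc : 3 / 2 < ((starRingEnd ℂ) s).re := by rwa [Complex.conj_re]
  have h1 : HasSum (fun α : {α : Ei // (3 : Ei) ∣ α - 1} => gk k π (fun i => -e i) s α) (F s) :=
    (hF.2 s hs).congr_fun fun α => gk_prim α.2 _ _ _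
  have h2 : HasSum (fun α : {α : Ei // (3 : Ei) ∣ α - 1} =>
      gk k π (fun i => -e i) ((starRingEnd ℂ) s) α) (F ((starRingEnd ℂ) s)) :=
    (hF.2 _ hsc).congr_fun fun α => gk_prim α.2 _ _ _
  have h3 := hasProd_Ei (gk_one hdt.pq _ _ s) (gk_mul hdt.pq _ _ s) h1
  have h4 := (hasProd_Ei (gk_one hdt.pq _ _ ((starRingEnd ℂ) s)) (gk_mul hdt.pq _ _ _) h2).map
    (starRingEnd ℂ) Complex.continuous_conj
  have h5 := h3.mul h4
  have hE : ∀ v : HeightOneSpectrum (𝓞 K), HBd (aV (ED (j D : K)) v)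
      (eV (ED (j D : K)) v) (nm v) := by
    intro v
    obtain ⟨P, rfl⟩ := (eK j).surjective v
    exact (factorK j hrec hdt hD s P).1
  obtain ⟨h6, h7⟩ := LSeries_hasProd' (ED (j D : K)) hE hs
  refine ⟨h6, ?_⟩
  have h8 := (eK j).hasProd_iff.2 h7
  refine h5.unique (h8.congr_fun fun P => ?_)
  exact ((factorK j hrec hdt hD s P).2).symm

end Pool.Agent.H462.CTU.LK
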