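import Pool.Agent.H462.CTU.Val

/-!
# The nonvanishing of the central value
-/

set_option autoImplicit false
set_option linter.unusedSectionVars false

open Filter
open scoped Classical Topology PeriodPair

namespace Pool.Agent.H462.CTU.Main

open Pool.Agent.Y692.QS (Ei w nr toC)
open Pool.Agent.Y703.CT
open Pool.Agent.Y715.Dist Pool.Agent.Y715.Idn Pool.Agent.Y696
open Pool.Agent.Y715.T.Rec (cs)
open Pool.Agent.Y715.T.RecG (Pq)
open Pool.Agent.Y715.T.Three (lam lam_ne')
open Pool.Agent.H462.CTU.Chr Pool.Agent.H462.CTU.Hec Pool.Agent.H462.CTU.Val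
open Pool.Agent.H462.CTU.Eng (G gd)

variable {J : Type} [Fintype J] {π : J → Ei} {e : J → ZMod 3} {k : ZMod 3}

/-- the kernel of the Laplacian with the additional node `none` for the unit `ω` is as small as
possible -/
def KerW (k : ZMod 3) (π : J → Ei) (e : J → ZMod 3) : Prop :=
  ∀ v : Option J → ZMod 3,
    (∀ i, k * nq (π i) * (v (some i) - v none) +
      ∑ j, e j * cs (π j) (π i) * (v (some i) - v (some j)) = 0) → ∀ i, v (some i) = v none

/-- the value is as large as possible -/
theorem an_main [Nonempty J] (hrec : S_REC) (hk : k ≠ 0) (h : Dt π e) (hK : KerW k π e) :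
    ∃ F : ℂ → ℂ, IsHLk k π (fun i => -e i) F ∧ F 1 ≠ 0 ∧
      ∀ (Γ : Type) [LinearOrderedCommGroupWithZero Γ] (v : Valuation ℂ Γ), v 3 < 1 →
        ∀ (L : PeriodPair) (Ω : ℂ), Cur L Ω →
          v ((starRingEnd ℂ) (F 1) / Ω) * v lam ^ 2 = v lam ^ (Fintype.card J) := by
  have h' : Dt π (fun i => -e i) := ⟨h.pq, h.nd, fun j => neg_ne_zero.2 (h.e0 j)⟩
  obtain ⟨F, hF, hval⟩ := an_val hk h' (fun i => -e i * lb k π i)
  refine ⟨F, hF, ?_⟩
  have hD : G (am π (fun i => -e i)) (lb k π) (fun i => -e i * lb k π i) Finset.univ ≠ 0 := by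
    unfold Eng.G
    refine Pool.Agent.Y715.T.Comb.D_ne (ε := fun o => o.elim 1 (fun i => -e i)) ?_ ?_ ?_ ?_ ?_
    · exact ⟨none, by simp⟩
    · intro o _
      cases o with
      | none => exact one_ne_zero
      | some i => exact h'.e0 i
    · intro o _ o' _ hoo
      cases o with
      | none =>
        cases o' with
        | none => exact absurd rfl hoo
        | some i => show (1 : ZMod 3) * (-e i * lb k π i) = -e i * lb k π i; rw [one_mul]
      | some i =>
        cases o' with
        | none => show -e i * lb k π i = (1 : ZMod 3) * (-e i * lb k π i); rw [one_mul]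
        | some j =>
          show -e i * am π (fun i => -e i) i j = -e j * am π (fun i => -e i) j i
          have hij : i ≠ j := fun h0 => hoo (by rw [h0])
          unfold Pool.Agent.Y703.CT.am
          rw [hrec (π i) (π j) (h.pq i) (h.pq j) (h.nd i j hij)]
          ring
    · intro v hv
      have h1 : ∀ i, v (some i) = v none := by
        apply hK v
        intro i
        have h2 := hv (some i) (by simp)
        rw [Finset.sum_insertNone] at h2
        rw [← h2]
        congr 1
        refine Finset.sum_congr rfl fun j _ => ?_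
        show _ = am π (fun i => -e i) i j * _
        unfold Pool.Agent.Y703.CT.am
        ring
      intro o _ o' _
      cases o with
      | none =>
        cases o' with
        | none => rfl
        | some j => exact (h1 j).symm
      | some i =>
        cases o' with
        | none => exact h1 i
        | some j => rw [h1 i, h1 j]
    · rw [Finset.sum_insertNone]
      have h1 : ∑ i : J, (fun o : Option J => o.elim (1 : ZMod 3) (fun i => -e i)) (some i) *
          gd J (some i) = 0 := by
        refine Finset.sum_eq_zero fun i _ => ?_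
        show _ * (0 : ZMod 3) = 0
        rw [mul_zero]
      rw [h1, add_zero]
      show (1 : ZMod 3) * 1 ≠ 0
      decide
  have hmain : ∀ (Γ : Type) [LinearOrderedCommGroupWithZero Γ] (v : Valuation ℂ Γ), v 3 < 1 →
        ∀ (L : PeriodPair) (Ω : ℂ), Cur L Ω →
          v ((starRingEnd ℂ) (F 1) / Ω) * v lam ^ 2 = v lam ^ (Fintype.card J) := by
    intro Γ _ v hv L Ω hC
    obtain ⟨s, hs1, hs2⟩ := hval Γ v hv L Ω hC
    rw [hs2, hs1.eq_one hv hD, mul_one]
  refine ⟨?_, hmain⟩
  intro h0
  obtain ⟨B, hB⟩ := Pool.Agent.Y715.T.Fin.exists_over_three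
  obtain ⟨θ, hθ, hL⟩ := Pool.Agent.Y696.exists_cur
  have h1 := hmain _ B.valuation hB _ _ hL
  rw [h0, map_zero, zero_div, map_zero, zero_mul] at h1
  exact pow_ne_zero _ Pool.Agent.Y715.T.Three.lam_ne h1.symm

end Pool.Agent.H462.CTU.Main
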