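import Pool.Agent.H462.CTU.Idn
import Pool.Graph.R_seed8.Y715.CT.AN1b

/-!
# The function `Φ` for the cubic characters modulo `3√-3`
-/

set_option autoImplicit false
set_option linter.unusedSectionVars false

open Filter
open scoped Topology PeriodPair

namespace Pool.Agent.H462.CTU.Phi

open H667R3 Pool.Agent.W192.HK Pool.Agent.TH936.CM
open Pool.Agent.TH936.PU hiding v_int
open Pool.Agent.Y715.Dist Pool.Agent.Y715.Idn Pool.Agent.Y715.T.Lat Pool.Agent.Y696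
open Pool.Agent.Y715.Two (v_nat v_int v_unit v_mul_le_of)
open Pool.Agent.Y715.T.Three Pool.Agent.Y715.T.Cg
open Pool.Agent.Y703.CT.Ana (big om_val om_val2 dat' rel_la' dwp_two)

variable {L : PeriodPair} {Ω : ℂ}

/-- the point of order `√-3` -/
noncomputable def tau (Ω : ℂ) : ℂ := Ω / lam

lemma tau_eq (Ω : ℂ) : tau Ω = -(lam * (Ω / 3)) := by
  unfold tau
  have h0 := lam_ne'
  rw [div_eq_iff h0]
  linear_combination (Ω / 3) * lam_sq

/-- the function -/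
noncomputable def ph (L : PeriodPair) (Ω ζ p : ℂ) : ℂ :=
  -(℘'[L] p + (ζ - ζ ^ 2) * ℘'[L] (tau Ω)) / (2 * ℘[L] p)

section A

variable (hC : Cur L Ω)

include hC

lemma tau_notMem : tau Ω ∉ L.lattice := by
  rw [tau_eq, neg_mem_iff, hC.mem_third (r := la) (by rw [la_coe]; ring)]
  unfold la
  rw [mem_three]
  norm_num

lemma wp_tau : ℘[L] (tau Ω) = 0 := by
  rw [tau_eq, L.weierstrassP_neg, wp_la_third hC]

lemma dwp_tau : ℘'[L] (tau Ω) ^ 2 = 1 := by
  rw [hC.ode (tau_notMem hC), wp_tau hC]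
  ring

lemma EE_tau (δ : ℝ) : EE eis Ω δ (tau Ω) = 0 := by
  have h1 : om * tau Ω - tau Ω ∈ L.lattice := by
    rw [hC.mem_third (r := (1 - omr) * la) (by
      push_cast
      rw [omr_coe, la_coe, tau_eq]
      ring)]
    have e : (1 - omr) * la = ez 3 3 := by
      rw [← ez_omr, ← ez_one, ez_sub]
      unfold la
      rw [ez_mul]
      norm_num
    rw [e, mem_three]
    norm_num
  have h2 := EE_per hC.lat δ h1
  have h3 := EE_unit omr_unit Ω δ (tau Ω)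
  rw [omr_coe, h2] at h3
  have h4 : (1 - om) * EE eis Ω δ (tau Ω) = 0 := by
    have h5 := om_ne
    have h6 : om * EE eis Ω δ (tau Ω) = EE eis Ω δ (tau Ω) := by
      conv_lhs => rw [h3]
      rw [mul_inv_cancel_left₀ h5]
    linear_combination -h6
  refine (mul_eq_zero.1 h4).resolve_left ?_
  intro h6
  exact Pool.Agent.Y715.CT.Hec.om_ne_one (by linear_combination -h6)

/-- the limit of the twisted sum over the translates -/
theorem lim_A {p ζ : ℂ} (hζ : ζ ^ 2 + ζ + 1 = 0) (hp : p ∉ L.lattice)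
    (h1 : p + tau Ω ∉ L.lattice) (h2 : p - tau Ω ∉ L.lattice) :
    Tendsto (fun δ : ℝ => EE eis Ω δ p + ζ * EE eis Ω δ (p + tau Ω) +
      ζ ^ 2 * EE eis Ω δ (p - tau Ω)) (𝓝[>] 0) (𝓝 (ph L Ω ζ p)) := by
  have ht := tau_notMem hC
  have h3 := lim_Dd hC.lat hp ht h1 h2
  have h1' : tau Ω + p ∉ L.lattice := by rwa [add_comm]
  have h2' : tau Ω - p ∉ L.lattice := by
    rw [← neg_mem_iff, neg_sub]
    exact h2
  have h4 := lim_Dd hC.lat ht hp h1' h2'
  have hx : ℘[L] p ≠ 0 := by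
    have := wp_sub_ne hp ht h1 h2
    rwa [wp_tau hC, sub_zero] at this
  have h5 := (h3.const_mul (-(1 / 2 : ℂ))).add (h4.const_mul ((ζ - ζ ^ 2) / 2))
  have e1 : -(1 / 2 : ℂ) * Dd L p (tau Ω) + (ζ - ζ ^ 2) / 2 * Dd L (tau Ω) p = ph L Ω ζ p := by
    unfold Dd ph
    rw [wp_tau hC, sub_zero, zero_sub]
    field_simp
    ring
  rw [e1] at h5
  refine h5.congr fun δ => ?_
  have e2 : EE eis Ω δ (tau Ω - p) = -EE eis Ω δ (p - tau Ω) := by
    rw [← EE_neg, neg_sub]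
  rw [EE_tau hC, e2, add_comm (tau Ω) p]
  linear_combination (-(1 / 2 : ℂ) * (EE eis Ω δ (p + tau Ω) + EE eis Ω δ (p - tau Ω))) * hζ

end A

/-! ### the cube -/

/-- the cube of the function -/
lemma ph_cube (hC : Cur L Ω) {p ζ : ℂ} (hζ : ζ ^ 2 + ζ + 1 = 0) (hp : p ∉ L.lattice)
    (hx : ℘[L] p ≠ 0) :
    ph L Ω ζ p ^ 3 = -(℘'[L] p * (℘'[L] p ^ 2 - 9) / (2 * (℘'[L] p ^ 2 - 1)) +
      3 / 2 * ((ζ - ζ ^ 2) * ℘'[L] (tau Ω))) := by
  have h1 := hC.ode hp
  have h2 := dwp_tau hC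
  have hc : ((ζ - ζ ^ 2) * ℘'[L] (tau Ω)) ^ 2 = -3 := by
    rw [mul_pow, h2]
    linear_combination (ζ ^ 2 - 3 * ζ + 3) * hζ
  unfold ph
  set c := (ζ - ζ ^ 2) * ℘'[L] (tau Ω)
  set x := ℘[L] p
  set y := ℘'[L] p
  have hy : y ^ 2 - 1 ≠ 0 := by
    rw [h1]
    have e : 4 * x ^ 3 + 1 - 1 = 4 * x ^ 3 := by ring
    rw [e]
    exact mul_ne_zero (by norm_num) (pow_ne_zero _ hx)
  rw [div_pow]
  have e1 : (2 * x) ^ 3 = 2 * (y ^ 2 - 1) := by linear_combination (-2) * h1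
  rw [e1]
  field_simp
  linear_combination (-(c + 3 * y)) * hc

variable {Γ : Type*} [LinearOrderedCommGroupWithZero Γ] {v : Valuation ℂ Γ}

section B

variable (h3 : v 3 < 1)

include h3

/-- the addition formula: the value of `℘'` at a translate by a third is small -/
lemma add_small {P Y Q Z : ℂ} (hP : P ^ 3 + 1 = 0) (hY : Y ^ 2 = -3)
    (hQ : v (4 * Q ^ 3 + 1) ≤ v lam ^ 3) (hZ : Z ^ 2 = 4 * Q ^ 3 + 1) :
    v (Y + (Y - Z) / (P - Q) * (((Y - Z) / (P - Q)) ^ 2 / 4 - P - Q - P)) < 1 := by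
  have hbig := big h3 hP hQ
  have hl := lam_lt h3
  have hP1 : v P = 1 := z_pow (k := 6) (by norm_num) (by linear_combination (P ^ 3 - 1) * hP)
  have hY1 : v Y = v lam := by
    have h9 : v Y ^ 2 = v lam ^ 2 := by
      rw [← map_pow, hY, v.map_neg, pow_two, sq_three]
    exact (pow_left_inj₀ zero_le zero_le two_ne_zero).1 h9
  have hZ1 : v Z ≤ v lam := by
    by_contra hcon
    push Not at hcon
    have h4 : v lam ^ 2 < v Z ^ 2 := pow_lt_pow_left₀ hcon zero_le two_ne_zero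
    rw [← map_pow v Z, hZ] at h4
    have h5 : v lam ^ 3 < v lam ^ 2 := pow_lt_pow_right_of_lt_one₀ lam_pos hl (by norm_num)
    exact absurd (h4.trans_le hQ) (not_lt.2 h5.le)
  have h4 : v 4 = 1 := by
    have : (4 : ℂ) = 2 * 2 := by norm_num
    rw [this, map_mul, v_two h3, one_mul]
  have hQ1 : v Q ≤ 1 := by
    by_contra hcon
    push Not at hcon
    have h5 : v (4 * Q ^ 3) ≤ 1 := by
      have e : 4 * Q ^ 3 = (4 * Q ^ 3 + 1) - 1 := by ring
      rw [e]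
      refine v.map_sub_le (hQ.trans (pow_le_one' hl.le 3)) ?_
      rw [map_one]
    rw [map_mul, h4, one_mul, map_pow] at h5
    exact absurd h5 (not_le.2 (one_lt_pow' hcon (by norm_num)))
  set m := (Y - Z) / (P - Q) with hm
  have hm1 : v m < 1 := by
    rw [hm, map_div₀, div_lt_one₀ (lt_of_le_of_lt zero_le hbig)]
    exact (v.map_sub_le hY1.le hZ1).trans_lt hbig
  have h6 : v (m ^ 2 / 4 - P - Q - P) ≤ 1 := by
    refine v.map_sub_le (v.map_sub_le (v.map_sub_le ?_ hP1.le) hQ1) hP1.le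
    rw [map_div₀, h4, div_one, map_pow]
    exact pow_le_one' hm1.le 2
  refine v.map_add_lt (hY1.trans_lt hl) ?_
  exact (v_mul_le_of le_rfl h6).trans_lt hm1

end B

/-- chord form of the addition theorem -/
lemma dwp_chord (hC : Cur L Ω) {z w : ℂ} (hz : 2 * z ∉ L.lattice) (hw : w ∉ L.lattice)
    (h1 : z + w ∉ L.lattice) (h2 : z - w ∉ L.lattice) :
    ℘'[L] (z + w) = -(℘'[L] z + (℘'[L] z - ℘'[L] w) / (℘[L] z - ℘[L] w) *
      (((℘'[L] z - ℘'[L] w) / (℘[L] z - ℘[L] w)) ^ 2 / 4 - ℘[L] z - ℘[L] w - ℘[L] z)) := by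
  have hz0 := two_mul_notMem_of L hz
  have h3 := wp_sub_ne hz0 hw h1 h2
  have e1 := hC.ode hz0
  have e2 := hC.ode hw
  rw [wp'_add L hz hw h1 h2, hC.g2]
  set x := ℘[L] z
  set X := ℘[L] w
  set y := ℘'[L] z
  set Y := ℘'[L] w
  rw [← sub_eq_zero]
  field_simp
  ring_nf
  linear_combination (4 * Y - 12 * y) * e1 + (12 * y - 4 * Y) * e2

end Pool.Agent.H462.CTU.Phi
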