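import Pool.Agent.H462.CTU.Phi

/-!
# Comparison of the values of `Φ`
-/

set_option autoImplicit false
set_option linter.unusedSectionVars false

open Filter
open scoped Topology PeriodPair

namespace Pool.Agent.H462.CTU.Phi

open H667R3 Pool.Agent.W192.HK Pool.Agent.TH936.CM
open Pool.Agent.TH936.PU hiding v_int
open Pool.Agent.Y715.Dist Pool.Agent.Y715.Idn Pool.Agent.Y715.T.Lat Pool.Agent.Y696
open Pool.Agent.Y715.Two (v_nat v_int v_unit v_mul_le_of)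
open Pool.Agent.Y715.T.Three Pool.Agent.Y715.T.Cg
open Pool.Agent.Y703.CT.Ana (big om_val om_val2 dat' rel_la' dwp_two)

variable {L : PeriodPair} {Ω : ℂ} {Γ : Type*} [LinearOrderedCommGroupWithZero Γ]
  {v : Valuation ℂ Γ}

/-- a point where the function is close to the constant -/
structure Pt (v : Valuation ℂ Γ) (L : PeriodPair) (p : ℂ) : Prop where
  no : p ∉ L.lattice
  nl : lam * p ∉ L.lattice
  ne : ℘[L] p ≠ 0
  sm : v (℘'[L] (lam * p)) < 1

section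

variable (h3 : v 3 < 1) (hC : Cur L Ω) {ζ : ℂ} (hζ : ζ ^ 2 + ζ + 1 = 0)

include h3 hC hζ

lemma c_val : v (3 / 2 * ((ζ - ζ ^ 2) * ℘'[L] (tau Ω))) = v lam ^ 3 := by
  have hc : ((ζ - ζ ^ 2) * ℘'[L] (tau Ω)) ^ 2 = -3 := by
    rw [mul_pow, dwp_tau hC]
    linear_combination (ζ ^ 2 - 3 * ζ + 3) * hζ
  have h4 : v ((ζ - ζ ^ 2) * ℘'[L] (tau Ω)) = v lam := by
    have h9 : v ((ζ - ζ ^ 2) * ℘'[L] (tau Ω)) ^ 2 = v lam ^ 2 := by
      rw [← map_pow, hc, v.map_neg, pow_two, sq_three]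
    exact (pow_left_inj₀ zero_le zero_le two_ne_zero).1 h9
  rw [map_mul, h4, map_div₀, v_two h3, div_one, ← sq_three, pow_succ, pow_two]

lemma r_val {p : ℂ} (hp : Pt v L p) :
    v (℘'[L] p * (℘'[L] p ^ 2 - 9) / (2 * (℘'[L] p ^ 2 - 1))) < v lam ^ 3 := by
  have h1 := hC.ode hp.no
  have h2 := rel_la' hC hp.nl
  have h5 := hp.sm
  have hx := hp.ne
  set x := ℘[L] p
  set y := ℘'[L] p
  set Y := ℘'[L] (lam * p)
  have hy : y ^ 2 - 1 ≠ 0 := by
    rw [h1]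
    have e : 4 * x ^ 3 + 1 - 1 = 4 * x ^ 3 := by ring
    rw [e]
    exact mul_ne_zero (by norm_num) (pow_ne_zero _ hx)
  have h4 : (y * (y ^ 2 - 9) / (2 * (y ^ 2 - 1))) ^ 2 = -(27 * Y ^ 2 / 4) := by
    rw [div_pow, div_eq_iff (pow_ne_zero _ (mul_ne_zero two_ne_zero hy))]
    linear_combination h2
  have hv4 : v 4 = 1 := by
    have : (4 : ℂ) = 2 * 2 := by norm_num
    rw [this, map_mul, v_two h3, one_mul]
  have h6 : v (y * (y ^ 2 - 9) / (2 * (y ^ 2 - 1))) ^ 2 = (v lam ^ 3 * v Y) ^ 2 := by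
    rw [← map_pow, h4, v.map_neg, map_div₀, hv4, div_one, map_mul, v_27, map_pow, mul_pow,
      ← pow_mul]
  rw [(pow_left_inj₀ zero_le zero_le two_ne_zero).1 h6]
  calc v lam ^ 3 * v Y < v lam ^ 3 * 1 := mul_lt_mul_of_pos_left h5 (pow_pos lam_pos _)
    _ = v lam ^ 3 := mul_one _

lemma ph_cube_val {p : ℂ} (hp : Pt v L p) : v (ph L Ω ζ p ^ 3) = v lam ^ 3 := by
  rw [ph_cube hC hζ hp.no hp.ne, v.map_neg, v.map_add_eq_of_lt_right, c_val h3 hC hζ]
  rw [c_val h3 hC hζ]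
  exact r_val h3 hC hζ hp

lemma ph_val {p : ℂ} (hp : Pt v L p) : v (ph L Ω ζ p) = v lam := by
  have h1 := ph_cube_val h3 hC hζ hp
  rw [map_pow] at h1
  exact (pow_left_inj₀ zero_le zero_le three_ne_zero).1 h1

/-- **The quotients are congruent to one.** -/
theorem ph_ratio {p q : ℂ} (hp : Pt v L p) (hq : Pt v L q) :
    v (1 - ph L Ω ζ p / ph L Ω ζ q) < 1 := by
  have hvp := ph_val h3 hC hζ hp
  have hvq := ph_val h3 hC hζ hq
  have hl : v lam ≠ 0 := lam_ne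
  have hq0 : ph L Ω ζ q ≠ 0 := by
    intro h
    rw [h, map_zero] at hvq
    exact hl hvq.symm
  refine cube_lt h3 ?_ (by rw [map_div₀, hvp, hvq, div_self hl])
  have e : 1 - (ph L Ω ζ p / ph L Ω ζ q) ^ 3 =
      (ph L Ω ζ q ^ 3 - ph L Ω ζ p ^ 3) / ph L Ω ζ q ^ 3 := by
    field_simp
  rw [e, map_div₀, ph_cube_val h3 hC hζ hq, div_lt_one₀ (pow_pos lam_pos _),
    ph_cube hC hζ hp.no hp.ne, ph_cube hC hζ hq.no hq.ne]
  have e2 : ∀ a b c : ℂ, -(a + c) - -(b + c) = b - a := fun a b c => by ring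
  rw [e2]
  exact v.map_sub_lt (r_val h3 hC hζ hp) (r_val h3 hC hζ hq)

end

/-! ### the points -/

/-- the modulus -/
noncomputable def f3 : eis := la * 3

lemma f3_coe : ((f3 : eis) : ℂ) = lam * 3 := by
  unfold f3
  push_cast
  rw [la_coe]
  rfl

lemma f3_ne : f3 ≠ 0 := mul_ne_zero Pool.Agent.Y715.CT.Hec.la_ne Pool.Agent.Y696.three_ne

lemma cop_f3 {c : eis} : IsCoprime f3 c ↔ IsCoprime (3 : eis) c := by
  unfold f3
  rw [IsCoprime.mul_left_iff]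
  constructor
  · exact fun h => h.2
  · exact fun h => ⟨cop_la h, h⟩

/-- the base point -/
noncomputable def w0 (Ω : ℂ) : ℂ := Ω / (lam * 3)

lemma w_f3 (Ω : ℂ) : Ω * ((1 : eis) : ℂ) / ((f3 : eis) : ℂ) = w0 Ω := by
  rw [f3_coe]
  push_cast
  rw [mul_one]
  rfl

lemma w_f4 (Ω : ℂ) : Ω * ((4 : eis) : ℂ) / ((f3 : eis) : ℂ) = w0 Ω + tau Ω := by
  rw [f3_coe]
  have h0 := lam_ne'
  have e : ((4 : eis) : ℂ) = 4 := rfl
  rw [e]
  unfold w0 tau
  field_simp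
  ring

lemma w_f2 (Ω : ℂ) : Ω * ((-2 : eis) : ℂ) / ((f3 : eis) : ℂ) = w0 Ω - tau Ω := by
  rw [f3_coe]
  have h0 := lam_ne'
  have e : ((-2 : eis) : ℂ) = -2 := rfl
  rw [e]
  unfold w0 tau
  field_simp
  ring

lemma lam_w0 (Ω : ℂ) : lam * w0 Ω = Ω / 3 := by
  have h0 := lam_ne'
  unfold w0
  field_simp

section

variable (h3 : v 3 < 1) (hC : Cur L Ω)

include hC

lemma w0_no : w0 Ω ∉ L.lattice ∧ w0 Ω + tau Ω ∉ L.lattice ∧ w0 Ω - tau Ω ∉ L.lattice := by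
  have key : ∀ a : ℤ, ¬ (3 : ℤ) ∣ a → Ω * ((a : eis) : ℂ) / ((f3 : eis) : ℂ) ∉ L.lattice := by
    intro a ha h
    rw [div_mem_iff hC.lat f3_ne] at h
    have h1 : (a : eis) ∈ (sp 3 : Ideal eis) := by
      unfold f3 at h
      exact sp_mul_le h
    rw [← ez_int, mem_three] at h1
    exact ha h1.1
  refine ⟨?_, ?_, ?_⟩
  · rw [← w_f3]
    have := key 1 (by norm_num)
    simpa using this
  · rw [← w_f4]
    have := key 4 (by norm_num)
    simpa using this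
  · rw [← w_f2]
    have := key (-2) (by norm_num)
    simpa using this

include h3

lemma w0_pt : Pt v L (w0 Ω) := by
  obtain ⟨h1, h2, h4⟩ := w0_no hC
  refine ⟨h1, ?_, ?_, ?_⟩
  · rw [lam_w0]
    exact hC.third
  · have := wp_sub_ne h1 (tau_notMem hC) h2 h4
    rwa [wp_tau hC, sub_zero] at this
  · rw [lam_w0]
    have h9 : v (℘'[L] (Ω / 3)) ^ 2 = v lam ^ 2 := by
      rw [← map_pow, hC.y0, v.map_neg, pow_two, sq_three]
    rw [(pow_left_inj₀ zero_le zero_le two_ne_zero).1 h9]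
    exact lam_lt h3

/-- the translates of the base point -/
theorem wu_pt {c : eis} (hc : c ≠ 0) (h3c : IsCoprime 3 c) (hct : sp c ≠ ⊤)
    (hfin : ∀ q : eis, q ≠ 0 → Finite (eis ⧸ sp q)) {x : eis} (hx : IsCoprime x c) :
    Pt v L (w0 Ω + Ω * x / c) := by
  have hx' : x ∉ (sp c : Ideal eis) := notMem_of_cop hct hx
  have hf : IsCoprime f3 c := cop_f3.2 h3c
  have n1 := (cop_notMem hC.lat f3_ne hc hf (z := 1) hx').1
  have n2 := (cop_notMem hC.lat f3_ne hc hf (z := 4) hx').1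
  have n3 := (cop_notMem hC.lat f3_ne hc hf (z := -2) hx').1
  rw [w_f3] at n1
  rw [w_f4] at n2
  rw [w_f2] at n3
  have hlx : IsCoprime (la * x) c := (cop_la h3c).mul_left hx
  have hlx' : la * x ∉ (sp c : Ideal eis) := notMem_of_cop hct hlx
  have m1 := cop_notMem hC.lat Pool.Agent.Y696.three_ne hc h3c (z := 1) hlx'
  have e1 : lam * (w0 Ω + Ω * x / c) = Ω / 3 + Ω * ((la * x : eis) : ℂ) / c := by
    rw [mul_add, lam_w0]
    push_cast
    rw [la_coe]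
    ring
  have e3 : Ω * ((1 : eis) : ℂ) / ((3 : eis) : ℂ) = Ω / 3 := by
    push_cast
    rw [mul_one]
    rfl
  rw [e3] at m1
  have hu : Ω * ((la * x : eis) : ℂ) / c ∉ L.lattice := by rwa [div_mem_iff hC.lat hc]
  refine ⟨n1, ?_, ?_, ?_⟩
  · rw [e1]
    exact m1.1
  · have k2 : w0 Ω + Ω * x / c + tau Ω ∉ L.lattice := by
      have e : w0 Ω + Ω * x / c + tau Ω = w0 Ω + tau Ω + Ω * x / c := by ring
      rw [e]
      exact n2
    have k3 : w0 Ω + Ω * x / c - tau Ω ∉ L.lattice := by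
      have e : w0 Ω + Ω * x / c - tau Ω = w0 Ω - tau Ω + Ω * x / c := by ring
      rw [e]
      exact n3
    have := wp_sub_ne n1 (tau_notMem hC) k2 k3
    rwa [wp_tau hC, sub_zero] at this
  · rw [e1, dwp_chord hC hC.third_two hu m1.1 m1.2, v.map_neg]
    refine add_small h3 (by linear_combination hC.x0) hC.y0 ?_ (hC.ode hu)
    have hD := dat' hC hc h3c hct hfin
    have h4 := X_le h3 hD ⟨la * x, hlx⟩
    have h5 : XX L Ω c ⟨la * x, hlx⟩ =
        4 * ℘[L] (Ω * ((la * x : eis) : ℂ) / c) ^ 3 + 1 := hC.ode hu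
    rwa [h5] at h4

end

end Pool.Agent.H462.CTU.Phi
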