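import Pool.Agent.H462.CTU.Loc
import Pool.Graph.R_seed8.Y48.CT.SEL

/-!
# The Selmer group of `y² + D y = x³` for `D = ± ω^k ∏ π_i^{e_i}`, `k ≠ 0`
-/

set_option autoImplicit false
set_option linter.unusedSectionVars false
set_option linter.unusedVariables false

open scoped Classical

namespace Pool.Agent.H462.CTU.Sel

open Pool.Agent.Y692.QS (Ei w nr)
open Pool.Agent.Y715.T.Gi Pool.Agent.Y715.T.Nr Pool.Agent.Y715.T.Df
open Pool.Agent.Y715.T.Rec (cs)
open Pool.Agent.Y715.T.RecG
open Pool.Agent.Y715.T.Sel (fac kc_mul kc_one kc_congr kc_pow kc_cube kc_uniq kc_cancel kc_unit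
  kc_exp ex_root root_ne iota_sq iota_ev odd_of not_dvd_of_unr resid_kc exists_emb3)
open Pool.Agent.Y48.CT.SEL (p0 pr0 esq prod_form cf_prod not_assoc_lam support not_dvd_prod)
open Pool.Agent.Y703.CT
open Pool.Agent.XL6 (SelH)
open Pool.Agent.H462.CTU.Chr (nq)
open Pool.Agent.H462.CTU.LK (Dk cs_ww not_dvd_w)
open Pool.Agent.H462.CTU.Ram (isUnit_w norm_unit)

variable {J : Type} [Fintype J] {π : J → Ei} {e : J → ZMod 3} {k : ZMod 3} {D : Ei}
variable {i₀ : QB} {hi : i₀ ^ 2 + i₀ + 1 = 0}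

/-- the kernel of the Laplacian with the additional node `none` for the unit `ω` -/
def KW (k : ZMod 3) (π : J → Ei) (e : J → ZMod 3) : Set (Option J → ZMod 3) :=
  {v | ∀ j, k * nq (π j) * (v none - v (some j)) +
    ∑ i, e i * cs (π j) (π i) * (v (some i) - v (some j)) = 0}

lemma ksq (hk : k ≠ 0) : k * k = 1 := by
  revert hk
  revert k
  decide

/-- the elements `ω^c ∏ π_i^{x_i}` -/
noncomputable def el (π : J → Ei) (x : Option J → ℕ) : Ei := w ^ x none * ∏ j, π j ^ x (some j)

/-- the elements -/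
def pw (π : J → Ei) : Option J → Ei := fun o => o.elim w π

lemma el_prod (π : J → Ei) (x : Option J → ℕ) : el π x = ∏ o, pw π o ^ x o := by
  rw [Fintype.prod_option]
  rfl

lemma w_ne : (w : Ei) ≠ 0 := isUnit_w.ne_zero

lemma pw_ne (hD : Dt π e) (o : Option J) : pw π o ≠ 0 := by
  cases o with
  | none => exact w_ne
  | some j => exact p0 hD j

lemma el_ne (hD : Dt π e) (x : Option J → ℕ) : el π x ≠ 0 :=
  mul_ne_zero (pow_ne_zero _ w_ne) (pr0 hD _)

lemma el_mul (π : J → Ei) (x y : Option J → ℕ) : el π x * el π y = el π (fun o => x o + y o) := by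
  rw [el_prod, el_prod, el_prod, ← Finset.prod_mul_distrib]
  exact Finset.prod_congr rfl fun o _ => (pow_add _ _ _).symm

lemma el_pow (π : J → Ei) (x : Option J → ℕ) (n : ℕ) : el π x ^ n = el π (fun o => x o * n) := by
  rw [el_prod, el_prod, ← Finset.prod_pow]
  exact Finset.prod_congr rfl fun o _ => (pow_mul _ _ _).symm

lemma el_exp (hD : Dt π e) {h : GK i₀ → ZMod 3} {x y : Option J → ℕ}
    (hxy : ∀ o, (x o : ZMod 3) = y o) (hz : Kc hi (el π x) h) : Kc hi (el π y) h := by
  rw [el_prod] at hz ⊢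
  exact kc_exp (pw_ne hD) hxy hz

/-- the exponents of `D` -/
def ex (k : ZMod 3) (e : J → ZMod 3) : Option J → ZMod 3 := fun o => o.elim k e

lemma dk_el (h : Dk k π e D) : D = el π (fun o => (ex k e o).val) ∨
    D = -el π (fun o => (ex k e o).val) := h

/-- the Kummer character of `D` -/
lemma kc_D (hD : Dt π e) (hDk : Dk k π e D) {u : QB} {a : GK i₀ → ZMod 3} (hTw : Tw hi D u a) :
    Kc hi (el π (fun o => (ex k e o).val)) (fun σ => -a σ) := by
  have hb : Kc hi D (fun σ => -a σ) :=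
    kc_of hi (root_ne (hi := hi) (z := D) (hDk.ne hD) hTw.cube) hTw.cube hTw.act
  rcases dk_el hDk with h | h
  · rwa [h] at hb
  · refine kc_unit (u := -1) (el_ne hD _) (Or.inr rfl) ?_
    rw [neg_one_mul, ← h]
    exact hb

lemma cf_unit {z v : Ei} (hz : CF z) (hv : IsUnit v) : CF (v * z) := by
  refine ⟨mul_ne_zero hv.ne_zero hz.1, fun d hd => hz.2 d ?_⟩
  exact (hv.dvd_mul_left).1 hd

/-- a Selmer character comes from the kernel -/
theorem sel_ker (hk : k ≠ 0) (hD : Dt π e) (hDk : Dk k π e D) {u : QB} {a : GK i₀ → ZMod 3}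
    (hTw : Tw hi D u a) {h : GK i₀ → ZMod 3} (hs : h ∈ SelH hi a) :
    ∃ v ∈ KW k π e, Kc hi (el π (fun o => (ex k e o * v o).val)) h := by
  obtain ⟨hc, hm, hloc⟩ := hs
  have hb := kc_D hD hDk hTw
  -- the Kummer generator
  obtain ⟨z, hz, hzh⟩ := kum hi h hc hm
  obtain ⟨v₀, g, x, hu, ez⟩ := fac (π := π) z hz.1 (support hD hz hzh
    (fun p _ ι hp3 hpj τ σ hcc hτ => by
      obtain ⟨R, hR⟩ := hloc p ι
      exact (Ram.t_UNR hD hDk hTw h p ι hp3 hpj R hR τ σ hcc hτ).2))
  rw [ez] at hzh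
  obtain ⟨ι₃⟩ := exists_emb3
  obtain ⟨q, hq⟩ := prod_form hD x
  have hq' : ∏ j, π j ^ x j = 1 + 3 * q := by rw [← hq]; ring
  obtain ⟨xx, hxs, hx⟩ : ∃ xx : Option J → ℕ, (∀ j, xx (some j) = x j) ∧ Kc hi (el π xx) h := by
    obtain ⟨R, hR⟩ := hloc 3 ι₃
    have hzh' := hzh
    rw [hq'] at hzh'
    have hDn : ‖ev (ι₃ i₀) (iota_sq' hi ι₃) D‖ = 1 := by
      rw [hDk.norm_eq]
      obtain ⟨q', hq'⟩ := prod_form hD (fun j => (e j).val)
      have e1 : pD π e = 1 + 3 * q' := by
        unfold pD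
        rw [← hq']
        ring
      rw [e1, map_add, map_one, map_mul, map_ofNat]
      exact Pool.Agent.Y715.T.Thr.norm_one_add (ev_le _ q')
    obtain ⟨g', hg'⟩ := Loc.core3 hDn hTw hu hzh' hR
    have h1 : Kc hi (v₀ * ∏ j, π j ^ x j) h := by
      refine kc_cancel (z' := lam ^ g') ?_ (pow_ne_zero _ prime_lam.ne_zero) ?_
      · exact mul_ne_zero hu.ne_zero (pr0 hD _)
      · have e1 : v₀ * (∏ j, π j ^ x j) * (lam ^ g') ^ 3 = v₀ * lam ^ g * ∏ j, π j ^ x j := by
          rw [hg', ← pow_mul, mul_comm g' 3]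
          ring
        rw [e1]
        exact hzh
    obtain ⟨ε, n, hε, rfl⟩ := Pool.Agent.Y715.T.Thr.unit_cases hu
    refine ⟨fun o => o.elim n.val x, fun _ => rfl, ?_⟩
    refine kc_unit (el_ne hD _) hε ?_
    have e1 : ε * el π (fun o => o.elim n.val x) = ε * w ^ n.val * ∏ j, π j ^ x j := by
      unfold el
      rw [mul_assoc]
      rfl
    rw [e1]
    exact h1
  -- the vector
  set v : Option J → ZMod 3 := fun o => xx o * ex k e o with hv
  have hexq : ∀ o, ex k e o * ex k e o = 1 := by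
    intro o
    cases o with
    | none => exact ksq hk
    | some j => exact esq hD j
  have hxv : ∀ o, (xx o : ZMod 3) = ex k e o * v o := by
    intro o
    have := hexq o
    calc (xx o : ZMod 3) = xx o * (ex k e o * ex k e o) := by rw [this, mul_one]
      _ = _ := by rw [hv]; ring
  have heq : ∀ j, k * nq (π j) * (v none - v (some j)) +
      ∑ i, e i * cs (π j) (π i) * (v (some i) - v (some j)) = 0 := by
    intro j
    obtain ⟨p, hp, ι, hl⟩ := exists_emb hi (hD.pq j).prime
    have hp3 := odd_of hi ι (hD.pq j).prime hl (not_assoc_lam (hD.pq j))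
    obtain ⟨R, hR⟩ := hloc p ι
    obtain ⟨ε, hε⟩ := Ram.t_RAM hD hDk hTw h j p ι hl R hR
    -- the character that is trivial at `π j`
    set n : ℕ := ε.val with hn
    have hn3 : (n : ZMod 3) = ε := ZMod.natCast_zmod_val _
    have hy := kc_mul (el_ne hD _) (pow_ne_zero n (el_ne hD _)) hx (kc_pow (el_ne hD _) hb n)
    have hy1 : ∀ (τ : Au p) (σ : GK i₀), Cmp ι τ σ → h σ + n * -a σ = 0 := by
      intro τ σ hcc
      rw [hε τ σ hcc, hn3]
      ring
    rw [el_pow, el_mul] at hy
    set y : Option J → ZMod 3 := fun o => xx o + ex k e o * ε with hydef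
    have hy2 : Kc hi (el π (fun o => (y o).val)) (fun σ => h σ + n * -a σ) := by
      refine el_exp hD (fun o => ?_) hy
      rw [ZMod.natCast_zmod_val, hydef]
      push_cast
      rw [hn3, ZMod.natCast_zmod_val]
    have hyj : y (some j) = 0 := by
      have hcf : CF (el π (fun o => (y o).val)) :=
        cf_unit (cf_prod hD (fun j => y (some j))) (isUnit_w.pow _)
      have h1 := not_dvd_of_unr hcf hy2 hp3 ι (hD.pq j).prime hl
        (fun τ σ hcc _ => hy1 τ σ hcc)
      by_contra hne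
      apply h1
      refine dvd_trans (dvd_pow_self (π j) ?_) (Dvd.dvd.mul_left (Finset.dvd_prod_of_mem
        (fun i => π i ^ (y (some i)).val) (Finset.mem_univ j)) _)
      rwa [Ne, ZMod.val_eq_zero]
    have hεv : ε = -v (some j) := by
      have h1 : (xx (some j) : ZMod 3) + ex k e (some j) * ε = 0 := hyj
      have h2 := hexq (some j)
      rw [hxv (some j)] at h1
      calc ε = (ex k e (some j) * ex k e (some j)) * ε := by rw [h2, one_mul]
        _ = ex k e (some j) * (ex k e (some j) * v (some j) + ex k e (some j) * ε) -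
          (ex k e (some j) * ex k e (some j)) * v (some j) := by ring
        _ = _ := by rw [h1, h2]; ring
    have hyi : ∀ o, y o = ex k e o * (v o - v (some j)) := by
      intro o
      rw [hydef]
      change (xx o : ZMod 3) + ex k e o * ε = _
      rw [hxv o, hεv]
      ring
    have e2 : el π (fun o => (y o).val) = w ^ (y none).val *
        ∏ i ∈ Finset.univ.erase j, π i ^ (y (some i)).val := by
      unfold el
      rw [← Finset.mul_prod_erase Finset.univ (fun i => π i ^ (y (some i)).val)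
        (Finset.mem_univ j), hyj, ZMod.val_zero, pow_zero, one_mul]
    rw [e2] at hy2
    have hcube := resid_kc hy2 hp3 ι (hD.pq j).prime hl hy1
    have hnd := not_dvd_prod hD j (fun i => (y (some i)).val)
    have h9 := (hD.pq j).norm
    have hpj := (hD.pq j).prime
    have hw : ¬ π j ∣ (w : Ei) ^ (y none).val := fun h1 => not_dvd_w hpj (hpj.dvd_of_dvd_pow h1)
    have hnd' : ¬ π j ∣ w ^ (y none).val *
        ∏ i ∈ Finset.univ.erase j, π i ^ (y (some i)).val := fun h1 =>
      (hpj.dvd_or_dvd h1).elim hw hnd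
    have hcs := (cs_zero_iff hpj h9 hnd').2 hcube
    have hnd1 : ∀ i ∈ Finset.univ.erase j, ¬ π j ∣ π i := fun i hij =>
      hD.nd i j (Finset.ne_of_mem_erase hij)
    rw [cs_mul hpj h9 hw hnd, cs_pow hpj h9 (not_dvd_w hpj), cs_ww (hD.pq j),
      cs_prod hpj h9 _ _ (fun i hij h1 => hnd1 i hij (hpj.dvd_of_dvd_pow h1))] at hcs
    rw [← Finset.add_sum_erase Finset.univ _ (Finset.mem_univ j), sub_self, mul_zero, zero_add,
      ← hcs]
    congr 1
    · rw [ZMod.natCast_zmod_val, hyi none]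
      change k * nq (π j) * (v none - v (some j)) = k * (v none - v (some j)) * nq (π j)
      ring
    · refine Finset.sum_congr rfl fun i hij => ?_
      rw [cs_pow hpj h9 (hnd1 i hij), ZMod.natCast_zmod_val, hyi (some i)]
      change e i * cs (π j) (π i) * (v (some i) - v (some j)) =
        e i * (v (some i) - v (some j)) * cs (π j) (π i)
      ring
  refine ⟨v, heq, el_exp hD (fun o => ?_) hx⟩
  rw [hxv o, ZMod.natCast_zmod_val]

/-- the Selmer group is not larger than the kernel -/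
theorem sel_le (hk : k ≠ 0) (hD : Dt π e) (hDk : Dk k π e D) {u : QB} {a : GK i₀ → ZMod 3}
    (hTw : Tw hi D u a) : (SelH hi a).Finite ∧ (SelH hi a).ncard ≤ (KW k π e).ncard := by
  have hfin : (KW k π e).Finite := Set.toFinite _
  choose! f hf hf2 using fun (h : GK i₀ → ZMod 3) (hs : h ∈ SelH hi a) =>
    sel_ker hk hD hDk hTw hs
  have hmaps : ∀ h ∈ SelH hi a, f h ∈ KW k π e := hf
  have hinj : Set.InjOn f (SelH hi a) := by
    intro h1 m1 h2 m2 h12
    have k1 := hf2 h1 m1
    have k2 := hf2 h2 m2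
    rw [h12] at k1
    funext σ
    exact kc_uniq (el_ne hD _) k1 k2 σ
  refine ⟨Set.Finite.of_finite_image (hfin.subset ?_) hinj,
    Set.ncard_le_ncard_of_injOn f hmaps hinj hfin⟩
  rintro _ ⟨h, hh, rfl⟩
  exact hf h hh

/-- the kernel consists of the constants -/
def KerC (k : ZMod 3) (π : J → Ei) (e : J → ZMod 3) : Prop :=
  ∀ v ∈ KW k π e, ∀ i, v (some i) = v none

/-- the Selmer group is generated by the torsion point -/
theorem sel1 (hk : k ≠ 0) (hD : Dt π e) (hDk : Dk k π e D) (hK : KerC k π e) {u : QB}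
    {a : GK i₀ → ZMod 3} (hTw : Tw hi D u a) : Sel1 hi a := by
  intro h hc hm hloc
  obtain ⟨v, hv, hkc⟩ := sel_ker hk hD hDk hTw (h := h) ⟨hc, hm, hloc⟩
  have hconst := hK v hv
  refine ⟨-v none, fun σ => ?_⟩
  have h2 := kc_pow (el_ne hD _) (kc_D hD hDk hTw) (v none).val
  rw [el_pow] at h2
  have h1 : Kc hi (el π (fun o => (ex k e o).val * (v none).val)) h := by
    refine el_exp hD (fun o => ?_) hkc
    have hvo : v o = v none := by
      cases o with
      | none => rfl
      | some i => exact hconst i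
    rw [hvo]
    push_cast
    rw [ZMod.natCast_zmod_val, ZMod.natCast_zmod_val, ZMod.natCast_zmod_val]
  have h3 := kc_uniq (el_ne hD _) h1 h2 σ
  rw [h3, ZMod.natCast_zmod_val]
  ring

end Pool.Agent.H462.CTU.Sel
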