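import Pool.Agent.H462.CTU.Chr

/-!
# The total of the three odd characters modulo `3√-3`
-/

set_option autoImplicit false
set_option linter.unusedSectionVars false

open Filter
open scoped Topology PeriodPair

namespace Pool.Agent.H462.CTU.Tot

open Pool.Agent.Y692.QS (Ei w nr toC)
open H667R3 Pool.Agent.W192.HK Pool.Agent.TH936.CM
open Pool.Agent.TH936.PU hiding v_int
open Pool.Agent.Y715.Dist Pool.Agent.Y715.Idn Pool.Agent.Y715.T.Lat Pool.Agent.Y696
open Pool.Agent.Y715.T.Rs (eq0)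
open Pool.Agent.Y715.Two (v_nat v_int v_unit v_mul_le_of)
open Pool.Agent.Y715.T.Three Pool.Agent.Y715.T.Cg
open Pool.Agent.Y703.CT.Ana (ej eo_j ej_u ej_ncop ej_prim om_val)
open Pool.Agent.Y703.CT (toC_w_add)
open Pool.Agent.H462.CTU.Phi Pool.Agent.H462.CTU.Chr

variable {L : PeriodPair} {Ω : ℂ}

/-- the value of the character at four -/
noncomputable def zk (k : ZMod 3) : ℂ := toC w ^ (-k).val

lemma zk_sq (k : ZMod 3) : zk k ^ 2 = toC w ^ k.val := by
  unfold zk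
  rw [pow_two, ← toC_w_add]
  congr 2
  revert k
  decide

lemma w_sq : toC w ^ 2 + toC w + 1 = 0 := by
  have h1 := Pool.Agent.Y715.T.Fin.toC_w_cube
  have h2 := Pool.Agent.Y715.T.Fin.toC_w_ne
  have h3 : (toC w - 1) * (toC w ^ 2 + toC w + 1) = 0 := by linear_combination h1
  exact (mul_eq_zero.1 h3).resolve_left (sub_ne_zero.2 h2)

lemma zk_root {k : ZMod 3} (hk : k ≠ 0) : zk k ^ 2 + zk k + 1 = 0 := by
  have h1 := Pool.Agent.Y715.T.Fin.toC_w_cube
  have h2 := w_sq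
  have h3 : ∀ k : ZMod 3, k ≠ 0 → (-k).val = 1 ∨ (-k).val = 2 := by decide
  unfold zk
  rcases h3 k hk with h | h
  · rw [h, pow_one]
    exact h2
  · rw [h]
    linear_combination h2 + toC w * h1

lemma ck_four (k : ZMod 3) : ck k 4 = zk k := by
  unfold ck zk
  have h1 : eq0.symm (4 : eis) = (4 : Ei) := map_ofNat _ 4
  have h2 : nr (4 : Ei) = 1 + 3 * 5 := by decide
  rw [h1, nq_of h2]
  congr 2
  revert k
  decide

lemma ck_two (k : ZMod 3) : ck k (-2) = zk k ^ 2 := by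
  rw [zk_sq]
  unfold ck
  have h1 : eq0.symm (-2 : eis) = (-2 : Ei) := by
    rw [map_neg]
    congr 1
    exact map_ofNat _ 2
  have h2 : nr (-2 : Ei) = 1 + 3 * 1 := by decide
  rw [h1, nq_of h2]
  congr 2
  revert k
  decide

/-- the constant -/
noncomputable def kp (k : ZMod 3) (L : PeriodPair) (Ω : ℂ) : ℂ := 6 * ph L Ω (zk k) (w0 Ω)

/-- the constants of the three characters -/
noncomputable def Ek (k : ZMod 3) (L : PeriodPair) (Ω : ℂ) (j : Fin 3) : ℂ :=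
  if j = 0 then kp k L Ω else 0

lemma mem3 {a : ℤ} {x : eis} (h : x = 1 + 3 * (a : eis)) : x - 1 ∈ (sp 3 : Ideal eis) := by
  rw [Ideal.mem_span_singleton']
  exact ⟨a, by rw [h]; ring⟩

lemma four_prim : (4 : eis) - 1 ∈ (sp 3 : Ideal eis) := mem3 (a := 1) (by push_cast; norm_num)

lemma two_prim : (-2 : eis) - 1 ∈ (sp 3 : Ideal eis) := mem3 (a := -1) (by push_cast; norm_num)

lemma ek_up (k : ZMod 3) (j : Fin 3) {u p : eis} (hu : IsUnit u) (hp : p - 1 ∈ (sp 3 : Ideal eis)) :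
    ek k j (u * p) = (u : ℂ) ^ (2 * (j : ℕ) + 1) * ck k p := by
  rw [(eo_k k j).mul, ek_prim k j hp]
  congr 1
  unfold ek
  rw [ck_unit k hu, mul_one, ej_u j hu]

lemma sum_units (j : Fin 3) : ((1 : eis) : ℂ) ^ (2 * (j : ℕ)) + ((-1 : eis) : ℂ) ^ (2 * (j : ℕ)) +
    ((omr : eis) : ℂ) ^ (2 * (j : ℕ)) + ((-omr : eis) : ℂ) ^ (2 * (j : ℕ)) +
    ((omr ^ 2 : eis) : ℂ) ^ (2 * (j : ℕ)) + ((-omr ^ 2 : eis) : ℂ) ^ (2 * (j : ℕ)) =
      if j = 0 then 6 else 0 := by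
  have h3 := om_cube
  have hs := om_sq
  push_cast
  rw [omr_coe]
  fin_cases j
  · norm_num
  · norm_num
    linear_combination 2 * hs + (2 * om) * h3
  · norm_num
    linear_combination 2 * hs + (2 * om) * h3 + (2 * (om ^ 5 + om ^ 2)) * h3

section lim

variable (hC : Cur L Ω) [Fintype (eis ⧸ (sp f3 : Ideal eis))]

include hC

/-- the limits of the constants -/
theorem lim_k {k : ZMod 3} (hk : k ≠ 0) (j : Fin 3) :
    Tendsto (fun δ : ℝ => ∑ y : eis ⧸ (sp f3 : Ideal eis), ek k j y.out *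
      EE eis Ω δ (Ω * y.out / (f3 : eis))) (𝓝[>] 0) (𝓝 (Ek k L Ω j)) := by
  obtain ⟨n0, n1, n2⟩ := w0_no hC
  have h1 := (lim_A hC (zk_root hk) n0 n1 n2).const_mul (if j = 0 then (6 : ℂ) else 0)
  have e0 : (if j = 0 then (6 : ℂ) else 0) * ph L Ω (zk k) (w0 Ω) = Ek k L Ω j := by
    unfold Ek kp
    by_cases hj : j = 0
    · rw [if_pos hj, if_pos hj]
    · rw [if_neg hj, if_neg hj, zero_mul]
  rw [e0] at h1
  refine h1.congr fun δ => ?_
  have hper : ∀ x y : eis, x - y ∈ (sp f3 : Ideal eis) →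
      ek k j x * EE eis Ω δ (Ω * x / (f3 : eis)) = ek k j y * EE eis Ω δ (Ω * y / (f3 : eis)) := by
    intro x y hxy
    rw [(eo_k k j).per x y hxy]
    congr 1
    apply EE_per hC.lat
    have := (div_mem_iff hC.lat f3_ne (x - y)).2 hxy
    convert this using 1
    push_cast
    ring
  rw [eighteen (F := fun y => ek k j y * EE eis Ω δ (Ω * y / (f3 : eis)))
    (fun x hx => by rw [ek_ncop k j hx, zero_mul]) hper, ← sum_units j]
  have hterm : ∀ u p : eis, IsUnit u → p - 1 ∈ (sp 3 : Ideal eis) →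
      ek k j (u * p) * EE eis Ω δ (Ω * ((u * p : eis) : ℂ) / (f3 : eis)) =
        (u : ℂ) ^ (2 * (j : ℕ)) * (ck k p * EE eis Ω δ (Ω * p / (f3 : eis))) := by
    intro u p hu hp
    have hu0 : (u : ℂ) ≠ 0 := coe_ne hu.ne_zero
    have e : Ω * ((u * p : eis) : ℂ) / ((f3 : eis) : ℂ) = u * (Ω * p / (f3 : eis)) := by
      push_cast
      ring
    rw [ek_up k j hu hp, e, EE_unit hu, pow_succ]
    field_simp
  have htri : ∀ u : eis, IsUnit u →
      tri (fun y => ek k j y * EE eis Ω δ (Ω * y / (f3 : eis))) u =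
        (u : ℂ) ^ (2 * (j : ℕ)) * (EE eis Ω δ (w0 Ω) + zk k * EE eis Ω δ (w0 Ω + tau Ω) +
          zk k ^ 2 * EE eis Ω δ (w0 Ω - tau Ω)) := by
    intro u hu
    unfold tri
    have a1 := hterm u 1 hu (by rw [sub_self]; exact Submodule.zero_mem _)
    have a2 := hterm u 4 hu four_prim
    have a3 := hterm u (-2) hu two_prim
    rw [mul_one] at a1
    rw [w_f3, ck_unit k isUnit_one, one_mul] at a1
    rw [w_f4, ck_four] at a2
    rw [w_f2, ck_two] at a3
    beta_reduce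
    rw [a1, a2, a3]
    ring
  have hu : ∀ v ∈ ({1, -1, omr, -omr, omr ^ 2, -omr ^ 2} : Set eis), IsUnit v := fun v hv =>
    (unit_list v).2 hv
  rw [htri 1 (hu _ (by simp)), htri (-1) (hu _ (by simp)), htri omr (hu _ (by simp)),
    htri (-omr) (hu _ (by simp)), htri (omr ^ 2) (hu _ (by simp)), htri (-omr ^ 2) (hu _ (by simp))]
  ring

/-- the function `HH` for the three characters together -/
theorem HH_tot (k : ZMod 3) (u : ℂ) :
    ∑ j : Fin 3, HH L Ω f3 (ek k j) u = 3 * (Dd L (w0 Ω) u + zk k * Dd L (w0 Ω + tau Ω) u +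
      zk k ^ 2 * Dd L (w0 Ω - tau Ω) u) := by
  have h1 : ∑ j : Fin 3, HH L Ω f3 (ek k j) u = (1 / 2) * ∑ y : eis ⧸ (sp f3 : Ideal eis),
      (∑ j : Fin 3, ek k j y.out) * Dd L (Ω * y.out / (f3 : eis)) u := by
    unfold HH
    rw [← Finset.mul_sum, Finset.sum_comm]
    congr 1
    exact Finset.sum_congr rfl fun y _ => by rw [Finset.sum_mul]
  have hper : ∀ x y : eis, x - y ∈ (sp f3 : Ideal eis) →
      (∑ j : Fin 3, ek k j x) * Dd L (Ω * x / ((f3 : eis) : ℂ)) u =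
        (∑ j : Fin 3, ek k j y) * Dd L (Ω * y / ((f3 : eis) : ℂ)) u := by
    intro x y hxy
    rw [Finset.sum_congr rfl fun j _ => (eo_k k j).per x y hxy]
    congr 1
    apply Pool.Agent.TH936.PU.Dd_per
    have := (hC.div_iff f3_ne (x - y)).2 hxy
    convert this using 1
    push_cast
    ring
  rw [h1, eighteen (F := fun y => (∑ j : Fin 3, ek k j y) * Dd L (Ω * y / ((f3 : eis) : ℂ)) u)
    (fun x hx => by rw [Finset.sum_eq_zero fun j _ => ek_ncop k j hx, zero_mul]) hper]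
  have hterm : ∀ v p : eis, IsUnit v → p - 1 ∈ (sp 3 : Ideal eis) →
      (∑ j : Fin 3, ek k j (v * p)) * Dd L (Ω * ((v * p : eis) : ℂ) / ((f3 : eis) : ℂ)) u =
        ((v : ℂ) + v ^ 3 + v ^ 5) * (ck k p * Dd L (v * (Ω * p / ((f3 : eis) : ℂ))) u) := by
    intro v p hv hp
    have e : Ω * ((v * p : eis) : ℂ) / ((f3 : eis) : ℂ) = v * (Ω * p / (f3 : eis)) := by
      push_cast
      ring
    rw [Fin.sum_univ_three, ek_up k _ hv hp, ek_up k _ hv hp, ek_up k _ hv hp, e]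
    norm_num
    ring
  have hneg : ∀ z : ℂ, Dd L (-z) u = -Dd L z u := by
    intro z
    unfold Dd
    rw [L.derivWeierstrassP_neg, L.weierstrassP_neg, neg_div]
  have htri : ∀ v : eis, IsUnit v →
      tri (fun y => (∑ j : Fin 3, ek k j y) * Dd L (Ω * y / ((f3 : eis) : ℂ)) u) v =
        ((v : ℂ) + v ^ 3 + v ^ 5) * (Dd L (v * w0 Ω) u + zk k * Dd L (v * (w0 Ω + tau Ω)) u +
          zk k ^ 2 * Dd L (v * (w0 Ω - tau Ω)) u) := by
    intro v hv
    unfold tri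
    have a1 := hterm v 1 hv (by rw [sub_self]; exact Submodule.zero_mem _)
    have a2 := hterm v 4 hv four_prim
    have a3 := hterm v (-2) hv two_prim
    rw [mul_one] at a1
    rw [w_f3, ck_unit k isUnit_one, one_mul] at a1
    rw [w_f4, ck_four] at a2
    rw [w_f2, ck_two] at a3
    beta_reduce
    rw [a1, a2, a3]
    ring
  have hu : ∀ v ∈ ({1, -1, omr, -omr, omr ^ 2, -omr ^ 2} : Set eis), IsUnit v := fun v hv =>
    (unit_list v).2 hv
  rw [htri 1 (hu _ (by simp)), htri (-1) (hu _ (by simp)), htri omr (hu _ (by simp)),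
    htri (-omr) (hu _ (by simp)), htri (omr ^ 2) (hu _ (by simp)), htri (-omr ^ 2) (hu _ (by simp))]
  have h3 := om_cube
  have hs := om_sq
  have z1 : om + om ^ 3 + om ^ 5 = 0 := by linear_combination hs + (1 + om ^ 2) * h3
  have z2 : om ^ 2 + (om ^ 2) ^ 3 + (om ^ 2) ^ 5 = 0 := by
    linear_combination hs + (om ^ 3 + 1 + om * (om ^ 6 + om ^ 3 + 1)) * h3
  push_cast
  rw [omr_coe]
  have z3 : -om + (-om) ^ 3 + (-om) ^ 5 = 0 := by linear_combination -z1
  have z4 : -om ^ 2 + (-om ^ 2) ^ 3 + (-om ^ 2) ^ 5 = 0 := by linear_combination -z2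
  rw [z1, z2, z3, z4]
  rw [neg_one_mul, neg_one_mul, neg_one_mul, hneg, hneg, hneg]
  norm_num
  ring

/-- the sum of the three values -/
theorem Dd_tot {k : ZMod 3} (hk : k ≠ 0) {c : eis} (hc : c ≠ 0) (h3c : IsCoprime 3 c)
    {x : eis} (hx : x ∉ (sp c : Ideal eis)) :
    Dd L (w0 Ω) (Ω * x / c) + zk k * Dd L (w0 Ω + tau Ω) (Ω * x / c) +
      zk k ^ 2 * Dd L (w0 Ω - tau Ω) (Ω * x / c) =
      ph L Ω (zk k) (w0 Ω + Ω * x / c) + ph L Ω (zk k) (w0 Ω - Ω * x / c) -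
        2 * ph L Ω (zk k) (w0 Ω) := by
  have hf : IsCoprime f3 c := cop_f3.2 h3c
  have m1 := cop_notMem hC.lat f3_ne hc hf (z := 1) hx
  have m2 := cop_notMem hC.lat f3_ne hc hf (z := 4) hx
  have m3 := cop_notMem hC.lat f3_ne hc hf (z := -2) hx
  rw [w_f3] at m1
  rw [w_f4] at m2
  rw [w_f2] at m3
  obtain ⟨n0, n1, n2⟩ := w0_no hC
  have hu : Ω * x / c ∉ L.lattice := by rwa [div_mem_iff hC.lat hc]
  set u := Ω * x / c with hu'
  have e1 : w0 Ω + u + tau Ω = w0 Ω + tau Ω + u := by ring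
  have e2 : w0 Ω + u - tau Ω = w0 Ω - tau Ω + u := by ring
  have e3 : w0 Ω - u + tau Ω = w0 Ω + tau Ω - u := by ring
  have e4 : w0 Ω - u - tau Ω = w0 Ω - tau Ω - u := by ring
  have h0 := lim_A hC (zk_root hk) n0 n1 n2
  have h1 := lim_A hC (zk_root hk) m1.1 (by rw [e1]; exact m2.1) (by rw [e2]; exact m3.1)
  have h2 := lim_A hC (zk_root hk) m1.2 (by rw [e3]; exact m2.2) (by rw [e4]; exact m3.2)
  have d0 := lim_Dd hC.lat n0 hu m1.1 m1.2
  have d1 := lim_Dd hC.lat n1 hu m2.1 m2.2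
  have d2 := lim_Dd hC.lat n2 hu m3.1 m3.2
  have t1 := (d0.add (d1.const_mul (zk k))).add (d2.const_mul (zk k ^ 2))
  have t2 := (h1.add h2).sub (h0.const_mul 2)
  refine tendsto_nhds_unique t1 (t2.congr fun δ => ?_)
  rw [e1, e2, e3, e4]
  ring

end lim

section val

variable {Γ : Type*} [LinearOrderedCommGroupWithZero Γ] {v : Valuation ℂ Γ}
  (h3 : v 3 < 1) (hC : Cur L Ω) {k : ZMod 3} (hk : k ≠ 0)

include h3 hC hk

lemma kp_val : v (kp k L Ω) = v lam ^ 3 := by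
  unfold kp
  rw [map_mul, ph_val h3 hC (zk_root hk) (w0_pt h3 hC), v_six h3, ← sq_three, pow_succ, pow_two]

lemma kp_ne : kp k L Ω ≠ 0 := by
  intro h
  have h1 := kp_val h3 hC hk
  rw [h, map_zero] at h1
  exact pow_ne_zero 3 lam_ne h1.symm

/-- **The total is close to the constant.** -/
theorem tot [Fintype (eis ⧸ (sp f3 : Ideal eis))] {c : eis} (hc : c ≠ 0) (h3c : IsCoprime 3 c)
    (hct : sp c ≠ ⊤) (hfin : ∀ q : eis, q ≠ 0 → Finite (eis ⧸ sp q)) {x : eis}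
    (hx : IsCoprime x c) :
    v ((∑ j : Fin 3, Ph L Ω f3 (ek k j) (Ek k L Ω j) c x) / kp k L Ω - 1) < 1 := by
  have hx' : x ∉ (sp c : Ideal eis) := notMem_of_cop hct hx
  have hκ := kp_ne h3 hC hk
  have hζ := zk_root hk
  have p0 : Pt v L (w0 Ω) := w0_pt h3 hC
  have p1 : Pt v L (w0 Ω + Ω * x / c) := wu_pt h3 hC hc h3c hct hfin hx
  have p2 : Pt v L (w0 Ω - Ω * x / c) := by
    have h4 := wu_pt h3 hC hc h3c hct hfin (x := -x) hx.neg_left
    have e : w0 Ω - Ω * x / c = w0 Ω + Ω * ((-x : eis) : ℂ) / c := by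
      push_cast
      ring
    rw [e]
    exact h4
  have q1 := ph_ratio h3 hC hζ p1 p0
  have q2 := ph_ratio h3 hC hζ p2 p0
  have hp0 : ph L Ω (zk k) (w0 Ω) ≠ 0 := by
    intro h
    apply hκ
    unfold kp
    rw [h, mul_zero]
  have e1 : ∑ j : Fin 3, Ph L Ω f3 (ek k j) (Ek k L Ω j) c x =
      3 * (ph L Ω (zk k) (w0 Ω + Ω * x / c) + ph L Ω (zk k) (w0 Ω - Ω * x / c)) := by
    rw [Finset.sum_congr rfl fun j _ => Ph_of_notMem hx', Finset.sum_add_distrib, HH_tot hC k,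
      Dd_tot hC hk hc h3c hx', Fin.sum_univ_three]
    unfold Ek kp
    rw [if_pos rfl, if_neg (by decide), if_neg (by decide)]
    ring
  have e2 : (∑ j : Fin 3, Ph L Ω f3 (ek k j) (Ek k L Ω j) c x) / kp k L Ω - 1 =
      -((1 - ph L Ω (zk k) (w0 Ω + Ω * x / c) / ph L Ω (zk k) (w0 Ω)) +
        (1 - ph L Ω (zk k) (w0 Ω - Ω * x / c) / ph L Ω (zk k) (w0 Ω))) / 2 := by
    rw [e1]
    unfold kp
    field_simp
    ring
  rw [e2, map_div₀, v_two h3, div_one, v.map_neg]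
  exact v.map_add_lt q1 q2

end val

end Pool.Agent.H462.CTU.Tot
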