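import Pool.Agent.H462.CTU.Hec

/-!
# The central value
-/

set_option autoImplicit false
set_option linter.unusedSectionVars false

open Filter
open scoped Classical Topology PeriodPair

namespace Pool.Agent.H462.CTU.Val

open Pool.Agent.Y692.QS (Ei w nr toC)
open Pool.Agent.Y703.CT
open Pool.Agent.W192.HK Pool.Agent.TH936.CM Pool.Agent.TH936.PU
open Pool.Agent.W192.CM (nu)
open Pool.Agent.Y715.Dist Pool.Agent.Y715.Idn Pool.Agent.Y696
open Pool.Agent.Y715.T.Rs (eq0)
open Pool.Agent.Y715.T.Lat (la la_coe)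
open Pool.Agent.Y715.T.Three (lam lam_ne')
open Pool.Agent.Y703.CT.Ana (ej eo_j ej_u ej_ncop ej_prim)
open Pool.Agent.Y715.CT.Hec (cP XX X_mul X_per X_ne_iff X_cube X_one X_neg_one ex_j unitG nd_unit
  X_ne_cop cP_ne cop3 prime_la la_ne cop_la om_ne_one om2_ne_one)
open Pool.Agent.Y715.CT.AN1b (Xo_X conj_w conj_X)
open Pool.Agent.H462.CTU.Phi Pool.Agent.H462.CTU.Chr Pool.Agent.H462.CTU.Tot
open Pool.Agent.H462.CTU.Hec
open Pool.Agent.H462.CTU.Eng (SQ)

variable {J : Type} [Fintype J] {π : J → Ei} {e : J → ZMod 3} {k : ZMod 3} {j : Fin 3}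

/-- `F` is the entire continuation of the `L`-series of the Hecke character
`(α) ↦ α (α / ω)^(-k) ∏ (α / π_j)^(e_j)`, `α` primary -/
def IsHLk (k : ZMod 3) (π : J → Ei) (e : J → ZMod 3) (F : ℂ → ℂ) : Prop :=
  Differentiable ℂ F ∧ ∀ s : ℂ, 3 / 2 < s.re →
    HasSum (fun α : {α : Ei // (3 : Ei) ∣ α - 1} =>
      toC α * (toC w ^ (-(k * nq α)).val * chD π e α) * ((nr α : ℤ) : ℂ) ^ (-s)) (F s)

lemma conj_ck (k : ZMod 3) (α : Ei) :
    (starRingEnd ℂ) (ck k (eq0 α)) = toC w ^ (-(k * nq α)).val := by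
  unfold ck
  rw [RingEquiv.symm_apply_apply]
  have h1 := conj_w (-(k * nq α))
  rw [neg_neg] at h1
  exact h1

/-- the vanishing for the wrong exponents -/
lemma SS_zero (h : Dt π e) (hj : om ^ (2 * (j : ℕ)) * XX π e omr = 1) {i : Fin 3} (hi : i ≠ j)
    (δ : ℝ) : SS (fun α : eis => ek k i α * XX π e α) δ = 0 := by
  have hu : IsUnit omr := (unit_list _).2 (by simp)
  have h3 := om_cube
  have hn : Complex.normSq om = 1 := by
    have := (isUnit_iff' omr).1 hu
    rwa [omr_coe] at this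
  set a : eisˣ := hu.unit with ha
  have ha' : (a : eis) = omr := rfl
  have hek : ek k i omr = om ^ (2 * (i : ℕ) + 1) := by
    unfold ek
    rw [ck_unit k hu, mul_one, ej_u i hu, omr_coe]
  have h1 : SS (fun α : eis => ek k i α * XX π e α) δ =
      (om ^ (2 * (i : ℕ)) * XX π e omr) * SS (fun α : eis => ek k i α * XX π e α) δ := by
    unfold SS
    rw [← tsum_mul_left, ← (Units.mulLeft a).tsum_eq]
    refine tsum_congr fun α => ?_
    show ek k i (omr * α) * XX π e (omr * α) * fd δ ((omr * α : eis) : ℂ) =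
      om ^ (2 * (i : ℕ)) * XX π e omr * (ek k i α * XX π e α * fd δ (α : ℂ))
    rw [X_mul h, (eo_k k i).mul, hek]
    have e1 : ((omr * α : eis) : ℂ) = om * α := rfl
    rw [e1, fd_mul, hn, mul_one, pow_succ]
    have h0 := om_ne
    field_simp
  have h2 : om ^ (2 * (i : ℕ)) * XX π e omr ≠ 1 := by
    intro h4
    have hX : XX π e omr ≠ 0 := right_ne_zero_of_mul (by rw [h4]; exact one_ne_zero)
    have h5 : om ^ (2 * (i : ℕ)) = om ^ (2 * (j : ℕ)) :=
      mul_right_cancel₀ hX (by rw [h4, hj])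
    have key : ∀ m n : ℕ, m < n → n < 3 → om ^ (2 * m) ≠ om ^ (2 * n) := by
      intro m n hmn hn3 h6
      have hm : m = 0 ∧ n = 1 ∨ m = 0 ∧ n = 2 ∨ m = 1 ∧ n = 2 := by omega
      rcases hm with ⟨rfl, rfl⟩ | ⟨rfl, rfl⟩ | ⟨rfl, rfl⟩
      · apply om2_ne_one
        linear_combination -h6
      · apply om_ne_one
        linear_combination -h6 - om * h3
      · apply om2_ne_one
        linear_combination (-om) * h6 + (-om ^ 2) * h3 + h3
    rcases lt_trichotomy (i : ℕ) j with h6 | h6 | h6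
    · exact key _ _ h6 j.2 h5
    · exact hi (Fin.ext h6)
    · exact key _ _ h6 i.2 h5.symm
  have h4 : (om ^ (2 * (i : ℕ)) * XX π e omr - 1) *
      SS (fun α : eis => ek k i α * XX π e α) δ = 0 := by linear_combination -h1
  exact (mul_eq_zero.1 h4).resolve_left (sub_ne_zero.2 h2)

lemma sum_iff (h : Dt π e) (hj : om ^ (2 * (j : ℕ)) * XX π e omr = 1) {s F : ℂ} :
    HasSum (fun I : Ideal eis => th π e k j I * (nm I : ℂ) ^ (-s)) F ↔
    HasSum (fun α : {α : Ei // (3 : Ei) ∣ α - 1} =>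
      toC α * (toC w ^ (-(k * nq α)).val * chD π e α) * ((nr α : ℤ) : ℂ) ^ (-s)) F := by
  have hinj : Function.Injective
      (fun α : {α : Ei // (3 : Ei) ∣ α - 1} => (sp (eq0 (α : Ei)) : Ideal eis)) := by
    intro α β hab
    apply Subtype.ext
    apply eq0.injective
    exact prim_unique (Pool.Agent.Y715.T.Ex.three_mem.2 α.2)
      (Pool.Agent.Y715.T.Ex.three_mem.2 β.2) hab
  rw [← hinj.hasSum_iff]
  · refine iff_of_eq ?_
    congr 1
    funext α
    have h2 : ((nm (sp (eq0 (α : Ei)) : Ideal eis) : ℝ) : ℂ) = ((nr (α : Ei) : ℤ) : ℂ) := by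
      have h3 := Pool.Agent.Y715.T.Rs.card_quo (α : Ei)
      have h4 : Nat.card (eis ⧸ (sp (eq0 (α : Ei)) : Ideal eis)) =
          Nat.card (Ei ⧸ Ideal.span {(α : Ei)}) := by
        rw [← Pool.Agent.Y715.T.Tf.up_sp, Pool.Agent.Y715.T.Tf.card_up]
      have h5 : nm (sp (eq0 (α : Ei)) : Ideal eis) =
          ((Nat.card (Ei ⧸ Ideal.span {(α : Ei)}) : ℕ) : ℝ) := by
        rw [← h4]
        rfl
      rw [h5]
      exact_mod_cast congrArg (fun n : ℤ => (n : ℂ)) h3
    show th π e k j (sp (eq0 (α : Ei))) * ((nm (sp (eq0 (α : Ei)) : Ideal eis) : ℝ) : ℂ) ^ (-s) = _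
    rw [h2, th_sp h hj]
    unfold gg
    rw [ek_prim k j (Pool.Agent.Y715.T.Ex.three_mem.2 α.2), map_mul, conj_X h, conj_ck,
      Pool.Agent.Y715.T.Rs.eq0_coe]
  · intro I hI
    have h1 : th π e k j I = 0 := by
      obtain ⟨β, rfl⟩ : ∃ β : eis, I = sp β :=
        ⟨_, (Submodule.IsPrincipal.span_singleton_generator I).symm⟩
      rw [th_sp h hj, gg_zero_iff h]
      right
      intro h2
      rw [IsCoprime.mul_right_iff, cop_f3'] at h2
      have h5 : IsCoprime (sp β) (sp (3 : eis)) := by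
        rw [Ideal.isCoprime_span_singleton_iff]
        exact h2.1
      obtain ⟨α, h3, h4⟩ := exists_prim h5
      apply hI
      refine ⟨⟨eq0.symm α, ?_⟩, ?_⟩
      · rw [← Pool.Agent.Y715.T.Ex.three_mem, RingEquiv.apply_symm_apply]
        exact h4
      · show (sp (eq0 (eq0.symm α)) : Ideal eis) = sp β
        rw [RingEquiv.apply_symm_apply, h3]
    rw [h1, zero_mul]

set_option maxHeartbeats 1600000 in
/-- **The central value.** -/
theorem val [Nonempty J] (hk : k ≠ 0) (h : Dt π e) : ∃ F : ℂ → ℂ, IsHLk k π e F ∧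
    ∀ [Fintype (eis ⧸ (sp f3 : Ideal eis))] (L : PeriodPair) (Ω : ℂ), Cur L Ω →
      ∃ (ρ : ℂ) (n : ℕ), 0 < n ∧ ρ ^ n = 1 ∧
        (starRingEnd ℂ) (F 1) / Ω =
          (18 * lam)⁻¹ * (∏ j, toC (π j))⁻¹ * ρ *
            SQ k L Ω (fun i => eq0 (π i)) (Xc π e) Finset.univ := by
  obtain ⟨j, hj⟩ := ex_j h
  have hθ := hc_th h hj hk
  have hfin := Pool.Agent.Y715.T.LF.fin_quot
  have hc0 := cP_ne h
  have hq0 : f3 * cP π ≠ 0 := mul_ne_zero f3_ne hc0
  obtain ⟨F, g1, g2, g3⟩ := lim_L Pool.Agent.Y696.lbasic Pool.Agent.Y696.lfp Pool.Agent.Y696.lcnt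
    Pool.Agent.Y696.ldec Pool.Agent.Y696.lafe qr hθ (sys_pid (hfin _ hq0))
  refine ⟨F, ⟨g1, fun s hs => (sum_iff h hj).1 (g2 s hs)⟩, ?_⟩
  intro _ L Ω hC
  have h3 := cop3 h
  have hf3 : IsCoprime f3 (cP π) := cop_f3.2 h3
  have : Finite (eis ⧸ sp (cP π)) := hfin _ hc0
  have : Fintype (eis ⧸ sp (cP π)) := Fintype.ofFinite _
  have : Finite (eis ⧸ sp (f3 * cP π)) := hfin _ (mul_ne_zero f3_ne hc0)
  have : Fintype (eis ⧸ sp (f3 * cP π)) := Fintype.ofFinite _
  have hXo := Xo_X h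
  have hΩ := hC.lat.ne
  have hl0 := lam_ne'
  -- the value of the sums
  have hc1 : cP π - 1 ∈ (sp 3 : Ideal eis) := by
    unfold cP cc
    have key : ∀ S : Finset J, (∏ i ∈ S, eq0 (π i)) - 1 ∈ (sp 3 : Ideal eis) := by
      intro S
      induction S using Finset.induction_on with
      | empty =>
        rw [Finset.prod_empty, sub_self]
        exact Submodule.zero_mem _
      | insert k S hk ih =>
        rw [Finset.prod_insert hk]
        have h4 := (sp 3 : Ideal eis).add_mem ((sp 3 : Ideal eis).mul_mem_left (eq0 (π k)) ih)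
          (Pool.Agent.Y715.T.Ex.three_mem.2 (h.pq k).three)
        have e1 : eq0 (π k) * ∏ i ∈ S, eq0 (π i) - 1 =
            eq0 (π k) * (∏ i ∈ S, eq0 (π i) - 1) + (eq0 (π k) - 1) := by ring
        rw [e1]
        exact h4
    exact key _
  have hec : ∀ i : Fin 3, ek k i (cP π) = ck k (cP π) := fun i => ek_prim k i hc1
  have hck0 : ck k (cP π) ≠ 0 := by
    intro h0
    have := ck_norm k (cP π)
    rw [h0, norm_zero] at this
    exact zero_ne_one this
  set A : Fin 3 → ℂ := fun i => ∑ x : eis ⧸ sp (cP π), XX π e x.out *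
    HH L Ω f3 (ek k i) (Ω * x.out / cP π) with hA
  have hlim : ∀ i : Fin 3, Tendsto (fun δ : ℝ => SS (fun α : eis => ek k i α * XX π e α) δ)
      (𝓝[>] 0) (𝓝 (Ω / (f3 * cP π) * (ck k (cP π) * XX π e f3) * A i)) := by
    intro i
    have h4 := lim_SS hC.lat f3_ne hc0 hf3 (eo_k k i) hXo
    rw [hec i] at h4
    exact h4
  have hX3 : XX π e f3 ≠ 0 := (X_ne_cop h).2 hf3
  have hcC : ((cP π : eis) : ℂ) ≠ 0 := coe_ne hc0
  have hfC : ((f3 : eis) : ℂ) ≠ 0 := coe_ne f3_ne
  have hA0 : ∀ i : Fin 3, i ≠ j → A i = 0 := by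
    intro i hi
    have h4 := hlim i
    have h5 : Tendsto (fun δ : ℝ => SS (fun α : eis => ek k i α * XX π e α) δ)
        (𝓝[>] 0) (𝓝 0) := by
      refine tendsto_const_nhds.congr fun δ => (SS_zero h hj hi δ).symm
    have h6 := tendsto_nhds_unique h4 h5
    have h7 : Ω / (f3 * cP π) * (ck k (cP π) * XX π e f3) ≠ 0 := by
      refine mul_ne_zero (div_ne_zero hΩ (mul_ne_zero hfC hcC)) (mul_ne_zero hck0 hX3)
    exact (mul_eq_zero.1 h6).resolve_left h7
  have hAj : 6 * (starRingEnd ℂ) (F 1) =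
      Ω / (f3 * cP π) * (ck k (cP π) * XX π e f3) * A j := by
    refine tendsto_nhds_unique ?_ (hlim j)
    rw [Pool.Agent.Y715.T.LF.nu_eq] at g3
    have e6 : (((6 : ℕ) : ℂ)) = 6 := by norm_num
    rw [e6] at g3
    refine g3.congr fun δ => ?_
    rw [Finset.sum_singleton]
    have t1 : th π e k j ⊤ = 1 := by
      have e1 : (⊤ : Ideal eis) = sp 1 := by
        rw [eq_comm, Ideal.span_singleton_eq_top]
        exact isUnit_one
      rw [e1, hθ.princ 1 one_ne_zero (by rw [sub_self]; exact Submodule.zero_mem _)]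
      simp
    have t2 : nm (⊤ : Ideal eis) = 1 :=
      ((Pool.Agent.Y696.lbasic eis om qr).2.2.2.2.2.2.1 ⊤).2 rfl
    rw [t1, one_mul, t2, div_one]
    congr 1
    funext α
    unfold cb fp
    rw [if_pos Submodule.mem_top, th_sp h hj, pow_one]
    unfold gg
    by_cases h0 : α = 0
    · have h5 : ek k j 0 = 0 := (eo_k k j).zero (Submodule.zero_mem _)
      rw [h0, h5]
      simp
    · have h5 : (α : ℂ) ≠ 0 := coe_ne h0
      rw [mul_div_cancel_left₀ _ h5, Complex.conj_conj]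
  -- the sums in terms of `SP`
  have hSP : ∀ i : Fin 3, SP L Ω f3 (ek k i) (Ek k L Ω i) (fun k => eq0 (π k)) (Xc π e)
      Finset.univ = A i := by
    intro i
    unfold SP
    have e1 : cc (fun k => eq0 (π k)) Finset.univ = cP π := rfl
    rw [e1, Sm_eq]
    have h8 : ∀ x : eis ⧸ sp (cP π), XT (Xc π e) Finset.univ x.out *
        Ph L Ω f3 (ek k i) (Ek k L Ω i) (cP π) x.out =
        XX π e x.out * HH L Ω f3 (ek k i) (Ω * x.out / cP π) +
          XX π e x.out * (Ek k L Ω i) := by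
      intro x
      by_cases hx : x.out ∈ sp (cP π)
      · have h9 : XT (Xc π e) Finset.univ x.out = 0 := hXo.zero _ hx
        have h9' : XX π e x.out = 0 := h9
        rw [h9, h9']
        ring
      · rw [Ph_of_notMem hx]
        show XX π e x.out * (HH L Ω f3 (ek k i) (Ω * x.out / cP π) + _) = _
        ring
    rw [Finset.sum_congr rfl fun x _ => h8 x, Finset.sum_add_distrib, ← Finset.sum_mul, hXo.sum,
      zero_mul, add_zero]
  have hSQ : SQ k L Ω (fun i => eq0 (π i)) (Xc π e) Finset.univ = A j := by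
    unfold SQ
    rw [Finset.sum_congr rfl fun i _ => hSP i]
    rw [Finset.sum_eq_single j]
    · intro i _ hi
      exact hA0 i hi
    · intro h4
      exact absurd (Finset.mem_univ j) h4
  have hck3 : ck k (cP π) ^ 3 = 1 := by
    unfold ck
    rw [← pow_mul, mul_comm, pow_mul, Pool.Agent.Y715.T.Fin.toC_w_cube, one_pow]
  refine ⟨ck k (cP π) * XX π e f3, 3, by norm_num, ?_, ?_⟩
  · rw [mul_pow, hck3, one_mul]
    exact X_cube h ((X_ne_iff h).1 hX3)
  have hprod : ((cP π : eis) : ℂ) = ∏ k, toC (π k) := by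
    unfold cP cc
    push_cast
    rfl
  rw [hSQ, ← hprod]
  have h9 : (starRingEnd ℂ) (F 1) = (6 : ℂ)⁻¹ * (6 * (starRingEnd ℂ) (F 1)) := by ring
  rw [h9, hAj, f3_coe]
  field_simp
  ring

/-! ### the valuation of the central value -/

open Pool.Agent.Y715.T.Cg (Cg Zt zt_of_prim z_pow)
open Pool.Agent.Y715.T.Three (lam_lt lam_ne sq_three v_two)
open Pool.Agent.Y715.Two (v_unit)
open Pool.Agent.H462.CTU.Eng (G sT sT_cg)

/-- the labels of the primes -/
def lb (k : ZMod 3) (π : J → Ei) (i : J) : ZMod 3 := k * nq (π i)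

lemma ck_inv (k : ZMod 3) (x : Ei) : ∃ n : ℕ, (ck k (eq0 x))⁻¹ = toC w ^ n ∧
    (n : ZMod 3) = -(k * nq x) := by
  refine ⟨(-(k * nq x)).val, ?_, ZMod.natCast_zmod_val _⟩
  unfold ck
  rw [RingEquiv.symm_apply_apply]
  refine inv_eq_of_mul_eq_one_right ?_
  rw [← toC_w_add, add_neg_cancel, ZMod.val_zero, pow_zero]

/-- **The valuation of the central value**, general case. -/
theorem an_val [Nonempty J] (hk : k ≠ 0) (h : Dt π e) (l : J → ZMod 3) :
    ∃ F : ℂ → ℂ, IsHLk k π e F ∧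
      ∀ (Γ : Type) [LinearOrderedCommGroupWithZero Γ] (v : Valuation ℂ Γ), v 3 < 1 →
        ∀ (L : PeriodPair) (Ω : ℂ), Cur L Ω → ∃ s : ℂ,
          Cg v s (G (am π e) (lb k π) l Finset.univ) ∧
            v ((starRingEnd ℂ) (F 1) / Ω) * v lam ^ 2 = v lam ^ (Fintype.card J) * v s := by
  obtain ⟨F, hF, hval⟩ := val hk h
  refine ⟨F, hF, ?_⟩
  intro Γ _ v hv L Ω hC
  have : Fintype (eis ⧸ (sp f3 : Ideal eis)) := @Fintype.ofFinite _ (fin_quot _ f3_ne)
  obtain ⟨ρ, n, hn, hρ, hval⟩ := hval L Ω hC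
  have hz : Zt v (toC w) := zt_of_prim hv (k := 1) le_rfl (by
    rw [pow_one]
    exact Pool.Agent.Y715.T.Fin.prim_w)
  have hw : toC w = om := by
    have := toC_eq' 0 1
    have e1 : (w : Ei) = ⟨0, 1⟩ := rfl
    rw [e1, this]
    push_cast
    ring
  have hzl : v (1 - toC w) = v lam := by
    rw [hw]
    exact Ana.om_val hv
  have hfy := fy (v := v) hv h
  have h3π : ∀ i, eq0 (π i) - 1 ∈ (sp 3 : Ideal eis) := by
    intro i
    exact Pool.Agent.Y715.T.Ex.three_mem.2 (h.pq i).three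
  have hcg := sT_cg (kk := lb k π) hv hC hk fin_quot hfy hz hzl h3π (fun i => ck_inv k (π i)) l
    Finset.univ
  refine ⟨_, hcg, ?_⟩
  have hκ := kp_ne hv hC hk
  have hz1 := hz.ne
  have e1 : SQ k L Ω (fun i => eq0 (π i)) (Xc π e) Finset.univ = kp k L Ω *
      (1 - toC w) ^ (Fintype.card J) *
        sT k L Ω (fun i => eq0 (π i)) (Xc π e) (toC w) Finset.univ := by
    unfold sT
    rw [Finset.card_univ, mul_div_cancel₀]
    exact mul_ne_zero hκ (pow_ne_zero _ hz1)
  have hc : v (∏ j, toC (π j)) = 1 := by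
    rw [map_prod]
    refine Finset.prod_eq_one fun i _ => ?_
    apply v_unit
    exact (hfy.lin i).trans_lt hv
  have h18 : v 18 = v lam ^ 4 := by
    have : (18 : ℂ) = 2 * 9 := by norm_num
    rw [this, map_mul, v_two hv, one_mul, Pool.Agent.Y715.T.Three.v_nine]
  rw [hval, e1]
  simp only [map_mul, map_inv₀, map_pow, hc, z_pow hn hρ, kp_val hv hC hk, hzl, h18, inv_one,
    mul_one]
  have hl : v lam ≠ 0 := lam_ne
  field_simp

end Pool.Agent.H462.CTU.Val
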